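import Mathlib

/-!
Linear categories with an extension bimodule: definitions for the knitting argument.
-/

set_option autoImplicit false
set_option linter.unusedSectionVars false

namespace Pool.Agent.MP_bd94e8_al.H6K

open CategoryTheory Module

variable {k : Type} [Field k] {C : Type 1} [Category.{0} C] [Preadditive C] [Linear k C]

/-- Nonzero objects with a local endomorphism ring. -/
def Loc (X : C) : Prop := 𝟙 X ≠ 0 ∧ ∀ f : X ⟶ X, IsIso f ∨ IsIso (𝟙 X - f)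

/-- A decomposition of `M` into a finite direct sum of objects of the class `I`. -/
structure Dcp (I : C → Prop) (M : C) : Type 1 where
  n : ℕ
  Y : Fin n → C
  inc : ∀ s, Y s ⟶ M
  prj : ∀ s, M ⟶ Y s
  mem : ∀ s, I (Y s)
  self : ∀ s, inc s ≫ prj s = 𝟙 (Y s)
  orth : ∀ s t, s ≠ t → inc s ≫ prj t = 0
  sum : ∑ s, prj s ≫ inc s = 𝟙 M

/-- A bimodule of extensions. -/
structure ExtB (k : Type) [Field k] (C : Type 1) [Category.{0} C] [Preadditive C] [Linear k C] :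
    Type 1 where
  E : C → C → Type
  acg : ∀ Z X, AddCommGroup (E Z X)
  mod : ∀ Z X, Module k (E Z X)
  pull : ∀ {M Z : C} (X : C), (M ⟶ Z) →ₗ[k] E Z X →ₗ[k] E M X
  push : ∀ (Z : C) {X Y : C}, (X ⟶ Y) →ₗ[k] E Z X →ₗ[k] E Z Y
  pull_id : ∀ (Z X : C) (δ : E Z X), pull X (𝟙 Z) δ = δ
  pull_comp : ∀ {L M Z : C} (X : C) (f : L ⟶ M) (g : M ⟶ Z) (δ : E Z X),
    pull X (f ≫ g) δ = pull X f (pull X g δ)
  push_id : ∀ (Z X : C) (δ : E Z X), push Z (𝟙 X) δ = δ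
  push_comp : ∀ (Z : C) {X Y W : C} (f : X ⟶ Y) (g : Y ⟶ W) (δ : E Z X),
    push Z (f ≫ g) δ = push Z g (push Z f δ)

instance (B : ExtB k C) (Z X : C) : AddCommGroup (B.E Z X) := B.acg Z X

instance (B : ExtB k C) (Z X : C) : Module k (B.E Z X) := B.mod Z X

/-- The sequence `X ⟶ W ⟶ Z` realizes the extension `δ`. -/
structure Conf (B : ExtB k C) {Z X W : C} (δ : B.E Z X) (i : X ⟶ W) (p : W ⟶ Z) : Prop where
  mono : ∀ {M : C} (f : M ⟶ X), f ≫ i = 0 → f = 0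
  epi : ∀ {Y : C} (g : Z ⟶ Y), p ≫ g = 0 → g = 0
  ker : ∀ {M : C} (f : M ⟶ W), f ≫ p = 0 → ∃ f' : M ⟶ X, f' ≫ i = f
  coker : ∀ {Y : C} (g : W ⟶ Y), i ≫ g = 0 → ∃ g' : Z ⟶ Y, p ≫ g' = g
  lift : ∀ {M : C} (f : M ⟶ Z), B.pull X f δ = 0 ↔ ∃ f' : M ⟶ W, f' ≫ p = f
  desc : ∀ {Y : C} (g : X ⟶ Y), B.push Z g δ = 0 ↔ ∃ g' : W ⟶ Y, i ≫ g' = g
  exl : ∀ {T : C} (η : B.E Z T), B.pull T p η = 0 → ∃ a : X ⟶ T, η = B.push Z a δ
  exr : ∀ {T : C} (η : B.E T X), B.push T i η = 0 → ∃ c : T ⟶ Z, η = B.pull X c δ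

/-- A nonzero non-isomorphism between objects of the class `I`. -/
def Rel (I : C → Prop) (X Y : C) : Prop := I X ∧ I Y ∧ ∃ f : X ⟶ Y, f ≠ 0 ∧ ¬ IsIso f

/-- Objects of `I` with no infinite chain of predecessors. -/
def Good (I : C → Prop) (X : C) : Prop := I X ∧ Acc (Rel I) X

/-- The hypotheses of the knitting theorem. -/
structure Knit (B : ExtB k C) (I : C → Prop) (c : ℕ) {D : Type} (dv : C → D) : Prop where
  finH : ∀ X Y : C, Module.Finite k (X ⟶ Y)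
  finE : ∀ X Y : C, Module.Finite k (B.E X Y)
  loc : ∀ X, I X → Loc X
  conf : ∀ Z X, I Z → I X → ∀ δ : B.E Z X, ∃ (W : C) (i : X ⟶ W) (p : W ⟶ Z),
    Conf B δ i p ∧ Nonempty (Dcp I W)
  gen : ∀ X, I X → ∃ Z₀, Nonempty (Dcp I Z₀) ∧ ∀ M, I M → ∀ η : B.E M X, η ≠ 0 →
    ∃ u : Z₀ ⟶ M, B.pull X u η ≠ 0
  same : ∀ X Y : C, dv X = dv Y →
    finrank k (X ⟶ Y) + finrank k (B.E X X) = finrank k (X ⟶ X) + finrank k (B.E X Y)
  fin : {d | ∃ X : C, dv X = d ∧ finrank k (X ⟶ X) ≤ c + finrank k (B.E X X)}.Finite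
  proj : ∀ Z, I Z → (∀ X, Good I X → ∀ δ : B.E Z X, δ = 0) → Good I Z ∧ finrank k (Z ⟶ Z) ≤ c

end Pool.Agent.MP_bd94e8_al.H6K
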