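import Pool.Agent.MP_bd94e8_al.H6K.KSpec

/-!
The abstract knitting argument.
-/

set_option autoImplicit false
set_option linter.unusedSectionVars false

namespace Pool.Agent.MP_bd94e8_al.H6K

open CategoryTheory Module

namespace KAbsA

variable {k : Type} [Field k] {C : Type 1} [Category.{0} C] [Preadditive C] [Linear k C]
  {B : ExtB k C} {I : C → Prop} {c : ℕ} {D : Type} {dv : C → D}

theorem iso_of_retr {X Y : C} (hX : 𝟙 X ≠ 0) (hY : Loc Y) (f : X ⟶ Y) (r : Y ⟶ X)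
    (h : f ≫ r = 𝟙 X) : IsIso f := by
  have he : (r ≫ f) ≫ r ≫ f = r ≫ f := by rw [Category.assoc, ← Category.assoc f, h]; simp
  rcases hY.2 (r ≫ f) with a | a
  · exact ⟨r, h, (cancel_epi (r ≫ f)).1 (by rw [he]; simp)⟩
  · have h0 : r ≫ f = 0 := (cancel_mono (𝟙 Y - r ≫ f)).1 (by
      rw [Preadditive.comp_sub, he]; simp)
    have h1 : f = 0 := by
      have : f ≫ r ≫ f = f := by rw [← Category.assoc, h]; simp
      rw [← this, h0]; simp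
    exact (hX (by rw [← h, h1]; simp)).elim

theorem iso_of_sec {X Y : C} (hX : Loc X) (hY : 𝟙 Y ≠ 0) (f : X ⟶ Y) (s : Y ⟶ X)
    (h : s ≫ f = 𝟙 Y) : IsIso f := by
  have := iso_of_retr hY hX s f h
  exact ⟨s, (cancel_epi s).1 (by rw [← Category.assoc, h]; simp), h⟩

theorem pull_zero {M Z X : C} {f : M ⟶ Z} (hf : IsIso f) {δ : B.E Z X} (h : B.pull X f δ = 0) :
    δ = 0 := by
  rw [← B.pull_id Z X δ, ← IsIso.inv_hom_id f, B.pull_comp, h, map_zero]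

theorem push_zero {Z X Y : C} {g : X ⟶ Y} (hg : IsIso g) {δ : B.E Z X} (h : B.push Z g δ = 0) :
    δ = 0 := by
  rw [← B.push_id Z X δ, ← IsIso.hom_inv_id g, B.push_comp, h, map_zero]

theorem pull_fix {Z X : C} (hZ : Loc Z) {a : Z ⟶ Z} {δ : B.E Z X} (h0 : δ ≠ 0)
    (h : B.pull X a δ = δ) : IsIso a :=
  (hZ.2 a).resolve_right fun e => h0 (pull_zero e (by
    rw [map_sub, LinearMap.sub_apply, B.pull_id, h, sub_self]))

theorem push_fix {Z X : C} (hX : Loc X) {a : X ⟶ X} {δ : B.E Z X} (h0 : δ ≠ 0)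
    (h : B.push Z a δ = δ) : IsIso a :=
  (hX.2 a).resolve_right fun e => h0 (push_zero e (by
    rw [map_sub, LinearMap.sub_apply, B.push_id, h, sub_self]))

/-- Chains of nonzero non-isomorphisms. -/
abbrev Lt (I : C → Prop) : C → C → Prop := Relation.TransGen (Rel I)

theorem rel_iso {X Y Y' : C} (h : Rel I X Y) (hY : I Y') {e : Y ⟶ Y'} (he : IsIso e) :
    Rel I X Y' := by
  obtain ⟨h1, -, f, h0, hf⟩ := h
  refine ⟨h1, hY, f ≫ e, fun z => h0 ((cancel_mono e).1 (by rw [z]; simp)), fun z => hf ?_⟩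
  exact IsIso.of_isIso_comp_right f e

theorem lt_iso {X Y Y' : C} (h : Lt I X Y) (hY : I Y') {e : Y ⟶ Y'} (he : IsIso e) :
    Lt I X Y' := by
  cases h with
  | single h => exact .single (rel_iso h hY he)
  | tail h1 h => exact .tail h1 (rel_iso h hY he)

theorem good_of_ne {N X : C} (hN : I N) (hX : Good I X) {f : N ⟶ X} (hf : f ≠ 0) : Good I N := by
  refine ⟨hN, ?_⟩
  by_cases e : IsIso f
  · exact ⟨_, fun M hM => hX.2.inv (rel_iso hM hX.1 e)⟩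
  · exact hX.2.inv ⟨hN, hX.1, f, hf, e⟩

theorem good_of_lt {X Y : C} (h : Lt I X Y) (hY : Good I Y) : Good I X := by
  induction h with
  | single h => exact ⟨h.1, hY.2.inv h⟩
  | tail _ h ih => exact ih ⟨h.1, hY.2.inv h⟩

theorem not_lt {X : C} (hX : Good I X) : ¬ Lt I X X := by
  have := hX.2.transGen
  clear hX
  induction this with
  | intro X _ ih => exact fun h => ih X h h

/-- Killed by the non-isomorphisms into the third term. -/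
def RR (I : C → Prop) {Z X : C} (δ : B.E Z X) : Prop :=
  ∀ M, I M → ∀ f : M ⟶ Z, ¬ IsIso f → B.pull X f δ = 0

/-- Killed by the non-isomorphisms out of the first term. -/
def LL (I : C → Prop) {Z X : C} (δ : B.E Z X) : Prop :=
  ∀ Y, I Y → ∀ g : X ⟶ Y, ¬ IsIso g → B.push Z g δ = 0

theorem sumL {W Z : C} (d : Dcp I W) (p : W ⟶ Z) : ∑ s, d.prj s ≫ d.inc s ≫ p = p := by
  conv_rhs => rw [← Category.id_comp p, ← d.sum, Preadditive.sum_comp]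
  simp

theorem sumR {W X : C} (d : Dcp I W) (i : X ⟶ W) : ∑ s, (i ≫ d.prj s) ≫ d.inc s = i := by
  conv_rhs => rw [← Category.comp_id i, ← d.sum, Preadditive.comp_sum]
  simp

theorem pull_dcp {W Z X : C} (d : Dcp I W) (p : W ⟶ Z) (δ : B.E Z X)
    (h : ∀ s, B.pull X (d.inc s ≫ p) δ = 0) : B.pull X p δ = 0 := by
  rw [← sumL d p, map_sum, LinearMap.sum_apply]
  exact Finset.sum_eq_zero fun s _ => by rw [B.pull_comp, h, map_zero]

theorem push_dcp {W Z X : C} (d : Dcp I W) (i : X ⟶ W) (δ : B.E Z X)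
    (h : ∀ s, B.push Z (i ≫ d.prj s) δ = 0) : B.push Z i δ = 0 := by
  rw [← sumR d i, map_sum, LinearMap.sum_apply]
  exact Finset.sum_eq_zero fun s _ => by rw [B.push_comp, h, map_zero]

theorem niL {W Z : C} (d : Dcp I W) {p : W ⟶ Z} (hp : ¬ ∃ s, s ≫ p = 𝟙 Z) (s : Fin d.n) :
    ¬ IsIso (d.inc s ≫ p) := fun _ => hp ⟨inv (d.inc s ≫ p) ≫ d.inc s, by simp⟩

theorem niR {W X : C} (d : Dcp I W) {i : X ⟶ W} (hi : ¬ ∃ r, i ≫ r = 𝟙 X) (s : Fin d.n) :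
    ¬ IsIso (i ≫ d.prj s) := fun _ => hi ⟨d.prj s ≫ inv (i ≫ d.prj s), by
      rw [← Category.assoc, IsIso.hom_inv_id]⟩

theorem RR.dcp {W Z X : C} {δ : B.E Z X} (h : RR I δ) (d : Dcp I W) {p : W ⟶ Z}
    (hp : ¬ ∃ s, s ≫ p = 𝟙 Z) : B.pull X p δ = 0 :=
  pull_dcp d p δ fun s => h _ (d.mem s) _ (niL d hp s)

theorem LL.dcp {W Z X : C} {δ : B.E Z X} (h : LL I δ) (d : Dcp I W) {i : X ⟶ W}
    (hi : ¬ ∃ r, i ≫ r = 𝟙 X) : B.push Z i δ = 0 :=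
  push_dcp d i δ fun s => h _ (d.mem s) _ (niR d hi s)

theorem no_sec {Z X W : C} {δ : B.E Z X} {i : X ⟶ W} {p : W ⟶ Z} (h : Conf B δ i p) (h0 : δ ≠ 0) :
    ¬ ∃ s, s ≫ p = 𝟙 Z := fun e => h0 (by rw [← B.pull_id Z X δ]; exact (h.lift _).2 e)

theorem no_retr {Z X W : C} {δ : B.E Z X} {i : X ⟶ W} {p : W ⟶ Z} (h : Conf B δ i p)
    (h0 : δ ≠ 0) : ¬ ∃ r, i ≫ r = 𝟙 X :=
  fun e => h0 (by rw [← B.push_id Z X δ]; exact (h.desc _).2 e)

theorem rr_of_ll (K : Knit B I c dv) {Z X : C} (hZ : I Z) (hX : I X) {δ : B.E Z X} (h0 : δ ≠ 0)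
    (h : LL I δ) : RR I δ := by
  intro M hM f hf
  by_contra h1
  obtain ⟨W, i, p, hc, ⟨d⟩⟩ := K.conf M X hM hX (B.pull X f δ)
  obtain ⟨e, he⟩ := hc.exr δ (h.dcp d (no_retr hc h1))
  rw [← B.pull_comp] at he
  have := pull_fix (K.loc Z hZ) h0 he.symm
  exact hf (iso_of_sec (K.loc M hM) (K.loc Z hZ).1 f (inv (e ≫ f) ≫ e) (by simp))

theorem ll_of_rr (K : Knit B I c dv) {Z X : C} (hZ : I Z) (hX : I X) {δ : B.E Z X} (h0 : δ ≠ 0)
    (h : RR I δ) : LL I δ := by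
  intro Y hY g hg
  by_contra h1
  obtain ⟨W, i, p, hc, ⟨d⟩⟩ := K.conf Z Y hZ hY (B.push Z g δ)
  obtain ⟨e, he⟩ := hc.exl δ (h.dcp d (no_sec hc h1))
  rw [← B.push_comp] at he
  have := push_fix (K.loc X hX) h0 he.symm
  exact hg (iso_of_retr (K.loc X hX).1 (K.loc Y hY) g (e ≫ inv (g ≫ e)) (by
    rw [← Category.assoc, IsIso.hom_inv_id]))

theorem f1 (K : Knit B I c dv) {Z X : C} (hZ : I Z) (hX : I X) {δ : B.E Z X} (h0 : δ ≠ 0) :
    Lt I X Z := by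
  classical
  obtain ⟨W, i, p, hc, ⟨d⟩⟩ := K.conf Z X hZ hX δ
  by_cases h : ∃ s, i ≫ d.prj s ≠ 0 ∧ d.inc s ≫ p ≠ 0
  · obtain ⟨s, h1, h2⟩ := h
    exact .tail (.single ⟨hX, d.mem s, _, h1, niR d (no_retr hc h0) s⟩)
      ⟨d.mem s, hZ, _, h2, niL d (no_sec hc h0) s⟩
  · exfalso
    set e : W ⟶ W := ∑ s, if d.inc s ≫ p = 0 then d.prj s ≫ d.inc s else 0 with he
    have h1 : e ≫ p = 0 := by
      rw [he, Preadditive.sum_comp]
      refine Finset.sum_eq_zero fun s _ => ?_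
      split_ifs with z
      · rw [Category.assoc, z]; simp
      · simp
    have h2 : i ≫ e = i := by
      conv_rhs => rw [← sumR d i]
      rw [he, Preadditive.comp_sum]
      refine Finset.sum_congr rfl fun s _ => ?_
      split_ifs with z
      · simp
      · have : i ≫ d.prj s = 0 := by
          by_contra y
          exact h ⟨s, y, z⟩
        rw [this]; simp
    obtain ⟨t, ht⟩ := hc.ker e h1
    refine no_retr hc h0 ⟨t, sub_eq_zero.1 (hc.mono _ ?_)⟩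
    rw [Preadditive.sub_comp, Category.assoc, ht, h2]; simp

theorem f2 (K : Knit B I c dv) {X : C} (hX : Good I X) (δ : B.E X X) : δ = 0 := by
  by_contra h
  exact not_lt hX (f1 K hX.1 hX.1 h)

theorem f2' {X : C} (hX : Good I X) {f : X ⟶ X} (hf : f ≠ 0) : IsIso f := by
  by_contra h
  exact not_lt hX (.single ⟨hX.1, hX.1, f, hf, h⟩)

theorem f3a (K : Knit B I c dv) {X Y : C} (hX : Good I X) (h : dv X = dv Y) :
    ∃ f : X ⟶ Y, f ≠ 0 := by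
  have h1 := K.same X Y h
  have : Subsingleton (B.E X X) := ⟨fun a b => by rw [f2 K hX a, f2 K hX b]⟩
  have := K.finH X X
  have := K.finH X Y
  have : Nontrivial (X ⟶ X) := ⟨_, _, (K.loc X hX.1).1⟩
  have h2 : 0 < finrank k (X ⟶ X) := finrank_pos
  rw [finrank_zero_of_subsingleton (M := B.E X X)] at h1
  have : Nontrivial (X ⟶ Y) := finrank_pos_iff.1 (show 0 < finrank k (X ⟶ Y) by omega)
  exact exists_ne 0

theorem f3 (K : Knit B I c dv) {X Y : C} (hX : Good I X) (hY : Good I Y) (h : dv X = dv Y) :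
    ∃ f : X ⟶ Y, IsIso f := by
  obtain ⟨f, hf⟩ := f3a K hX h
  obtain ⟨g, hg⟩ := f3a K hY h.symm
  by_cases a : IsIso f
  · exact ⟨f, a⟩
  by_cases b : IsIso g
  · exact ⟨inv g, inferInstance⟩
  exact (not_lt hX (.tail (.single ⟨hX.1, hY.1, f, hf, a⟩) ⟨hY.1, hX.1, g, hg, b⟩)).elim

theorem mx (K : Knit B I c dv) (A : Set C) (hne : A.Nonempty)
    (hA : ∀ X ∈ A, Good I X ∧ finrank k (X ⟶ X) ≤ c) : ∃ X ∈ A, ∀ Y ∈ A, ¬ Lt I X Y := by
  let T : C → Set D := fun X => {d | ∃ Y ∈ A, Lt I X Y ∧ dv Y = d}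
  have hT : ∀ X, (T X).Finite := fun X => K.fin.subset (by
    rintro _ ⟨Y, hY, -, rfl⟩
    exact ⟨Y, rfl, (hA Y hY).2.trans (Nat.le_add_right _ _)⟩)
  obtain ⟨X, hX, hm⟩ := (InvImage.wf (fun X => (T X).ncard) Nat.lt_wfRel.wf).has_min A hne
  refine ⟨X, hX, fun Y hY h => hm Y hY (Set.ncard_lt_ncard ⟨?_, fun hs => ?_⟩ (hT X))⟩
  · rintro _ ⟨Y', hY', h', rfl⟩
    exact ⟨Y', hY', h.trans h', rfl⟩
  · obtain ⟨Y', hY', h', e⟩ := hs ⟨Y, hY, h, rfl⟩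
    obtain ⟨f, hf⟩ := f3 K (hA Y' hY').1 (hA Y hY).1 e
    exact not_lt (hA Y hY).1 (lt_iso h' (hA Y hY).1.1 hf)

theorem k3 (K : Knit B I c dv) {M₀ X : C} (hM : I M₀) (hX : I X) {δ₀ : B.E M₀ X} (h0 : δ₀ ≠ 0) :
    ∃ Z, I Z ∧ ∃ δ : B.E Z X, δ ≠ 0 ∧ RR I δ := by
  classical
  obtain ⟨Z₀, ⟨d⟩, hg⟩ := K.gen X hX
  have := K.finE Z₀ X
  let R : ∀ {Z : C}, B.E Z X → Submodule k (B.E Z₀ X) := fun {Z} δ =>
    LinearMap.range ((B.pull (M := Z₀) (Z := Z) X).flip δ)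
  have hR : ∀ {M Z : C} (f : M ⟶ Z) (δ : B.E Z X), R (B.pull X f δ) ≤ R δ := by
    rintro M Z f δ _ ⟨u, rfl⟩
    exact ⟨u ≫ f, B.pull_comp X u f δ⟩
  have hex : ∃ n, ∃ Z, I Z ∧ ∃ δ : B.E Z X, δ ≠ 0 ∧ finrank k (R δ) = n :=
    ⟨_, M₀, hM, δ₀, h0, rfl⟩
  obtain ⟨Z, hZ, δ, hδ, hn⟩ := Nat.find_spec hex
  have hmin : ∀ {M : C}, I M → ∀ η : B.E M X, η ≠ 0 → finrank k (R δ) ≤ finrank k (R η) :=
    fun {M} hM η hη => hn ▸ Nat.find_min' hex ⟨M, hM, η, hη, rfl⟩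
  obtain ⟨u, hu⟩ := hg Z hZ δ hδ
  obtain ⟨s, hs⟩ : ∃ s, B.pull X (d.inc s ≫ u) δ ≠ 0 := by
    by_contra h
    exact hu (pull_dcp d u δ fun s => by_contra fun e => h ⟨s, e⟩)
  refine ⟨d.Y s, d.mem s, _, hs, fun M hM f hf => ?_⟩
  by_contra h1
  have e := Submodule.eq_of_le_of_finrank_le (hR f (B.pull X (d.inc s ≫ u) δ))
    ((Submodule.finrank_mono (hR _ δ)).trans (hmin hM _ h1))
  have hm : B.pull X (d.prj s) (B.pull X (d.inc s ≫ u) δ) ∈ R (B.pull X (d.inc s ≫ u) δ) :=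
    ⟨d.prj s, rfl⟩
  rw [← e] at hm
  obtain ⟨v, hv⟩ := hm
  have h2 : B.pull X ((d.inc s ≫ v) ≫ f) (B.pull X (d.inc s ≫ u) δ) =
      B.pull X (d.inc s ≫ u) δ := by
    rw [Category.assoc, B.pull_comp, B.pull_comp X v f]
    erw [hv]
    rw [← B.pull_comp X (d.inc s) (d.prj s), d.self, B.pull_id]
  have := pull_fix (K.loc _ (d.mem s)) hs h2
  exact hf (iso_of_sec (K.loc M hM) (K.loc _ (d.mem s)).1 f
    (inv ((d.inc s ≫ v) ≫ f) ≫ d.inc s ≫ v) (by rw [Category.assoc, IsIso.inv_hom_id]))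

theorem f4 (K : Knit B I c dv) {Z : C} (hZ : Good I Z) : finrank k (Z ⟶ Z) ≤ c := by
  have hacc := hZ.2.transGen
  induction hacc with
  | intro Z _ ih =>
  by_cases h : ∀ X, Good I X → ∀ δ : B.E Z X, δ = 0
  · exact (K.proj Z hZ.1 h).2
  push Not at h
  obtain ⟨X₀, hX₀, δ₀, h₀⟩ := h
  obtain ⟨X, ⟨hX, δ, hδ⟩, hm⟩ := mx K {X | I X ∧ ∃ δ : B.E Z X, δ ≠ 0} ⟨X₀, hX₀.1, δ₀, h₀⟩ (by
    rintro X ⟨hX, δ, hδ⟩
    have h1 := f1 K hZ.1 hX hδ
    exact ⟨good_of_lt h1 hZ, ih X h1 (good_of_lt h1 hZ)⟩)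
  have h1 := f1 K hZ.1 hX hδ
  have hR : ∀ η : B.E Z X, η ≠ 0 → RR I η := fun η hη => rr_of_ll K hZ.1 hX hη fun Y hY g hg => by
    by_contra e
    exact hm Y ⟨hY, _, e⟩ (.single ⟨hX, hY, g, fun z => e (by rw [z]; simp), hg⟩)
  have := K.finE Z X
  have := K.finH X X
  have a1 : finrank k (Z ⟶ Z) ≤ finrank k (B.E Z X) :=
    LinearMap.finrank_le_finrank_of_injective (f := (B.pull (M := Z) (Z := Z) X).flip δ)
      ((injective_iff_map_eq_zero _).2 fun f hf => by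
        by_contra e
        exact hδ (pull_zero (f2' hZ e) hf))
  have a2 : finrank k (B.E Z X) ≤ finrank k (X ⟶ X) :=
    LinearMap.finrank_le_finrank_of_surjective (f := (B.push (X := X) (Y := X) Z).flip δ)
      fun η => by
        obtain ⟨W, i, p, hc, ⟨d⟩⟩ := K.conf Z X hZ.1 hX δ
        obtain ⟨a, ha⟩ := hc.exl η (by
          by_cases e : η = 0
          · rw [e, map_zero]
          · exact (hR η e).dcp d (no_sec hc hδ))
        exact ⟨a, ha.symm⟩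
  exact a1.trans (a2.trans (ih X h1 (good_of_lt h1 hZ)))

theorem irr (K : Knit B I c dv) {Z X W T : C} (hZ : I Z) {δ : B.E Z X} (h0 : δ ≠ 0) (hL : LL I δ)
    {i : X ⟶ W} {p : W ⟶ Z} (hc : Conf B δ i p) (d : Dcp I W) (s : Fin d.n) (d' : Dcp I T)
    (h₁ : X ⟶ T) (h₂ : T ⟶ d.Y s) (h : h₁ ≫ h₂ = i ≫ d.prj s) (hs : ¬ ∃ t, t ≫ h₂ = 𝟙 _) :
    ∃ r, h₁ ≫ r = 𝟙 X := by
  by_contra hr
  obtain ⟨t, ht⟩ := (hc.desc h₁).1 (hL.dcp d' hr)
  obtain ⟨r, hr'⟩ := hc.coker (d.prj s - t ≫ h₂) (by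
    rw [Preadditive.comp_sub, ← Category.assoc, ht, h, sub_self])
  have hl := K.loc _ (d.mem s)
  rcases hl.2 ((d.inc s ≫ p) ≫ r) with a | a
  · exact niL d (no_sec hc h0) s (iso_of_retr hl.1 (K.loc Z hZ) _
      (r ≫ inv ((d.inc s ≫ p) ≫ r)) (by rw [← Category.assoc, IsIso.hom_inv_id]))
  · have e : 𝟙 _ - (d.inc s ≫ p) ≫ r = (d.inc s ≫ t) ≫ h₂ := by
      rw [Category.assoc, hr', Preadditive.comp_sub, d.self]; simp
    rw [e] at a
    exact hs ⟨inv ((d.inc s ≫ t) ≫ h₂) ≫ d.inc s ≫ t, by rw [Category.assoc, IsIso.inv_hom_id]⟩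

theorem stepA (K : Knit B I c dv) {X : C} (hX : Good I X) :
    ∀ Z, I Z → ∀ δ : B.E Z X, δ ≠ 0 → LL I δ → Good I Z := by
  have hacc := hX.2
  induction hacc with
  | intro X _ ih =>
  intro Z hZ δ h0 hL
  have hR := rr_of_ll K hZ hX.1 h0 hL
  obtain ⟨W, i, p, hc, ⟨d⟩⟩ := K.conf Z X hZ hX.1 δ
  suffices hs : ∀ s, Good I (d.Y s) by
    refine ⟨hZ, ⟨_, ?_⟩⟩
    rintro M ⟨hM, -, f, hf0, hf⟩
    obtain ⟨f', rfl⟩ := (hc.lift f).1 (hR M hM f hf)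
    obtain ⟨s, h1⟩ : ∃ s, f' ≫ d.prj s ≠ 0 := by
      by_contra h
      push Not at h
      refine hf0 ?_
      rw [← sumR d f', Finset.sum_eq_zero fun s _ => by rw [h s]; simp]
      simp
    exact (good_of_ne hM (hs s) h1).2
  intro s
  by_contra hW
  have key : ∀ X', I X' → ∀ n : B.E (d.Y s) X', n ≠ 0 → B.pull X' (i ≫ d.prj s) n = 0 →
      Rel I X' X := fun X' hX' n hn h => by
    obtain ⟨W', i', p', hc', ⟨d'⟩⟩ := K.conf _ X' (d.mem s) hX' n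
    obtain ⟨h', e⟩ := (hc'.lift _).1 h
    obtain ⟨r, hr⟩ := irr K hZ h0 hL hc d s d' h' p' e (no_sec hc' hn)
    refine ⟨hX', hX.1, i' ≫ r, fun z => ?_, fun z => no_retr hc' hn
      ⟨r ≫ inv (i' ≫ r), by rw [← Category.assoc, IsIso.hom_inv_id]⟩⟩
    obtain ⟨g, hg⟩ := hc'.coker r z
    refine hW (good_of_ne (d.mem s) hX (f := g) fun z' => (K.loc X hX.1).1 ?_)
    rw [← hr, ← hg, z']; simp
  have hgood : ∀ X', I X' → ∀ n : B.E (d.Y s) X', n ≠ 0 → Good I X' := fun X' hX' n hn => by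
    by_cases h : B.pull X' (i ≫ d.prj s) n = 0
    · exact good_of_lt (.single (key X' hX' n hn h)) hX
    · exact good_of_lt (f1 K hX.1 hX' h) hX
  have hne : ∃ X', Good I X' ∧ ∃ n : B.E (d.Y s) X', n ≠ 0 := by
    by_contra h
    push Not at h
    exact hW (K.proj _ (d.mem s) h).1
  obtain ⟨X', ⟨hX', n, hn⟩, hm⟩ := mx K {X' | Good I X' ∧ ∃ n : B.E (d.Y s) X', n ≠ 0} hne
    fun X' h => ⟨h.1, f4 K h.1⟩
  have hL' : LL I n := fun Y hY g hg => by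
    by_contra e
    exact hm Y ⟨hgood Y hY _ e, _, e⟩
      (.single ⟨hX'.1, hY, g, fun z => e (by rw [z]; simp), hg⟩)
  have h1 := rr_of_ll K (d.mem s) hX'.1 hn hL' X hX.1 _ (niR d (no_retr hc h0) s)
  exact hW (ih X' (key X' hX'.1 n hn h1) hX' _ (d.mem s) n hn hL')

theorem stepB (K : Knit B I c dv) {N : C} (hN : I N) : Good I N := by
  by_contra hn
  have hne : ∃ X, Good I X ∧ ∃ N', I N' ∧ ¬ Good I N' ∧ ∃ η : B.E N' X, η ≠ 0 := by
    by_contra h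
    exact hn (K.proj N hN fun X hX δ => by_contra fun e => h ⟨X, hX, N, hN, hn, δ, e⟩).1
  obtain ⟨X, ⟨hX, N', hN', hn', η, hη⟩, hm⟩ := mx K
    {X | Good I X ∧ ∃ N', I N' ∧ ¬ Good I N' ∧ ∃ η : B.E N' X, η ≠ 0} hne
    fun X h => ⟨h.1, f4 K h.1⟩
  obtain ⟨Z, hZ, δ, h0, hR⟩ := k3 K hN' hX.1 hη
  have hL := ll_of_rr K hZ hX.1 h0 hR
  have hZ' := stepA K hX Z hZ δ h0 hL
  obtain ⟨W, i, p, hc, ⟨d⟩⟩ := K.conf Z X hZ hX.1 δ
  have h1 : B.push N' i η = 0 := push_dcp d i η fun s => by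
    by_contra e
    have hp : d.inc s ≫ p ≠ 0 := fun z => by
      obtain ⟨t, ht⟩ := hc.ker _ z
      exact niR d (no_retr hc h0) s (iso_of_sec (K.loc X hX.1) (K.loc _ (d.mem s)).1 _ t (by
        rw [← Category.assoc, ht, d.self]))
    exact hm _ ⟨good_of_ne (d.mem s) hZ' hp, N', hN', hn', _, e⟩ (.single ⟨hX.1, d.mem s, _,
      fun z => e (by rw [z]; simp), niR d (no_retr hc h0) s⟩)
  refine hn' (stepA K hX N' hN' η hη fun Y hY g hg => ?_)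
  obtain ⟨t, rfl⟩ := (hc.desc g).1 (hL Y hY g hg)
  rw [B.push_comp, h1, map_zero]

end KAbsA

theorem kabs : KAbs := fun _ _ _ _ _ _ _ _ _ _ _ K _ hX =>
  ⟨KAbsA.stepB K hX, KAbsA.f4 K (KAbsA.stepB K hX), KAbsA.f2 K (KAbsA.stepB K hX)⟩

end Pool.Agent.MP_bd94e8_al.H6K
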