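import Pool.Agent.MP_bd94e8_al.H6K.KSpec

/-!
From triples to objects.
-/

set_option autoImplicit false
set_option linter.unusedSectionVars false

namespace Pool.Agent.MP_bd94e8_al.H6K

open CategoryTheory Module Pool.Agent.MP_bd94e8_al.H89

namespace KBrA

variable {k F : Type} [Field k] [Field F] [Algebra k F] [FiniteDimensional k F] {Pt ι Ω : Type}
  [Fintype Pt] [DecidableEq Pt] [Fintype Ω] {J : Prob k F Pt ι Ω}

/-- The subgroup of an object as a module over the algebra. -/
def sub {V : Type} [AddCommGroup V] [Module F V] (M : Obj J V) : Submodule J.B (Lm J V) where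
  carrier := {u | (u : Pt → V) ∈ M.U}
  add_mem' := fun ha hb => M.U.add_mem ha hb
  zero_mem' := M.U.zero_mem
  smul_mem' := fun b _ hu => M.stab b.1 b.2 _ hu

theorem exists_tri {V : Type} [AddCommGroup V] [Module F V] [FiniteDimensional F V]
    (M : Obj J V) : ∃ (T : Tri J) (i : T.V ≃ₗ[F] V), (∀ o v, i (T.ε o v) = M.ε o (i v)) ∧
      ∀ u, u ∈ M.U ↔ ∃ x, u = fun p => i (T.φ x p) := by
  let _ : Module k V := Module.compHom V (algebraMap k F)
  have : IsScalarTower k F V := ⟨fun c a v => by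
    rw [Algebra.smul_def, mul_smul]
    rfl⟩
  have : Module.Finite k V := Module.Finite.trans F V
  have : Module.Finite k (Lm J V) := inferInstanceAs (Module.Finite k (Pt → V))
  have : Module.Finite k (sub M) :=
    inferInstanceAs (Module.Finite k ((sub M).restrictScalars k))
  have : Module.Finite J.B (sub M) := Module.Finite.of_restrictScalars_finite k J.B (sub M)
  have : Module.Finite k (Matrix Pt Pt F) := Module.Finite.trans F _
  have : Module.Finite k J.B := inferInstanceAs (Module.Finite k (Subalgebra.toSubmodule J.B))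
  obtain ⟨n, f, hf⟩ := Module.Finite.exists_fin' J.B (sub M)
  refine ⟨{ X := Fin n → J.B, V := V, ε := M.ε, orth := M.orth, sum := M.sum
            φ := (sub M).subtype ∘ₗ f, peak := fun x p => M.peak _ (f x).2 p },
    LinearEquiv.refl F V, fun _ _ => rfl, fun u => ⟨fun hu => ?_, ?_⟩⟩
  · obtain ⟨x, hx⟩ := hf ⟨u, hu⟩
    exact ⟨x, (congrArg Subtype.val hx).symm⟩
  · rintro ⟨x, rfl⟩
    exact (f x).2

theorem exists_loc (hD : KDec) {V : Type} [AddCommGroup V] [Module F V] [FiniteDimensional F V]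
    (M : Obj J V) (hM : M.Indec) : ∃ (N : Tri J) (i : N.V ≃ₗ[F] V), Loc N ∧
      (∀ o v, i (N.ε o v) = M.ε o (i v)) ∧ ∀ u, u ∈ M.U ↔ ∃ x, u = fun p => i (N.φ x p) := by
  obtain ⟨T, i, h1, h2⟩ := exists_tri M
  obtain ⟨D⟩ := (hD k F Pt ι Ω J).2.2 Set.univ T fun j hj => (hj trivial).elim
  have ip : ∀ s v, Tri.hv (D.prj s) (Tri.hv (D.inc s) v) = v := fun s v =>
    LinearMap.congr_fun (congrArg Tri.hv (D.self s)) v
  obtain ⟨s, hs⟩ : ∃ s, ∀ v, Tri.hv (D.inc s) (Tri.hv (D.prj s) v) = v := by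
    by_contra hn
    have z : ∀ s, Tri.hv (D.prj s ≫ D.inc s) = 0 := by
      intro s
      have := hM.2 (i.toLinearMap ∘ₗ Tri.hv (D.prj s ≫ D.inc s) ∘ₗ i.symm.toLinearMap)
        ⟨fun o => LinearMap.ext fun v => ?_, fun u hu => ?_⟩ (LinearMap.ext fun v => ?_)
      · rcases this with e | e
        · refine LinearMap.ext fun v => i.injective ?_
          simpa using LinearMap.congr_fun e (i v)
        · refine (hn ⟨s, fun v => i.injective ?_⟩).elim
          simpa using LinearMap.congr_fun e (i v)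
      · obtain ⟨w, rfl⟩ := i.surjective v
        simp only [LinearMap.comp_apply, LinearEquiv.coe_coe, ← h1, LinearEquiv.symm_apply_apply]
        rw [Tri.hv_cmp]
      · obtain ⟨x, rfl⟩ := (h2 u).1 hu
        refine (h2 _).2 ⟨Tri.hx (D.prj s ≫ D.inc s) x, funext fun p => ?_⟩
        simp only [LinearMap.comp_apply, LinearEquiv.coe_coe, LinearEquiv.symm_apply_apply]
        rw [Tri.hφ]
      · simp [ip]
    have e := congrArg Tri.hv D.sum
    rw [Tri.hv_sum, Finset.sum_eq_zero fun s _ => z s, Tri.hv_id] at e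
    have := hM.1
    obtain ⟨x, hx⟩ := exists_ne (0 : V)
    apply hx
    have e1 : i.symm x = 0 := (LinearMap.congr_fun e (i.symm x)).symm
    simpa using e1
  let j : (D.Y s).V ≃ₗ[F] T.V := LinearEquiv.ofLinearMap (Tri.hv (D.inc s)) (Tri.hv (D.prj s))
    (LinearMap.ext hs) (LinearMap.ext (ip s))
  have hj : ∀ v, j v = Tri.hv (D.inc s) v := fun _ => rfl
  refine ⟨D.Y s, j.trans i, (D.mem s).2, fun o v => ?_, fun u => (h2 u).trans ⟨?_, ?_⟩⟩
  · rw [LinearEquiv.trans_apply, LinearEquiv.trans_apply, hj, hj, Tri.hv_cmp, h1]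
  · rintro ⟨x, rfl⟩
    refine ⟨Tri.hx (D.prj s) x, funext fun p => ?_⟩
    rw [LinearEquiv.trans_apply, hj, Tri.hφ, hs]
  · rintro ⟨x, rfl⟩
    refine ⟨Tri.hx (D.inc s) x, funext fun p => ?_⟩
    rw [LinearEquiv.trans_apply, hj, Tri.hφ]

theorem finrank_le (N : Tri J) : finrank F N.V ≤ ∑ o, dimv N o := by
  let f : N.V →ₗ[F] ∀ o, LinearMap.range (N.ε o) := LinearMap.pi fun o => (N.ε o).rangeRestrict
  have hf : Function.Injective f := by
    refine (injective_iff_map_eq_zero f).2 fun v hv => ?_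
    have h1 : ∀ o, N.ε o v = 0 := fun o => congrArg Subtype.val (congrFun hv o)
    have h2 := LinearMap.congr_fun N.sum v
    rw [LinearMap.sum_apply, Finset.sum_eq_zero fun o _ => h1 o] at h2
    exact h2.symm
  have := LinearMap.finrank_le_finrank_of_injective hf
  rwa [finrank_pi_fintype] at this

/-- Scalars as endomorphisms of a triple. -/
noncomputable def scal (sc : ∀ (a : F), ∀ b ∈ J.B, a • b ∈ J.B) (N : Tri J) :
    F →ₗ[k] (N ⟶ N) where
  toFun a := Tri.mkHom
    { toFun := fun x => (⟨a • 1, sc a 1 (one_mem _)⟩ : J.B) • x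
      map_add' := fun x y => smul_add _ x y
      map_smul' := fun b x => by
        rw [RingHom.id_apply, smul_smul, smul_smul]
        congr 1
        exact Subtype.ext (by simp) }
    (a • LinearMap.id) (fun o v => by simp) fun x p => by
      simp [Lm.smul_apply, Matrix.one_apply]
  map_add' a b := Tri.hom_ext (fun x => by
      change (_ : J.B) • x = (_ : J.B) • x + (_ : J.B) • x
      rw [← add_smul]
      congr 1
      exact Subtype.ext (add_smul _ _ _)) fun v => by simp [add_smul]
  map_smul' c a := Tri.hom_ext (fun x => by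
      change (_ : J.B) • x = c • ((_ : J.B) • x)
      rw [← smul_assoc]
      congr 1
      exact Subtype.ext (smul_assoc _ _ _)) fun v => by simp

theorem hv_scal (sc : ∀ (a : F), ∀ b ∈ J.B, a • b ∈ J.B) (N : Tri J) (a : F) (v : N.V) :
    Tri.hv (scal sc N a) v = a • v := rfl

theorem exists_lift (N : Tri J) (g : N.V →ₗ[F] N.V) (hg : Tri.Cmp N N g)
    (h : ∀ x, ∃ y, ∀ p, N.φ y p = g (N.φ x p)) : ∃ f : N ⟶ N, Tri.hv f = g := by
  obtain ⟨l, hl⟩ := Module.projective_lifting_property N.φ.rangeRestrict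
    ((Lm.map J g ∘ₗ N.φ).codRestrict (LinearMap.range N.φ) fun x => by
      obtain ⟨y, hy⟩ := h x
      exact ⟨y, Lm.ext hy⟩) N.φ.surjective_rangeRestrict
  exact ⟨Tri.mkHom l g hg fun x p =>
    congrFun (congrArg Subtype.val (LinearMap.congr_fun hl x)) p, rfl⟩

end KBrA

open KBrA in
theorem kbr (hD : KDec) : KBr := by
  intro k F _ _ _ _ Pt ι Ω _ _ _ _ J c h
  refine ⟨fun hf => ?_, fun hc sc V _ _ _ M hM => ?_⟩
  · obtain ⟨b, hb⟩ := (hf.image fun x => ∑ o, x.2 o).bddAbove
    refine ⟨b, fun V _ _ _ M hM => ?_⟩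
    obtain ⟨N, i, hN, -, -⟩ := exists_loc hD M hM
    obtain ⟨h1, d, -, h2⟩ := h N hN
    rw [← i.finrank_eq]
    refine (finrank_le N).trans (hb ⟨(d, dimv N), ?_, rfl⟩)
    change qp J d (dimv N) ≤ c + qm J d (dimv N)
    omega
  obtain ⟨N, i, hN, e1, e2⟩ := exists_loc hD M hM
  obtain ⟨h1, d, hd, h2⟩ := h N hN
  have := (hD k F Pt ι Ω J).1 N N
  have := hM.1
  have inj : Function.Injective (scal sc N) := by
    refine (injective_iff_map_eq_zero _).2 fun a ha => ?_
    obtain ⟨x, hx⟩ := exists_ne (0 : V)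
    have h3 := hv_scal sc N a (i.symm x)
    rw [ha] at h3
    exact (smul_eq_zero.1 h3.symm).resolve_right (by simpa using hx)
  have fr : finrank k F = finrank k (N ⟶ N) :=
    le_antisymm (LinearMap.finrank_le_finrank_of_injective inj) (hc ▸ h1)
  have sur := (LinearMap.injective_iff_surjective_of_finrank_eq_finrank fr).1 inj
  refine ⟨fun g hg => ?_, d, fun u hu => ?_, ?_⟩
  · obtain ⟨f, hf⟩ := exists_lift N (i.symm.toLinearMap ∘ₗ g ∘ₗ i.toLinearMap)
      (fun o v => i.injective (by
        simp only [LinearMap.comp_apply, LinearEquiv.coe_coe, LinearEquiv.apply_symm_apply, e1]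
        exact LinearMap.congr_fun (hg.1 o) (i v))) fun x => by
        obtain ⟨y, hy⟩ := (e2 _).1 (hg.2 _ ((e2 _).2 ⟨x, rfl⟩))
        refine ⟨y, fun p => i.injective ?_⟩
        simp only [LinearMap.comp_apply, LinearEquiv.coe_coe, LinearEquiv.apply_symm_apply]
        exact (congrFun hy p).symm
    obtain ⟨a, rfl⟩ := sur f
    refine ⟨a, LinearMap.ext fun v => ?_⟩
    have h3 := congrArg i (LinearMap.congr_fun hf (i.symm v))
    rw [hv_scal] at h3
    simpa using h3.symm
  · obtain ⟨x, rfl⟩ := (e2 u).1 hu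
    let Φ : N.X →ₗ[J.B] Lm J V := Lm.map J i.toLinearMap ∘ₗ N.φ
    have key : ∀ b : J.B, (Φ (b • x) : Pt → V) ∈ AddSubgroup.closure
        {w | ∃ b ∈ J.B, ∃ j ∈ {i | d i ≠ 0}, ∃ u' ∈ M.U, w = act (b * J.e j) u'} := by
      have hx := hd.gen x
      clear hu
      induction hx using Submodule.span_induction with
      | mem y hy =>
        intro b
        obtain ⟨j, hj, e⟩ := hy
        refine AddSubgroup.subset_closure ⟨b.1, b.2, j, hj, Φ y, (e2 _).2 ⟨y, rfl⟩, ?_⟩
        conv_lhs => rw [← e, smul_smul, map_smul]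
        rfl
      | zero =>
        intro b
        rw [smul_zero, map_zero]
        exact zero_mem _
      | add y z _ _ hy hz =>
        intro b
        rw [smul_add, map_add]
        exact add_mem (hy b) (hz b)
      | smul a y _ hy =>
        intro b
        rw [smul_smul]
        exact hy _
    have := key 1
    rw [one_smul] at this
    exact this
  · have dv : (fun o => finrank F (LinearMap.range (M.ε o))) = dimv N := funext fun o => by
      have e3 : LinearMap.range (M.ε o) = (LinearMap.range (N.ε o)).map i.toLinearMap := by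
        ext v
        constructor
        · rintro ⟨w, rfl⟩
          exact ⟨_, ⟨i.symm w, rfl⟩, by simp [e1]⟩
        · rintro ⟨_, ⟨w, rfl⟩, rfl⟩
          exact ⟨i w, (e1 o w).symm⟩
      rw [dimv, e3, i.finrank_map_eq]
    rw [dv]
    rw [← fr] at h2
    exact h2

end Pool.Agent.MP_bd94e8_al.H6K
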