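import Pool.Agent.MP_bd94e8_al.H6K.KSpec

/-!
Finiteness and decompositions of triples.
-/

set_option autoImplicit false
set_option linter.unusedSectionVars false
set_option linter.unusedVariables false

namespace Pool.Agent.MP_bd94e8_al.H6K

open CategoryTheory Module Pool.Agent.MP_bd94e8_al.H89

namespace KDecA

theorem unit_or {k A : Type} [Field k] [Ring A] [Algebra k A] [Module.Finite k A]
    (h : ∀ e : A, e * e = e → e = 0 ∨ e = 1) (a : A) : IsUnit a ∨ IsUnit (1 - a) := by
  obtain ⟨n, hc, hn⟩ := ((LinearMap.eventually_isCompl_ker_pow_range_pow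
    (LinearMap.mulLeft k a)).and (Filter.eventually_ge_atTop 1)).exists
  rw [LinearMap.pow_mulLeft] at hc
  obtain ⟨u, hu, v, ⟨w, hw⟩, e1⟩ := Submodule.mem_sup.1
    (hc.sup_eq_top.symm ▸ Submodule.mem_top (x := (1 : A)))
  have hu' : a ^ n * u = 0 := hu
  have hw' : a ^ n * w = v := hw
  have e2 : u * v = v - v * v := by rw [eq_sub_iff_add_eq, ← add_mul, e1, one_mul]
  have e3 : u * v = 0 := (Submodule.disjoint_def.1 hc.disjoint) _
    (show a ^ n * (u * v) = 0 by rw [← mul_assoc, hu', zero_mul])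
    ⟨w - w * v, show a ^ n * (w - w * v) = u * v by rw [mul_sub, ← mul_assoc, hw', e2]⟩
  rcases h v (by rw [e3] at e2; exact (sub_eq_zero.1 e2.symm).symm) with h0 | h0
  · rw [h0, add_zero] at e1
    rw [e1, mul_one] at hu'
    exact Or.inr (IsNilpotent.isUnit_one_sub ⟨n, hu'⟩)
  · left
    obtain ⟨m, rfl⟩ : ∃ m, n = m + 1 := ⟨n - 1, by omega⟩
    have e4 : a * (a ^ m * w) = 1 := by rw [← mul_assoc, ← pow_succ', hw', h0]
    have hs : Function.Surjective (LinearMap.mulLeft k a) := fun y =>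
      ⟨a ^ m * w * y, show a * (a ^ m * w * y) = y by rw [← mul_assoc, e4, one_mul]⟩
    have hi := LinearMap.injective_iff_surjective.2 hs
    have e5 : a ^ m * w * a = 1 := hi (show a * (a ^ m * w * a) = a * 1 by
      rw [← mul_assoc, e4, one_mul, mul_one])
    exact ⟨⟨a, a ^ m * w, e4, e5⟩, rfl⟩

section abs
variable {k : Type} [Field k] {C : Type 1} [Category.{0} C] [Preadditive C] [Linear k C]

theorem ofFin {I : C → Prop} {M : C} (σ : Type) [Fintype σ] (Y : σ → C) (inc : ∀ s, Y s ⟶ M)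
    (prj : ∀ s, M ⟶ Y s) (mem : ∀ s, I (Y s)) (self : ∀ s, inc s ≫ prj s = 𝟙 (Y s))
    (orth : ∀ s t, s ≠ t → inc s ≫ prj t = 0) (sum : ∑ s, prj s ≫ inc s = 𝟙 M) :
    Nonempty (Dcp I M) :=
  let e := (Fintype.equivFin σ).symm
  ⟨⟨Fintype.card σ, fun s => Y (e s), fun s => inc (e s), fun s => prj (e s), fun s => mem _,
    fun s => self _, fun s t h => orth _ _ (e.injective.ne h),
    (e.sum_comp fun s => prj s ≫ inc s).trans sum⟩⟩

theorem drop (hf : ∀ X Y : C, Module.Finite k (X ⟶ Y)) {M Y : C} (i : Y ⟶ M) (p : M ⟶ Y)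
    (h : i ≫ p = 𝟙 Y) (h1 : p ≫ i ≠ 𝟙 M) : finrank k (Y ⟶ Y) < finrank k (M ⟶ M) := by
  have := hf Y Y
  have := hf M M
  let L : (Y ⟶ Y) →ₗ[k] (M ⟶ M) := Linear.leftComp k M p ∘ₗ Linear.rightComp k Y i
  have hL : ∀ f, L f = p ≫ f ≫ i := fun f => rfl
  have hi : Function.Injective L := by
    rw [injective_iff_map_eq_zero]
    intro f hf0
    have : i ≫ (p ≫ f ≫ i) ≫ p = f := by
      simp only [Category.assoc, h, Category.comp_id]
      rw [← Category.assoc, h, Category.id_comp]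
    rw [← this, ← hL, hf0]; simp
  refine lt_of_le_of_ne (LinearMap.finrank_le_finrank_of_injective hi) fun he => h1 ?_
  obtain ⟨f, hf1⟩ := (LinearMap.injective_iff_surjective_of_finrank_eq_finrank he).1 hi (𝟙 M)
  rw [hL] at hf1
  calc p ≫ i = (p ≫ i) ≫ p ≫ f ≫ i := by rw [hf1, Category.comp_id]
    _ = p ≫ (i ≫ p) ≫ f ≫ i := by simp only [Category.assoc]
    _ = 𝟙 M := by rw [h, Category.id_comp, hf1]

theorem dec (hf : ∀ X Y : C, Module.Finite k (X ⟶ Y)) (P : C → Prop)
    (hs : ∀ M, P M → ∀ e : M ⟶ M, e ≫ e = e →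
      ∃ (Y : C) (i : Y ⟶ M) (p : M ⟶ Y), P Y ∧ i ≫ p = 𝟙 Y ∧ p ≫ i = e)
    (M : C) (hM : P M) : Nonempty (Dcp (fun X => P X ∧ Loc X) M) := by
  induction hn : finrank k (M ⟶ M) using Nat.strong_induction_on generalizing M with
  | _ n ih =>
    by_cases h0 : 𝟙 M = 0
    · exact ofFin Empty (fun s => s.elim) (fun s => s.elim) (fun s => s.elim) (fun s => s.elim)
        (fun s => s.elim) (fun s => s.elim) (by simp [h0])
    by_cases h1 : ∀ e : M ⟶ M, e ≫ e = e → e = 0 ∨ e = 𝟙 M
    · have : Module.Finite k (End M) := hf M M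
      have hl : Loc M := ⟨h0, fun f => by
        rcases unit_or (k := k) (A := End M) h1 f with h | h
        · exact Or.inl ((isUnit_iff_isIso _).1 h)
        · exact Or.inr ((isUnit_iff_isIso _).1 h)⟩
      exact ofFin Unit (fun _ => M) (fun _ => 𝟙 M) (fun _ => 𝟙 M) (fun _ => ⟨hM, hl⟩)
        (fun _ => Category.id_comp _) (fun s t h => absurd rfl h) (by simp)
    simp only [not_forall, not_or] at h1
    obtain ⟨e, he, e0, e1⟩ := h1
    obtain ⟨Y1, i1, p1, P1, a1, b1⟩ := hs M hM e he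
    obtain ⟨Y2, i2, p2, P2, a2, b2⟩ := hs M hM (𝟙 M - e) (by
      simp [Preadditive.sub_comp, Preadditive.comp_sub, he])
    obtain ⟨D1⟩ := ih _ (hn ▸ drop hf i1 p1 a1 (b1 ▸ e1)) Y1 P1 rfl
    obtain ⟨D2⟩ := ih _ (hn ▸ drop hf i2 p2 a2 (by rw [b2]; simpa using e0)) Y2 P2 rfl
    have c1 : i1 ≫ e = i1 := by rw [← b1, ← Category.assoc, a1, Category.id_comp]
    have c2 : e ≫ p1 = p1 := by rw [← b1, Category.assoc, a1, Category.comp_id]
    have c3 : i2 ≫ (𝟙 M - e) = i2 := by rw [← b2, ← Category.assoc, a2, Category.id_comp]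
    have c4 : (𝟙 M - e) ≫ p2 = p2 := by rw [← b2, Category.assoc, a2, Category.comp_id]
    have o1 : i1 ≫ p2 = 0 := by
      rw [← c4, ← Category.assoc, Preadditive.comp_sub, c1, Category.comp_id, sub_self,
        Limits.zero_comp]
    have o2 : i2 ≫ p1 = 0 := by
      rw [← c3, Category.assoc, Preadditive.sub_comp, c2, Category.id_comp, sub_self,
        Limits.comp_zero]
    refine ofFin (Fin D1.n ⊕ Fin D2.n) (Sum.elim D1.Y D2.Y)
      (fun s => match s with | .inl s => D1.inc s ≫ i1 | .inr s => D2.inc s ≫ i2)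
      (fun s => match s with | .inl s => p1 ≫ D1.prj s | .inr s => p2 ≫ D2.prj s) ?_ ?_ ?_ ?_
    · rintro (s | s)
      · exact D1.mem s
      · exact D2.mem s
    · rintro (s | s)
      · show (D1.inc s ≫ i1) ≫ p1 ≫ D1.prj s = 𝟙 (D1.Y s)
        rw [Category.assoc, ← Category.assoc i1, a1, Category.id_comp, D1.self]
      · show (D2.inc s ≫ i2) ≫ p2 ≫ D2.prj s = 𝟙 (D2.Y s)
        rw [Category.assoc, ← Category.assoc i2, a2, Category.id_comp, D2.self]
    · rintro (s | s) (t | t) h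
      · show (D1.inc s ≫ i1) ≫ p1 ≫ D1.prj t = 0
        rw [Category.assoc, ← Category.assoc i1, a1, Category.id_comp,
          D1.orth s t fun e => h (by rw [e])]
      · show (D1.inc s ≫ i1) ≫ p2 ≫ D2.prj t = 0
        rw [Category.assoc, ← Category.assoc i1, o1, Limits.zero_comp, Limits.comp_zero]
      · show (D2.inc s ≫ i2) ≫ p1 ≫ D1.prj t = 0
        rw [Category.assoc, ← Category.assoc i2, o2, Limits.zero_comp, Limits.comp_zero]
      · show (D2.inc s ≫ i2) ≫ p2 ≫ D2.prj t = 0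
        rw [Category.assoc, ← Category.assoc i2, a2, Category.id_comp,
          D2.orth s t fun e => h (by rw [e])]
    · rw [Fintype.sum_sum_type]
      have s1 : ∑ s, (p1 ≫ D1.prj s) ≫ D1.inc s ≫ i1 = e := by
        rw [← b1]
        conv_rhs => rw [← Category.id_comp i1, ← D1.sum]
        simp only [Preadditive.sum_comp, Preadditive.comp_sum, Category.assoc]
      have s2 : ∑ s, (p2 ≫ D2.prj s) ≫ D2.inc s ≫ i2 = 𝟙 M - e := by
        rw [← b2]
        conv_rhs => rw [← Category.id_comp i2, ← D2.sum]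
        simp only [Preadditive.sum_comp, Preadditive.comp_sum, Category.assoc]
      exact (congrArg₂ (· + ·) s1 s2).trans (add_sub_cancel _ _)

end abs

theorem finL (k R X Y : Type) [Field k] [Ring R] [Algebra k R] [AddCommGroup X] [Module k X]
    [Module R X] [IsScalarTower k R X] [AddCommGroup Y] [Module k Y] [Module R Y]
    [IsScalarTower k R Y] [Module.Finite k X] [Module.Finite k Y] :
    Module.Finite k (X →ₗ[R] Y) :=
  Module.Finite.of_injective (LinearMap.restrictScalarsₗ k R X Y k)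
    (LinearMap.restrictScalars_injective k)

section tri
variable {k F : Type} [Field k] [Field F] [Algebra k F] {Pt ι Ω : Type} [Fintype Pt]
  [DecidableEq Pt] [Fintype Ω] {J : Prob k F Pt ι Ω}

open Tri

theorem idx {M : Tri J} {e : M ⟶ M} (he : e ≫ e = e) (x : M.X) : hx e (hx e x) = hx e x :=
  LinearMap.congr_fun (congrArg hx he) x

theorem idv {M : Tri J} {e : M ⟶ M} (he : e ≫ e = e) (v : M.V) : hv e (hv e v) = hv e v :=
  LinearMap.congr_fun (congrArg hv he) v

theorem fixx {M : Tri J} {e : M ⟶ M} (he : e ≫ e = e) (x : LinearMap.range (hx e)) :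
    hx e x.1 = x.1 := by
  obtain ⟨_, y, rfl⟩ := x
  exact idx he y

theorem fixv {M : Tri J} {e : M ⟶ M} (he : e ≫ e = e) (x : LinearMap.range (hv e)) :
    hv e x.1 = x.1 := by
  obtain ⟨_, y, rfl⟩ := x
  exact idv he y

/-- The image of an idempotent. -/
noncomputable def img {M : Tri J} (e : M ⟶ M) (he : e ≫ e = e) : Tri J where
  X := LinearMap.range (hx e)
  xp := Module.Projective.of_split (LinearMap.range (hx e)).subtype (hx e).rangeRestrict
    (LinearMap.ext fun x => Subtype.ext (fixx he x))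
  xf := Module.Finite.of_injective ((LinearMap.range (hx e)).subtype.restrictScalars k)
    Subtype.val_injective
  V := LinearMap.range (hv e)
  ε o := (hv e).rangeRestrict ∘ₗ M.ε o ∘ₗ (LinearMap.range (hv e)).subtype
  orth o o' h := LinearMap.ext fun v => Subtype.ext (by
    show hv e (M.ε o (hv e (M.ε o' v.1))) = 0
    rw [← hv_cmp e, idv he, show M.ε o (M.ε o' v.1) = 0 from
      LinearMap.congr_fun (M.orth o o' h) v.1, map_zero])
  sum := LinearMap.ext fun v => Subtype.ext (by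
    rw [LinearMap.sum_apply, Submodule.coe_sum]
    show ∑ o, hv e (M.ε o v.1) = v.1
    rw [← map_sum, ← LinearMap.sum_apply, M.sum]
    exact fixv he v)
  φ := Lm.map J (hv e).rangeRestrict ∘ₗ M.φ ∘ₗ (LinearMap.range (hx e)).subtype
  peak x p := Subtype.ext (by
    show hv e (M.ε _ (hv e (M.φ x.1 p))) = hv e (M.φ x.1 p)
    rw [← hv_cmp e, idv he, M.peak])

theorem split (S : Set ι) (M : Tri J) (hM : InS S M) (e : M ⟶ M) (he : e ≫ e = e) :
    ∃ (Y : Tri J) (i : Y ⟶ M) (p : M ⟶ Y), InS S Y ∧ i ≫ p = 𝟙 Y ∧ p ≫ i = e := by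
  refine ⟨img e he, mkHom (LinearMap.range (hx e)).subtype (LinearMap.range (hv e)).subtype
    (fun o v => ?_) (fun x p => ?_), mkHom (hx e).rangeRestrict (hv e).rangeRestrict
    (fun o v => Subtype.ext ?_) (fun x p => Subtype.ext ?_),
    fun j hj x => Subtype.ext (hM j hj x.1),
    hom_ext (fun x => Subtype.ext (fixx he x)) fun v => Subtype.ext (fixv he v),
    hom_ext (fun x => rfl) fun v => rfl⟩
  · show hv e (M.ε o v.1) = M.ε o v.1
    rw [hv_cmp e, fixv he v]
  · show M.φ x.1 p = hv e (M.φ x.1 p)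
    rw [← hφ, fixx he x]
  · show hv e (M.ε o v) = hv e (M.ε o (hv e v))
    rw [← hv_cmp e, idv he]
  · show hv e (M.φ (hx e x) p) = hv e (M.φ x p)
    rw [hφ, idv he]

end tri

end KDecA

theorem kdec : KDec := by
  intro k F _ _ _ _ Pt ι Ω _ _ _ J
  have hV : ∀ M : Tri J, Module.Finite k M.V := fun M => Module.Finite.trans F M.V
  have hH : ∀ M N : Tri J, Module.Finite k (M ⟶ N) := by
    intro M N
    have := hV M
    have := hV N
    have := KDecA.finL k J.B M.X N.X
    have := KDecA.finL k F M.V N.V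
    exact inferInstanceAs (Module.Finite k (Tri.hom M N))
  refine ⟨hH, fun M N => ?_, fun S M hM => KDecA.dec hH (InS S) (KDecA.split S) M hM⟩
  have := hV N
  have : Module.Finite k (Lm J N.V) := inferInstanceAs (Module.Finite k (Pt → N.V))
  have := KDecA.finL k J.B M.X (Lm J N.V)
  exact inferInstanceAs (Module.Finite k (Tri.der M N ⧸ Tri.inn M N))

end Pool.Agent.MP_bd94e8_al.H6K
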