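import Pool.Agent.MP_bd94e8_al.H6K.KSpec

/-!
A weakly positive form has finitely many vectors of bounded value.
-/

set_option autoImplicit false
set_option linter.unusedSectionVars false

namespace Pool.Agent.MP_bd94e8_al.H6K

open CategoryTheory Module Pool.Agent.MP_bd94e8_al.H89

namespace KDroAux

theorem chain {M : Type} [AddCommGroup M] [Module.Finite ℤ M] (B : M →ₗ[ℤ] M →ₗ[ℤ] ℤ) (c : ℤ)
    (x : ℕ → M) (h1 : ∀ i, B (x i) (x i) ≤ c) (h2 : ∀ i j, 0 ≤ B (x i + x j) (x i + x j))
    (h3 : ∀ i j, i ≤ j → 0 ≤ B (x j - x i) (x j - x i)) :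
    ∃ i j, i < j ∧ B (x j - x i) (x j - x i) = 0 := by
  have h4 : ∀ i j, B (x i) (x j) + B (x j) (x i) ∈ Set.Icc (-(2 * c)) (2 * c) := fun i j => by
    have a1 := h2 i j
    have a2 := h1 i
    have a3 := h1 j
    simp only [map_add, LinearMap.add_apply] at a1
    refine ⟨by linarith, ?_⟩
    rcases le_total i j with h | h
    · have a4 := h3 i j h
      simp only [map_sub, LinearMap.sub_apply] at a4
      linarith
    · have a4 := h3 j i h
      simp only [map_sub, LinearMap.sub_apply] at a4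
      linarith
  obtain ⟨s, hs, hs'⟩ := (Submodule.fg_span_iff_fg_span_finset_subset (R := ℤ) (Set.range x)).1
    (IsNoetherian.noetherian _)
  let g : ℕ → s → Set.Icc (-(2 * c)) (2 * c) := fun j t => ⟨B t (x j) + B (x j) t, by
    obtain ⟨i, hi⟩ := hs t.2
    rw [← hi]
    exact h4 i j⟩
  have key : ∀ i j, g i = g j → B (x j - x i) (x j - x i) = 0 := fun i j h => by
    have a1 : ∀ t ∈ Submodule.span ℤ (s : Set M), B t (x j - x i) + B (x j - x i) t = 0 := by
      intro t ht
      induction ht using Submodule.span_induction with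
      | mem t ht =>
        have a2 : B t (x i) + B (x i) t = B t (x j) + B (x j) t :=
          congrArg Subtype.val (congrFun h ⟨t, ht⟩)
        simp only [map_sub, LinearMap.sub_apply]
        linarith
      | zero => simp
      | add a b _ _ ha hb =>
        simp only [map_add, LinearMap.add_apply]
        linarith
      | smul n a _ ha =>
        simp only [map_smul, LinearMap.smul_apply, smul_eq_mul]
        rw [← mul_add, ha, mul_zero]
    have a3 := a1 (x j - x i) (hs' ▸ Submodule.sub_mem _ (Submodule.subset_span ⟨j, rfl⟩)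
      (Submodule.subset_span ⟨i, rfl⟩))
    linarith
  obtain ⟨i, j, hij, h⟩ := Finite.exists_ne_map_eq_of_infinite g
  rcases lt_or_gt_of_ne hij with h' | h'
  · exact ⟨i, j, h', key i j h⟩
  · exact ⟨j, i, h', key j i h.symm⟩

variable {k F : Type} [Field k] [Field F] [Algebra k F] {Pt ι Ω : Type} [Fintype Pt]
  [DecidableEq Pt] [Fintype ι] [Fintype Ω]

/-- The Tits form as a bilinear form over the integers. -/
noncomputable def form (J : Prob k F Pt ι Ω) :
    ((ι → ℤ) × (Ω → ℤ)) →ₗ[ℤ] ((ι → ℤ) × (Ω → ℤ)) →ₗ[ℤ] ℤ :=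
  LinearMap.mk₂ ℤ (fun x y => (∑ o, x.2 o * y.2 o) * finrank k F +
      ∑ i, ∑ j, x.1 i * y.1 j * finrank k (J.H i j) -
      (∑ p, x.1 (J.vt p) * y.2 (J.pk p)) * finrank k F)
    (fun x x' y => by
      simp only [Prod.fst_add, Prod.snd_add, Pi.add_apply, add_mul, Finset.sum_add_distrib]
      ring)
    (fun n x y => by
      simp only [Prod.smul_fst, Prod.smul_snd, Pi.smul_apply, smul_eq_mul, mul_assoc,
        ← Finset.mul_sum]
      ring)
    (fun x y y' => by
      simp only [Prod.fst_add, Prod.snd_add, Pi.add_apply, add_mul, mul_add,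
        Finset.sum_add_distrib]
      ring)
    (fun n x y => by
      simp only [Prod.smul_fst, Prod.smul_snd, Pi.smul_apply, smul_eq_mul, mul_left_comm _ n,
        mul_assoc, ← Finset.mul_sum]
      ring)

/-- Natural vectors as integral vectors. -/
def cst (x : (ι → ℕ) × (Ω → ℕ)) : (ι → ℤ) × (Ω → ℤ) := (fun i => x.1 i, fun o => x.2 o)

theorem cst_add (x y : (ι → ℕ) × (Ω → ℕ)) : cst (x + y) = cst x + cst y := by
  ext <;> simp [cst]

theorem form_cst (J : Prob k F Pt ι Ω) (x : (ι → ℕ) × (Ω → ℕ)) :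
    form J (cst x) (cst x) = (qp J x.1 x.2 : ℤ) - qm J x.1 x.2 := by
  simp only [form, cst, qp, qm, LinearMap.mk₂_apply, sq]
  push_cast
  rfl

theorem form_pos {J : Prob k F Pt ι Ω} (h : J.WP) {x : (ι → ℕ) × (Ω → ℕ)} (hx : x ≠ 0) :
    0 < form J (cst x) (cst x) := by
  have h1 : qm J x.1 x.2 < qp J x.1 x.2 := h x.1 x.2 (by
    by_contra h2
    push Not at h2
    exact hx (Prod.ext h2.1 h2.2))
  rw [form_cst]
  omega

theorem form_nonneg {J : Prob k F Pt ι Ω} (h : J.WP) (x : (ι → ℕ) × (Ω → ℕ)) :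
    0 ≤ form J (cst x) (cst x) := by
  by_cases hx : x = 0
  · have h1 : cst x = 0 := by
      rw [hx]
      ext <;> simp [cst]
    rw [h1, map_zero]
  · exact (form_pos h hx).le

end KDroAux

open KDroAux in
theorem kdro : KDro := by
  intro k F _ _ _ Pt ι Ω _ _ _ _ J hJ c
  by_contra hinf
  have hinf' : {x : (ι → ℕ) × (Ω → ℕ) | qp J x.1 x.2 ≤ c + qm J x.1 x.2}.Infinite := hinf
  obtain ⟨g, hg⟩ := (wellQuasiOrdered_le (α := (ι → ℕ) × (Ω → ℕ))).exists_monotone_subseq
    fun n => (hinf'.natEmbedding _ n).1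
  have hd : ∀ i j, i ≤ j → ∃ y, (hinf'.natEmbedding _ (g j)).1 =
      (hinf'.natEmbedding _ (g i)).1 + y := fun i j h => exists_add_of_le (hg i j h)
  obtain ⟨i, j, hij, h⟩ := chain (form J) c (fun n => cst (hinf'.natEmbedding _ (g n)).1)
    (fun i => by
      have h1 : qp J _ _ ≤ c + qm J _ _ := (hinf'.natEmbedding _ (g i)).2
      rw [form_cst]
      omega)
    (fun i j => by
      rw [← cst_add]
      exact form_nonneg hJ _)
    (fun i j h => by
      obtain ⟨y, hy⟩ := hd i j h
      simp only [hy, cst_add, add_sub_cancel_left]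
      exact form_nonneg hJ _)
  obtain ⟨y, hy⟩ := hd i j hij.le
  simp only [hy, cst_add, add_sub_cancel_left] at h
  refine (form_pos hJ (x := y) fun h0 => ?_).ne' h
  rw [h0, add_zero] at hy
  exact hij.ne' (g.injective ((hinf'.natEmbedding _).injective (Subtype.ext hy)))

end Pool.Agent.MP_bd94e8_al.H6K
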