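import Pool.Agent.MP_bd94e8_al.H6K.KSpec

/-!
The Euler form of the category of triples.
-/

set_option autoImplicit false
set_option linter.unusedSectionVars false

namespace Pool.Agent.MP_bd94e8_al.H6K

open CategoryTheory Module Pool.Agent.MP_bd94e8_al.H89

namespace KEulA

variable {k F : Type} [Field k] [Field F] [Algebra k F] {Pt ι Ω : Type} [Fintype Pt]
  [DecidableEq Pt] [Fintype Ω] {J : Prob k F Pt ι Ω}

theorem eps_eps (M : Tri J) (o : Ω) (v : M.V) : M.ε o (M.ε o v) = M.ε o v := by
  have h := LinearMap.congr_fun M.sum (M.ε o v)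
  rw [LinearMap.sum_apply, Finset.sum_eq_single (f := fun o' => M.ε o' (M.ε o v)) o
    (fun o' _ h' => LinearMap.congr_fun (M.orth o' o h') v) (by simp)] at h
  exact h

theorem sum_eps (M : Tri J) (v : M.V) : ∑ o, M.ε o v = v := by
  have h := LinearMap.congr_fun M.sum v
  rwa [LinearMap.sum_apply] at h

/-- The maps that commute with the peak projections. -/
def cs (M N : Tri J) : Submodule k (M.V →ₗ[F] N.V) where
  carrier := {g | Tri.Cmp M N g}
  add_mem' := fun {a b} ha hb o v => by simp [ha o v, hb o v]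
  zero_mem' := fun o v => by simp
  smul_mem' := fun c a ha o v => by simp [ha o v]

theorem finrank_cs [FiniteDimensional k F] (M N : Tri J) :
    finrank k (cs M N) = (∑ o, dimv M o * dimv N o) * finrank k F := by
  let Φ : cs M N →ₗ[k] ∀ o, LinearMap.range (M.ε o) →ₗ[F] LinearMap.range (N.ε o) :=
    { toFun := fun g o => g.1.restrict (by
        rintro _ ⟨v, rfl⟩
        exact ⟨g.1 v, (g.2 o v).symm⟩)
      map_add' := fun _ _ => rfl
      map_smul' := fun _ _ => rfl }
  have hb : Function.Bijective Φ := by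
    constructor
    · intro g g' h
      refine Subtype.ext (LinearMap.ext fun v => ?_)
      rw [← sum_eps M v, map_sum, map_sum]
      exact Finset.sum_congr rfl fun o _ =>
        congrArg Subtype.val (LinearMap.congr_fun (congrFun h o) ⟨M.ε o v, v, rfl⟩)
    · intro G
      have key : ∀ o v, (∑ o, (LinearMap.range (N.ε o)).subtype ∘ₗ G o ∘ₗ (M.ε o).rangeRestrict)
          (M.ε o v) = G o ⟨M.ε o v, v, rfl⟩ := by
        intro o v
        rw [LinearMap.sum_apply, Finset.sum_eq_single o (fun o' _ h' => ?_) (by simp)]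
        · exact congrArg (fun x => (G o x).1) (Subtype.ext (eps_eps M o v))
        · have : (M.ε o').rangeRestrict (M.ε o v) = 0 :=
            Subtype.ext (LinearMap.congr_fun (M.orth o' o h') v)
          simp [this]
      refine ⟨⟨∑ o, (LinearMap.range (N.ε o)).subtype ∘ₗ G o ∘ₗ (M.ε o).rangeRestrict,
        fun o v => ?_⟩, funext fun o => LinearMap.ext ?_⟩
      · rw [key, LinearMap.sum_apply, map_sum, Finset.sum_eq_single o (fun o' _ h' => ?_) (by simp)]
        · obtain ⟨w, hw⟩ := (G o ((M.ε o).rangeRestrict v)).2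
          change _ = N.ε o (G o ((M.ε o).rangeRestrict v)).1
          rw [← hw, eps_eps, hw]
          rfl
        · obtain ⟨w, hw⟩ := (G o' ((M.ε o').rangeRestrict v)).2
          change N.ε o (G o' ((M.ε o').rangeRestrict v)).1 = 0
          rw [← hw]
          exact LinearMap.congr_fun (N.orth o o' h'.symm) w
      · rintro ⟨_, v, rfl⟩
        exact Subtype.ext (key o v)
  have : ∀ o, Module.Finite k (LinearMap.range (M.ε o) →ₗ[F] LinearMap.range (N.ε o)) :=
    fun o => Module.Finite.trans F _
  rw [(LinearEquiv.ofBijective Φ hb).finrank_eq, Module.finrank_pi_fintype, Finset.sum_mul]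
  refine Finset.sum_congr rfl fun o _ => ?_
  rw [← Module.finrank_mul_finrank k F, Module.finrank_linearMap, mul_comm]
  rfl

/-- The families of vectors that lie in the peak spaces. -/
def lv (N : Tri J) : Submodule J.B (Lm J N.V) where
  carrier := {u | ∀ p, N.ε (J.pk p) (u p) = u p}
  add_mem' := fun {a b} ha hb p => by simp [Lm.add_apply, ha p, hb p]
  zero_mem' := fun p => by simp [Lm.zero_apply]
  smul_mem' := fun b u hu q => by
    rw [Lm.smul_apply, map_sum]
    refine Finset.sum_congr rfl fun p _ => ?_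
    by_cases h : b.1 q p = 0
    · simp [h]
    · rw [map_smul, J.peak b.1 b.2 q p h, hu p]

theorem eB_mul (i : ι) : eB J i * eB J i = eB J i := by
  apply Subtype.ext
  change J.e i * J.e i = J.e i
  ext q p
  rw [Matrix.mul_apply, Finset.sum_eq_single q (fun x _ h => by rw [J.e_off i h.symm, zero_mul])
    (by simp)]
  by_cases h : q = p
  · subst h
    by_cases e : J.vt q = i
    · rw [J.e_pos q e, Matrix.one_apply_eq, mul_one]
    · rw [J.e_neg q e, mul_zero]
  · rw [J.e_off i h, mul_zero]

theorem eB_smul {V : Type} [AddCommGroup V] [Module F V] (i : ι) (u : Lm J V) (q : Pt) :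
    (eB J i • u) q = J.e i q q • u q := by
  rw [Lm.smul_apply]
  exact Finset.sum_eq_single q (fun x _ h => by
    change J.e i q x • u x = 0
    rw [J.e_off i h.symm, zero_smul]) (by simp)

open Classical in
theorem finrank_be [FiniteDimensional k F] (N : Tri J) (i : ι) :
    finrank k (Be J (eB J i) →ₗ[J.B] lv N) =
      ∑ p, if J.vt p = i then dimv N (J.pk p) * finrank k F else 0 := by
  let W : Pt → Submodule F N.V := fun p => if J.vt p = i then LinearMap.range (N.ε (J.pk p)) else ⊥
  let e₀ : Be J (eB J i) := ⟨eB J i, eB_mul i⟩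
  have he : ∀ b : Be J (eB J i), b = b.1 • e₀ := fun b => Subtype.ext b.2.symm
  let Φ : (Be J (eB J i) →ₗ[J.B] lv N) →ₗ[k] ∀ p, W p :=
    { toFun := fun g p => ⟨(g e₀).1 p, by
        by_cases h : J.vt p = i
        · simp only [W, if_pos h]
          exact ⟨_, (g e₀).2 p⟩
        · simp only [W, if_neg h, Submodule.mem_bot]
          rw [he e₀, map_smul]
          change (eB J i • (g e₀).1) p = 0
          rw [eB_smul, J.e_neg p h, zero_smul]⟩
      map_add' := fun _ _ => rfl
      map_smul' := fun _ _ => rfl }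
  have hb : Function.Bijective Φ := by
    constructor
    · intro g g' h
      have : g e₀ = g' e₀ := Subtype.ext (Lm.ext fun p => congrArg Subtype.val (congrFun h p))
      refine LinearMap.ext fun b => ?_
      rw [he b, map_smul, map_smul, this]
    · intro w
      let u : lv N := ⟨fun p => (w p).1, fun p => by
        have := (w p).2
        by_cases h : J.vt p = i
        · simp only [W, if_pos h] at this
          obtain ⟨y, hy⟩ := this
          change N.ε _ (w p).1 = (w p).1
          rw [← hy, eps_eps]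
        · simp only [W, if_neg h, Submodule.mem_bot] at this
          change N.ε _ (w p).1 = (w p).1
          rw [this, map_zero]⟩
      refine ⟨LinearMap.toSpanSingleton J.B _ u ∘ₗ (Be J (eB J i)).subtype,
        funext fun p => Subtype.ext ?_⟩
      change (eB J i • u.1) p = (w p).1
      rw [eB_smul]
      by_cases h : J.vt p = i
      · rw [J.e_pos p h, Matrix.one_apply_eq, one_smul]
      · have := (w p).2
        simp only [W, if_neg h, Submodule.mem_bot] at this
        rw [J.e_neg p h, zero_smul, this]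
  have : ∀ p, Module.Finite k (W p) := fun p => Module.Finite.trans F _
  rw [(LinearEquiv.ofBijective Φ hb).finrank_eq, Module.finrank_pi_fintype]
  refine Finset.sum_congr rfl fun p _ => ?_
  rw [← Module.finrank_mul_finrank k F, mul_comm]
  by_cases h : J.vt p = i
  · rw [if_pos h, show W p = _ from if_pos h]
    rfl
  · rw [if_neg h, show W p = _ from if_neg h, finrank_bot, zero_mul]

theorem fin_lm [FiniteDimensional k F] (N : Tri J) : Module.Finite k (Lm J N.V) :=
  have : Module.Finite k N.V := Module.Finite.trans F _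
  inferInstanceAs (Module.Finite k (Pt → N.V))

theorem finrank_der [FiniteDimensional k F] [Fintype ι] (M N : Tri J) (d : ι → ℕ)
    (hd : IsDim J M.X d) : finrank k (Tri.der M N) = qm J d (dimv N) := by
  classical
  let Φ : Tri.der M N →ₗ[k] (M.X →ₗ[J.B] lv N) :=
    { toFun := fun δ => δ.1.codRestrict (lv N) δ.2
      map_add' := fun _ _ => rfl
      map_smul' := fun _ _ => rfl }
  have hb : Function.Bijective Φ :=
    ⟨fun δ δ' h => Subtype.ext (LinearMap.ext fun x =>
        congrArg Subtype.val (LinearMap.congr_fun h x)),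
      fun g => ⟨⟨(lv N).subtype ∘ₗ g, fun x => (g x).2⟩, rfl⟩⟩
  have := fin_lm N
  have : Module.Finite k (lv N) :=
    Module.Finite.of_injective ((lv N).subtype.restrictScalars k) Subtype.val_injective
  rw [(LinearEquiv.ofBijective Φ hb).finrank_eq]
  refine (hd.src (lv N)).trans ?_
  rw [qm, Finset.sum_mul]
  simp only [finrank_be, Finset.mul_sum]
  rw [Finset.sum_comm]
  refine Finset.sum_congr rfl fun p _ => ?_
  rw [Finset.sum_eq_single (J.vt p) (fun i _ h => by rw [if_neg h.symm, mul_zero]) (by simp),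
    if_pos rfl, mul_assoc]

theorem fin_hom {X Y : Type} [AddCommGroup X] [Module k X] [Module J.B X] [IsScalarTower k J.B X]
    [Module.Finite k X] [AddCommGroup Y] [Module k Y] [Module J.B Y] [IsScalarTower k J.B Y]
    [Module.Finite k Y] : Module.Finite k (X →ₗ[J.B] Y) :=
  Module.Finite.of_injective (LinearMap.restrictScalarsₗ k J.B X Y k)
    (LinearMap.restrictScalars_injective k)

/-- The map whose kernel is the space of morphisms and whose cokernel is that of extensions. -/
def th (M N : Tri J) : ((M.X →ₗ[J.B] N.X) × cs M N) →ₗ[k] Tri.der M N where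
  toFun x := ⟨N.φ ∘ₗ x.1 - Lm.map J x.2.1 ∘ₗ M.φ, fun y p => by
    change N.ε _ (N.φ (x.1 y) p - x.2.1 (M.φ y p)) = N.φ (x.1 y) p - x.2.1 (M.φ y p)
    rw [map_sub, N.peak, ← x.2.2, M.peak]⟩
  map_add' x x' := Tri.der_ext fun y p => by
    change N.φ (x.1 y + x'.1 y) p - (x.2.1 (M.φ y p) + x'.2.1 (M.φ y p)) =
      N.φ (x.1 y) p - x.2.1 (M.φ y p) + (N.φ (x'.1 y) p - x'.2.1 (M.φ y p))
    rw [map_add, Lm.add_apply]
    abel
  map_smul' c x := Tri.der_ext fun y p => by
    change N.φ (c • x.1 y) p - c • x.2.1 (M.φ y p) = c • (N.φ (x.1 y) p - x.2.1 (M.φ y p))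
    rw [LinearMap.map_smul_of_tower, Lm.ksmul_apply, smul_sub]

theorem th_apply (M N : Tri J) (x : (M.X →ₗ[J.B] N.X) × cs M N) (y : M.X) (p : Pt) :
    (th M N x).1 y p = N.φ (x.1 y) p - x.2.1 (M.φ y p) := rfl

theorem range_th (M N : Tri J) : LinearMap.range (th M N) = Tri.inn M N := by
  ext δ
  constructor
  · rintro ⟨x, rfl⟩
    exact ⟨x.1, x.2.1, x.2.2, fun _ _ => rfl⟩
  · rintro ⟨h, g, hg, e⟩
    exact ⟨(h, ⟨g, hg⟩), Tri.der_ext fun y p => (e y p).symm⟩

theorem ker_th (M N : Tri J) : finrank k (LinearMap.ker (th M N)) = finrank k (M ⟶ N) := by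
  let Φ : (M ⟶ N) →ₗ[k] LinearMap.ker (th M N) :=
    { toFun := fun f => ⟨(Tri.hx f, ⟨Tri.hv f, Tri.hv_cmp f⟩),
        Tri.der_ext fun y p => sub_eq_zero.2 (Tri.hφ f y p)⟩
      map_add' := fun _ _ => rfl
      map_smul' := fun _ _ => rfl }
  have hb : Function.Bijective Φ := by
    constructor
    · intro f g h
      exact Subtype.ext (Prod.ext (congrArg (fun x => x.1.1) h) (congrArg (fun x => x.1.2.1) h))
    · rintro ⟨x, hx⟩
      refine ⟨Tri.mkHom x.1 x.2.1 x.2.2 fun y p => sub_eq_zero.1 ?_, rfl⟩
      rw [← th_apply, LinearMap.mem_ker.1 hx]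
      rfl
  exact (LinearEquiv.ofBijective Φ hb).finrank_eq.symm

end KEulA

open KEulA in
/-- The Euler form. -/
theorem keul : KEul := by
  intro k F _ _ _ _ Pt ι Ω _ _ _ _ J M N d d' hd hd'
  have := fin_lm N
  have : Module.Finite k (M.X →ₗ[J.B] N.X) := fin_hom
  have : Module.Finite k (M.X →ₗ[J.B] Lm J N.V) := fin_hom
  have : Module.Finite k (M.V →ₗ[F] N.V) := Module.Finite.trans F _
  have h1 := (th M N).finrank_range_add_finrank_ker
  have h2 := (Tri.inn M N).finrank_quotient_add_finrank
  rw [range_th, ker_th, Module.finrank_prod, finrank_cs, hd.src] at h1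
  rw [finrank_der M N d hd] at h2
  have h3 : ∑ i, d i * finrank k (Be J (eB J i) →ₗ[J.B] N.X) =
      ∑ i, ∑ j, d i * d' j * finrank k (J.H j i) := by
    refine Finset.sum_congr rfl fun i _ => ?_
    rw [hd'.tgt, Finset.mul_sum]
    exact Finset.sum_congr rfl fun j _ => (mul_assoc _ _ _).symm
  rw [h3] at h1
  change _ = finrank k (Tri.der M N ⧸ Tri.inn M N) + _
  omega

end Pool.Agent.MP_bd94e8_al.H6K
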