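import Pool.Agent.MP_bd94e8_al.H6K.KSpec

/-!
One object detects all extensions into a given object.
-/

set_option autoImplicit false
set_option linter.unusedSectionVars false
set_option linter.unusedVariables false

namespace Pool.Agent.MP_bd94e8_al.H6K

open CategoryTheory Module Pool.Agent.MP_bd94e8_al.H89

namespace KGenA

theorem fac {F T V W : Type} [Field F] [AddCommGroup T] [Module F T] [AddCommGroup V] [Module F V]
    [AddCommGroup W] [Module F W] (f : T →ₗ[F] V) (g : T →ₗ[F] W)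
    (h : ∀ t, f t = 0 → g t = 0) : ∃ β : V →ₗ[F] W, ∀ t, β (f t) = g t := by
  obtain ⟨r, hr⟩ := f.rangeRestrict.exists_rightInverse_of_surjective f.range_rangeRestrict
  obtain ⟨l, hl⟩ := (LinearMap.range f).subtype.exists_leftInverse_of_injective
    (Submodule.ker_subtype _)
  refine ⟨g ∘ₗ r ∘ₗ l, fun t => ?_⟩
  have h1 : l (f t) = f.rangeRestrict t := LinearMap.congr_fun hl (f.rangeRestrict t)
  have h2 : f (r (f.rangeRestrict t)) = f t :=
    congrArg Subtype.val (LinearMap.congr_fun hr (f.rangeRestrict t))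
  have h3 := h (r (f.rangeRestrict t) - t) (by rw [map_sub, h2, sub_self])
  rw [map_sub, sub_eq_zero] at h3
  rw [LinearMap.comp_apply, LinearMap.comp_apply, h1, h3]

theorem split {F T W : Type} [Field F] [AddCommGroup T] [Module F T]
    [AddCommGroup W] [Module F W] (Q Q' : Submodule F T) (g : T →ₗ[F] W)
    (h : ∀ t ∈ Q ⊓ Q', g t = 0) : ∃ g₁ g₂ : T →ₗ[F] W, (∀ t ∈ Q, g₁ t = 0) ∧
      (∀ t ∈ Q', g₂ t = 0) ∧ ∀ t, g t = g₁ t + g₂ t := by
  obtain ⟨β, hβ⟩ := fac (Q.mkQ.prod Q'.mkQ) g fun t ht => h t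
    ⟨(Submodule.Quotient.mk_eq_zero Q).1 (congrArg Prod.fst ht),
      (Submodule.Quotient.mk_eq_zero Q').1 (congrArg Prod.snd ht)⟩
  refine ⟨β ∘ₗ LinearMap.inl F _ _ ∘ₗ Q.mkQ, β ∘ₗ LinearMap.inr F _ _ ∘ₗ Q'.mkQ,
    fun t ht => ?_, fun t ht => ?_, fun t => ?_⟩
  · have : Q.mkQ t = 0 := (Submodule.Quotient.mk_eq_zero Q).2 ht
    rw [LinearMap.comp_apply, LinearMap.comp_apply, this, map_zero, map_zero]
  · have : Q'.mkQ t = 0 := (Submodule.Quotient.mk_eq_zero Q').2 ht
    rw [LinearMap.comp_apply, LinearMap.comp_apply, this, map_zero, map_zero]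
  · rw [← hβ t]
    simp only [LinearMap.comp_apply, ← map_add]
    congr 1
    simp

variable {k F : Type} [Field k] [Field F] [Algebra k F] {Pt ι Ω : Type} [Fintype Pt]
  [DecidableEq Pt] [Fintype Ω] {J : Prob k F Pt ι Ω}

theorem eps_sum (M : Tri J) (v : M.V) : ∑ o, M.ε o v = v := by
  have := LinearMap.congr_fun M.sum v
  rwa [LinearMap.sum_apply] at this

theorem eps_ne (M : Tri J) {o o' : Ω} (h : o ≠ o') (v : M.V) : M.ε o (M.ε o' v) = 0 :=
  LinearMap.congr_fun (M.orth o o' h) v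

theorem eps_idem (M : Tri J) (o : Ω) (v : M.V) : M.ε o (M.ε o v) = M.ε o v := by
  conv_rhs => rw [← eps_sum M v, map_sum]
  exact (Finset.sum_eq_single o (fun o' _ h => eps_ne M h.symm v) (by simp)).symm

/-- The compatible part of a linear map. -/
noncomputable def avg (M N : Tri J) (g : M.V →ₗ[F] N.V) : M.V →ₗ[F] N.V :=
  ∑ o, N.ε o ∘ₗ g ∘ₗ M.ε o

theorem avg_apply (M N : Tri J) (g : M.V →ₗ[F] N.V) (v : M.V) :
    avg M N g v = ∑ o, N.ε o (g (M.ε o v)) := by
  simp [avg, LinearMap.sum_apply]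

theorem avg_cmp (M N : Tri J) (g : M.V →ₗ[F] N.V) : Tri.Cmp M N (avg M N g) := fun o v => by
  rw [avg_apply, avg_apply, map_sum,
    Finset.sum_eq_single o (fun o' _ h => by rw [eps_ne M h, map_zero, map_zero]) (by simp),
    Finset.sum_eq_single o (fun o' _ h => eps_ne N h.symm _) (by simp), eps_idem, eps_idem]

theorem cmp_sum {M N : Tri J} {g : M.V →ₗ[F] N.V} (hg : Tri.Cmp M N g) (v : M.V) :
    ∑ o, N.ε o (g (M.ε o v)) = g v := by
  conv_rhs => rw [← eps_sum N (g v)]
  exact Finset.sum_congr rfl fun o _ => by rw [hg o, eps_idem]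

/-- Stable subspaces on whose annihilator the functional vanishes. -/
def QQ (N X : Tri J) (Ξ : (N.V →ₗ[F] X.V) →+ k) (Q : Submodule F N.V) : Prop :=
  (∀ o, ∀ t ∈ Q, N.ε o t ∈ Q) ∧ ∀ g, Tri.Cmp N X g → (∀ t ∈ Q, g t = 0) → Ξ g = 0

theorem least (N X : Tri J) (Ξ : (N.V →ₗ[F] X.V) →+ k) :
    ∃ Q, QQ N X Ξ Q ∧ ∀ Q', QQ N X Ξ Q' → Q ≤ Q' := by
  have htop : QQ N X Ξ ⊤ := ⟨fun _ _ _ => trivial, fun g _ h => by
    rw [show g = 0 from LinearMap.ext fun t => h t trivial, map_zero]⟩
  obtain ⟨Q, hQ, hmin⟩ := (wellFounded_lt (α := Submodule F N.V)).has_min {Q | QQ N X Ξ Q}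
    ⟨⊤, htop⟩
  refine ⟨Q, hQ, fun Q' hQ' => ?_⟩
  have hi : QQ N X Ξ (Q ⊓ Q') := by
    refine ⟨fun o t ht => ⟨hQ.1 o t ht.1, hQ'.1 o t ht.2⟩, fun g hg h => ?_⟩
    obtain ⟨g₁, g₂, h1, h2, h3⟩ := split Q Q' g h
    have e : g = avg N X g₁ + avg N X g₂ := LinearMap.ext fun v => by
      rw [LinearMap.add_apply, avg_apply, avg_apply, ← Finset.sum_add_distrib, ← cmp_sum hg v]
      exact Finset.sum_congr rfl fun o _ => by rw [h3, map_add]
    rw [e, map_add, hQ.2 _ (avg_cmp _ _ _) fun t ht => by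
      rw [avg_apply]
      exact Finset.sum_eq_zero fun o _ => by rw [h1 _ (hQ.1 o t ht), map_zero],
      hQ'.2 _ (avg_cmp _ _ _) fun t ht => by
      rw [avg_apply]
      exact Finset.sum_eq_zero fun o _ => by rw [h2 _ (hQ'.1 o t ht), map_zero], add_zero]
  exact inf_eq_left.1 (by_contra fun hne => hmin _ hi (lt_of_le_of_ne inf_le_left hne))

/-- The quotient of a triple by a stable subspace. -/
noncomputable def quo (N : Tri J) (Q : Submodule F N.V) (hQ : ∀ o, ∀ t ∈ Q, N.ε o t ∈ Q) :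
    Tri J where
  X := N.X
  V := N.V ⧸ Q
  ε o := Q.mapQ Q (N.ε o) (hQ o)
  orth o o' h := LinearMap.ext fun v => by
    obtain ⟨t, rfl⟩ := Submodule.Quotient.mk_surjective _ v
    rw [LinearMap.comp_apply, Submodule.mapQ_apply, Submodule.mapQ_apply, eps_ne N h,
      LinearMap.zero_apply, Submodule.Quotient.mk_zero]
  sum := LinearMap.ext fun v => by
    obtain ⟨t, rfl⟩ := Submodule.Quotient.mk_surjective _ v
    rw [LinearMap.sum_apply, LinearMap.id_apply]
    conv_rhs => rw [← eps_sum N t, ← Submodule.mkQ_apply, map_sum]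
    rfl
  φ := Lm.map J Q.mkQ ∘ₗ N.φ
  peak x p := by
    change Q.mapQ Q (N.ε _) (hQ _) (Submodule.Quotient.mk (N.φ x p)) =
      Submodule.Quotient.mk (N.φ x p)
    rw [Submodule.mapQ_apply, N.peak]

open Classical in
theorem e_diag (i : ι) : J.e i = Matrix.diagonal fun p => if J.vt p = i then (1 : F) else 0 := by
  ext q p
  by_cases h : q = p
  · subst h
    by_cases e : J.vt q = i
    · rw [J.e_pos _ e]; simp [e]
    · rw [J.e_neg _ e]; simp [e]
  · rw [J.e_off i h, Matrix.diagonal_apply_ne _ h]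

variable [Fintype ι]

open Classical in
/-- The idempotent of a set of vertices. -/
noncomputable def eS (J : Prob k F Pt ι Ω) (S : Set ι) : J.B :=
  ∑ i ∈ Finset.univ.filter (· ∈ S), eB J i

open Classical in
theorem eS_diag (S : Set ι) :
    (eS J S).1 = Matrix.diagonal fun p => if J.vt p ∈ S then (1 : F) else 0 := by
  rw [eS, AddSubmonoidClass.coe_finsetSum]
  ext q p
  simp only [eB, e_diag, Matrix.sum_apply, Matrix.diagonal_apply]
  by_cases h : q = p
  · simp [h]
  · simp [h]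

theorem eS_idem (S : Set ι) : eS J S * eS J S = eS J S := Subtype.ext (by
  rw [MulMemClass.coe_mul, eS_diag, Matrix.diagonal_mul_diagonal]
  congr 1
  funext p
  split_ifs <;> simp)

theorem eS_smul {S : Set ι} {M : Tri J} (hM : InS S M) (x : M.X) : eS J S • x = x := by
  classical
  have h1 : eS J Set.univ = 1 := Subtype.ext (by rw [eS_diag]; simp)
  conv_rhs => rw [← one_smul J.B x, ← h1]
  simp only [eS, Finset.sum_smul]
  refine Finset.sum_subset (fun i _ => by simp) fun i _ hi => hM i (by simpa using hi) x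

theorem e_mul {S : Set ι} (hS : Closed J S) {j : ι} (hj : j ∉ S) {b : J.B}
    (hb : b * eS J S = b) : eB J j * b = 0 := Subtype.ext (by
  classical
  ext q p
  rw [← hb, MulMemClass.coe_mul, MulMemClass.coe_mul, eS_diag]
  simp only [eB, e_diag, Matrix.diagonal_mul, Matrix.mul_diagonal]
  by_cases h1 : J.vt q = j
  · by_cases h2 : J.vt p ∈ S
    · by_cases h3 : b.1 q p = 0
      · simp [h3]
      · exact (hj (hS _ h2 j ⟨b.1, b.2, p, q, rfl, h1, h3⟩)).elim
    · simp [h2]
  · simp [h1])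

/-- The projective module with `n` generators supported in `S`. -/
noncomputable def Pm (J : Prob k F Pt ι Ω) (S : Set ι) (n : ℕ) : Submodule J.B (Fin n → J.B) :=
  Submodule.pi Set.univ fun _ => Be J (eS J S)

theorem mem_Pm {S : Set ι} {n : ℕ} {b : Fin n → J.B} :
    b ∈ Pm J S n ↔ ∀ s, b s * eS J S = b s :=
  ⟨fun h s => h s trivial, fun h s _ => h s⟩

theorem proj_Pm (S : Set ι) (n : ℕ) : Module.Projective J.B (Pm J S n) := by
  let r : (Fin n → J.B) →ₗ[J.B] (Fin n → J.B) :=
    { toFun := fun b s => b s * eS J S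
      map_add' := fun a b => funext fun s => add_mul _ _ _
      map_smul' := fun a b => funext fun s => mul_assoc _ _ _ }
  refine Module.Projective.of_split (Pm J S n).subtype (r.codRestrict _ fun b => mem_Pm.2 fun s => ?_)
    (LinearMap.ext fun b => Subtype.ext (funext fun s => mem_Pm.1 b.2 s))
  change b s * eS J S * eS J S = b s * eS J S
  rw [mul_assoc, eS_idem]

variable [FiniteDimensional k F]

theorem fin_Pm (S : Set ι) (n : ℕ) : Module.Finite k (Pm J S n) :=
  haveI : Module.Finite k (Matrix Pt Pt F) := Module.Finite.trans F _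
  Module.Finite.of_injective ((Pm J S n).subtype.restrictScalars k) Subtype.val_injective

open Classical in
/-- The universal triple with `n` generators supported in `S`. -/
noncomputable def P0 (J : Prob k F Pt ι Ω) (S : Set ι) (n : ℕ) : Tri J where
  X := Pm J S n
  xp := proj_Pm S n
  xf := fin_Pm S n
  V := Fin n → Pt → F
  ε o :=
    { toFun := fun t s p => if J.pk p = o then t s p else 0
      map_add' := fun a b => funext fun s => funext fun p => by
        by_cases h : J.pk p = o <;> simp [h]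
      map_smul' := fun a b => funext fun s => funext fun p => by
        by_cases h : J.pk p = o <;> simp [h] }
  orth o o' h := LinearMap.ext fun t => funext fun s => funext fun p => by
    by_cases e : J.pk p = o
    · simp [e, h]
    · simp [e]
  sum := LinearMap.ext fun t => funext fun s => funext fun p => by
    simp [LinearMap.sum_apply, Finset.sum_apply]
  φ :=
    { toFun := fun b q s p => (b.1 s).1 q p
      map_add' := fun a b => rfl
      map_smul' := fun a b => Lm.ext fun q => funext fun s => funext fun p => by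
        change (a.1 * (b.1 s).1) q p = (∑ r, a.1 q r • fun s p => (b.1 s).1 r p) s p
        simp [Matrix.mul_apply, Finset.sum_apply] }
  peak b q := funext fun s => funext fun p => by
    by_cases h : (b.1 s).1 q p = 0
    · change (if _ then (b.1 s).1 q p else 0) = (b.1 s).1 q p
      simp [h]
    · exact if_pos (J.peak _ (b.1 s).2 q p h).symm

/-- The generators. -/
noncomputable def gy (J : Prob k F Pt ι Ω) (S : Set ι) (n : ℕ) (s : Fin n) : (P0 J S n).X :=
  (⟨Pi.single s (eS J S), mem_Pm.2 fun t => by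
    by_cases h : t = s
    · rw [h, Pi.single_eq_same, eS_idem]
    · rw [Pi.single_eq_of_ne h, zero_mul]⟩ : Pm J S n)

theorem P0_in {S : Set ι} (hS : Closed J S) (n : ℕ) : InS S (P0 J S n) :=
  fun j hj b => Subtype.ext (funext fun s => e_mul hS hj (mem_Pm.1 (b : Pm J S n).2 s))

theorem univ {S : Set ι} {n : ℕ} {M : Tri J} (hM : InS S M) (x : Fin n → M.X) :
    ∃ u : P0 J S n ⟶ M, ∀ s, Tri.hx u (gy J S n s) = x s := by
  classical
  let h : Pm J S n →ₗ[J.B] M.X :=
    { toFun := fun b => ∑ s, b.1 s • x s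
      map_add' := fun a b => by simp [add_smul, Finset.sum_add_distrib]
      map_smul' := fun a b => by simp [Finset.smul_sum, mul_smul] }
  let g : (Fin n → Pt → F) →ₗ[F] M.V :=
    { toFun := fun t => ∑ s, ∑ p, t s p • M.φ (x s) p
      map_add' := fun a b => by simp [add_smul, Finset.sum_add_distrib]
      map_smul' := fun a b => by simp [Finset.smul_sum, mul_smul] }
  refine ⟨Tri.mkHom (M := P0 J S n) h g (fun o t => ?_) fun b q => ?_, fun s => ?_⟩
  · change ∑ s, ∑ p, (if J.pk p = o then t s p else 0) • M.φ (x s) p =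
      M.ε o (∑ s, ∑ p, t s p • M.φ (x s) p)
    simp only [map_sum, map_smul]
    refine Finset.sum_congr rfl fun s _ => Finset.sum_congr rfl fun p _ => ?_
    by_cases e : J.pk p = o
    · rw [if_pos e, ← e, M.peak]
    · rw [if_neg e, ← M.peak (x s) p, eps_ne M (Ne.symm e), zero_smul, smul_zero]
  · change M.φ (∑ s, (b : Pm J S n).1 s • x s) q =
      ∑ s, ∑ p, ((b : Pm J S n).1 s).1 q p • M.φ (x s) p
    rw [map_sum, Lm.sum_apply]
    exact Finset.sum_congr rfl fun s _ => by rw [map_smul, Lm.smul_apply]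
  · change ∑ t, (Pi.single s (eS J S) : Fin n → J.B) t • x t = x s
    rw [Finset.sum_eq_single s (fun t _ e => by rw [Pi.single_eq_of_ne e, zero_smul]) (by simp),
      Pi.single_eq_same, eS_smul hM]

theorem sep (X : Tri J) : ∃ (n : ℕ) (μ : Fin n → Dual k (Lm J X.V)),
    (∀ s x, μ s (X.φ x) = 0) ∧ ∀ u, (∀ s, μ s u = 0) → ∃ x, X.φ x = u := by
  have : Module.Finite k X.V := Module.Finite.trans F _
  have : Module.Finite k (Lm J X.V) := inferInstanceAs (Module.Finite k (Pt → X.V))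
  let R : Submodule k (Lm J X.V) := LinearMap.range (X.φ.restrictScalars k)
  obtain ⟨n, μ, hμ⟩ := Module.Finite.exists_fin (R := k) (M := R.dualAnnihilator)
  refine ⟨n, fun s => (μ s).1, fun s x => (Submodule.mem_dualAnnihilator _).1 (μ s).2 _ ⟨x, rfl⟩,
    fun u hu => ?_⟩
  refine (Subspace.forall_mem_dualAnnihilator_apply_eq_zero_iff R u).1 fun ν hν => ?_
  have : (⟨ν, hν⟩ : R.dualAnnihilator) ∈ Submodule.span k (Set.range μ) := hμ ▸ trivial
  obtain ⟨c, hc⟩ := (Submodule.mem_span_range_iff_exists_fun k).1 this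
  have h2 : ν = ∑ s, c s • (μ s).1 := by
    have := congrArg Subtype.val hc
    simpa using this.symm
  rw [h2, LinearMap.sum_apply]
  exact Finset.sum_eq_zero fun s _ => by rw [LinearMap.smul_apply, hu s, smul_zero]

theorem pick {M X : Tri J} {n : ℕ} (μ : Fin n → Dual k (Lm J X.V))
    (h0 : ∀ s x, μ s (X.φ x) = 0) (h1 : ∀ u, (∀ s, μ s u = 0) → ∃ x, X.φ x = u)
    (D : Tri.der M X) (hD : D ∉ Tri.inn M X) : ∃ x : Fin n → M.X,
      (∀ δ ∈ Tri.inn M X, ∑ s, μ s (δ.1 (x s)) = 0) ∧ ∑ s, μ s (D.1 (x s)) ≠ 0 := by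
  classical
  let Λ : (Fin n → M.X) →ₗ[k] Dual k (Tri.der M X) := LinearMap.mk₂ k
    (fun x δ => ∑ s, μ s (δ.1 (x s)))
    (fun x y δ => by simp [Finset.sum_add_distrib])
    (fun c x δ => by simp [Finset.mul_sum])
    (fun x δ δ' => by simp [Finset.sum_add_distrib])
    (fun c x δ => by simp [Finset.mul_sum])
  have hK : (LinearMap.range Λ).dualCoannihilator ≤ Tri.inn M X := by
    intro δ hδ
    rw [Submodule.mem_dualCoannihilator] at hδ
    have h2 : ∀ y, δ.1 y ∈ LinearMap.range X.φ := fun y => h1 _ fun s => by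
      have h3 : ∑ t, μ t (δ.1 ((Pi.single s y : Fin n → M.X) t)) = 0 :=
        hδ _ ⟨Pi.single s y, rfl⟩
      rwa [Finset.sum_eq_single s (fun t _ e => by
        rw [Pi.single_eq_of_ne e, map_zero, map_zero]) (by simp), Pi.single_eq_same] at h3
    obtain ⟨h, hh⟩ := Module.projective_lifting_property X.φ.rangeRestrict
      (δ.1.codRestrict _ h2) X.φ.surjective_rangeRestrict
    refine ⟨h, 0, fun o v => by simp, fun y p => ?_⟩
    have h4 : X.φ (h y) = δ.1 y := congrArg Subtype.val (LinearMap.congr_fun hh y)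
    rw [h4, LinearMap.zero_apply, sub_zero]
  by_contra hc
  refine hD ((Subspace.forall_mem_dualAnnihilator_apply_eq_zero_iff _ D).1 fun ν hν => ?_)
  have h5 : ν ∈ LinearMap.range Λ := by
    rw [← Subspace.dualCoannihilator_dualAnnihilator_eq (W := LinearMap.range Λ)]
    exact Submodule.dualAnnihilator_anti hK hν
  obtain ⟨x, rfl⟩ := h5
  exact by_contra fun h6 => hc ⟨x, (Submodule.mem_dualAnnihilator _).1 hν, h6⟩

end KGenA

open KGenA in
theorem kgen : KGen := by
  intro k F _ _ _ _ Pt ι Ω _ _ _ _ J S hS X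
  obtain ⟨n, μ, h0, h1⟩ := sep X
  let Ξ : ((P0 J S n).V →ₗ[F] X.V) →+ k :=
    { toFun := fun g => ∑ s, μ s (Lm.map J g ((P0 J S n).φ (gy J S n s)))
      map_zero' := Finset.sum_eq_zero fun s _ => map_zero (μ s)
      map_add' := fun a b => by
        rw [← Finset.sum_add_distrib]
        exact Finset.sum_congr rfl fun s _ => map_add (μ s) _ _ }
  obtain ⟨Q, hQ, hl⟩ := least (P0 J S n) X Ξ
  refine ⟨quo _ Q hQ.1, P0_in hS n, fun M hM η hη => ?_⟩
  obtain ⟨D, rfl⟩ := Tri.cls_surj η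
  obtain ⟨x, hx0, hx1⟩ := pick μ h0 h1 D fun h => hη ((Tri.cls_eq_zero D).2 h)
  obtain ⟨u, hu⟩ := univ hM x
  have hk : Q ≤ LinearMap.ker (Tri.hv u) := by
    refine hl _ ⟨fun o t ht => ?_, fun g hg h => ?_⟩
    · rw [LinearMap.mem_ker] at ht ⊢
      rw [Tri.hv_cmp u o, ht, map_zero]
    · obtain ⟨β, hβ⟩ := fac (Tri.hv u) g h
      have e : ∀ t, avg M X β (Tri.hv u t) = g t := fun t => by
        rw [avg_apply, ← cmp_sum hg t]
        exact Finset.sum_congr rfl fun o _ => by rw [← Tri.hv_cmp u o, hβ]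
      let δ : Tri.der M X := ⟨Lm.map J (avg M X β) ∘ₗ M.φ, fun y p => by
        change X.ε _ (avg M X β (M.φ y p)) = avg M X β (M.φ y p)
        rw [← avg_cmp M X β, M.peak]⟩
      have hδ : δ ∈ Tri.inn M X := ⟨0, -avg M X β, fun o v => by
        rw [LinearMap.neg_apply, LinearMap.neg_apply, avg_cmp M X β, map_neg], fun y p => by
        rw [LinearMap.zero_apply, map_zero, Lm.zero_apply, LinearMap.neg_apply, zero_sub, neg_neg]
        rfl⟩
      rw [← hx0 δ hδ]
      change ∑ s, μ s (Lm.map J g ((P0 J S n).φ (gy J S n s))) = _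
      refine Finset.sum_congr rfl fun s _ => congrArg (μ s) (Lm.ext fun p => ?_)
      change g _ = avg M X β (M.φ (x s) p)
      rw [← hu s, Tri.hφ u, e]
  let u' : quo _ Q hQ.1 ⟶ M := Tri.mkHom (M := quo _ Q hQ.1)
    (Tri.hx (M := P0 J S n) u) (Q.liftQ (Tri.hv u) hk)
    (fun o v => by
      obtain ⟨t, rfl⟩ := Submodule.Quotient.mk_surjective _ v
      exact Tri.hv_cmp u o t)
    fun y p => Tri.hφ u y p
  refine ⟨u', fun h => hx1 ?_⟩
  rw [Tri.pull_cls, Tri.cls_eq_zero] at h
  obtain ⟨h', g', hg', e⟩ := h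
  have hz : Ξ (g' ∘ₗ Q.mkQ) = 0 := hQ.2 _ (fun o t => hg' o (Q.mkQ t)) fun t ht => by
    have : Q.mkQ t = 0 := (Submodule.Quotient.mk_eq_zero Q).2 ht
    exact (congrArg g' this).trans (map_zero g')
  rw [← neg_eq_zero.2 hz]
  change _ = -∑ s, μ s _
  rw [← Finset.sum_neg_distrib]
  refine Finset.sum_congr rfl fun s _ => ?_
  have e2 : D.1 (x s) = X.φ (h' (gy J S n s)) -
      Lm.map J (g' ∘ₗ Q.mkQ) ((P0 J S n).φ (gy J S n s)) := Lm.ext fun p => by
    rw [← hu s]
    exact e (gy J S n s) p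
  rw [e2, map_sub, h0, zero_sub]

end Pool.Agent.MP_bd94e8_al.H6K
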