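import Pool.Agent.MP_bd94e8_al.H6K.KSpec

/-!
Projective modules over the algebra of a directed problem.
-/

set_option autoImplicit false
set_option linter.unusedSectionVars false
set_option linter.unusedVariables false

namespace Pool.Agent.MP_bd94e8_al.H6K

open Module Pool.Agent.MP_bd94e8_al.H89

namespace KPrAux

variable {k F : Type} [Field k] [Field F] [Algebra k F] {Pt ι Ω : Type} [Fintype Pt]
  [DecidableEq Pt] (J : Prob k F Pt ι Ω)

theorem blk_of_in {i j : ι} {b : Matrix Pt Pt F} (h : J.In i j b) : J.e j * b * J.e i = b := by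
  rw [← J.blk_eq]
  ext q p
  by_cases e : J.vt p = i ∧ J.vt q = j
  · exact J.blk_pos b e.1 e.2
  · rw [J.blk_neg b e]
    by_contra h0
    exact e (h q p fun h1 => h0 h1.symm)

theorem e_mul_e (i j : ι) : J.e j * J.e i = J.blk i j 1 := by rw [J.blk_eq, mul_one]

theorem e_self (i : ι) : eB J i * eB J i = eB J i := by
  apply Subtype.ext
  change J.e i * J.e i = J.e i
  rw [e_mul_e]
  ext q p
  by_cases hp : J.vt p = i
  · by_cases hq : J.vt q = i
    · rw [J.blk_pos _ hp hq, J.e_pos _ hp]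
    · rw [J.blk_neg _ fun h => hq h.2, J.e_off]
      rintro rfl
      exact hq hp
  · rw [J.blk_neg _ fun h => hp h.1, J.e_neg _ hp]

theorem sum_e [Fintype ι] : ∑ i, eB J i = 1 := by
  apply Subtype.ext
  rw [AddSubmonoidClass.coe_finsetSum]
  change ∑ i, J.e i = 1
  ext q p
  rw [Matrix.sum_apply, Finset.sum_eq_single (J.vt p) (fun i _ hi => J.e_neg q (Ne.symm hi))
    (by simp), J.e_pos q rfl]

theorem mem_H (i j : ι) (b : J.B) : (eB J j * b * eB J i).1 ∈ J.H i j := by
  have := J.blk_mem b.2 i j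
  rwa [J.blk_eq] at this

theorem succ_of_ne {i j : ι} {b : J.B} (h : eB J j * b * eB J i ≠ 0) : J.Succ i j := by
  by_contra hs
  apply h
  apply Subtype.ext
  ext q p
  by_contra h0
  have hm := mem_H J i j b
  exact hs ⟨_, hm.1, p, q, (hm.2 q p h0).1, (hm.2 q p h0).2, h0⟩

theorem H_eq {i j : ι} {b : Matrix Pt Pt F} (h : b ∈ J.H i j) :
    eB J j * (⟨b, h.1⟩ : J.B) * eB J i = ⟨b, h.1⟩ := Subtype.ext (blk_of_in J h.2)

theorem left_of_eq {i j : ι} {b : J.B} (h : eB J j * b * eB J i = b) : eB J j * b = b := by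
  conv_lhs => rw [← h]
  rw [← mul_assoc, ← mul_assoc, e_self, h]

theorem right_of_eq {i j : ι} {b : J.B} (h : eB J j * b * eB J i = b) : b * eB J i = b := by
  conv_lhs => rw [← h]
  rw [mul_assoc, e_self, h]

/-- Right inverses in the corner of a vertex. -/
theorem exists_right_inv {a : ι} (hd : Div J a) {b : J.B} (hb : eB J a * b * eB J a ≠ 0) :
    ∃ c : J.B, c * eB J a = c ∧ eB J a * b * c = eB J a := by
  have hm := mem_H J a a b
  obtain ⟨c, hc, e1⟩ := hd _ hm fun h => hb (Subtype.ext h)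
  have e1' : (⟨c, hc.1⟩ : J.B) * (eB J a * b * eB J a) = eB J a := Subtype.ext e1
  have hc0 : c ≠ 0 := by
    rintro rfl
    apply hb
    have : eB J a = 0 := by
      rw [← e1']
      exact zero_mul _
    rw [this, mul_zero]
  obtain ⟨c', hc', e2⟩ := hd _ hc hc0
  have e2' : (⟨c', hc'.1⟩ : J.B) * ⟨c, hc.1⟩ = eB J a := Subtype.ext e2
  have h1 := right_of_eq J (H_eq J hc')
  have h2 := right_of_eq J (H_eq J hc)
  have h3 := left_of_eq J (H_eq J hc)
  refine ⟨⟨c, hc.1⟩, h2, ?_⟩
  have h4 : (⟨c', hc'.1⟩ : J.B) = eB J a * b * eB J a := by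
    rw [← h1]
    conv_lhs => rw [← e1', ← mul_assoc, e2', ← mul_assoc, ← mul_assoc, e_self]
  rw [← h3, ← mul_assoc, ← h4, e2']

theorem part_a [Fintype ι] (X : Type) [AddCommGroup X] [Module J.B X] [Module.Projective J.B X]
    (a : ι) (hd : Div J a) (x : X) (h : ∀ j, j ≠ a → J.Succ j a → ∀ y : X, eB J j • y = 0)
    (hx : x ≠ 0) (hax : eB J a • x = x) :
    ∃ r : X →ₗ[J.B] Be J (eB J a), (r x).1 = eB J a := by
  obtain ⟨s, hs⟩ := (Module.projective_def' (R := J.B) (P := X)).1 inferInstance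
  have hsx : ∀ t, eB J a * s x t = s x t := fun t => by
    conv_rhs => rw [← hax, map_smul, Finsupp.smul_apply, smul_eq_mul]
  have hex : ∃ t, eB J a * s x t * eB J a ≠ 0 := by
    by_contra hn
    push Not at hn
    apply hx
    have h1 : Finsupp.linearCombination J.B id (s x) = x := LinearMap.congr_fun hs x
    rw [← h1, Finsupp.linearCombination_apply, Finsupp.sum]
    refine Finset.sum_eq_zero fun t _ => ?_
    have h2 : s x t = ∑ j, eB J a * s x t * eB J j := by
      rw [← Finset.mul_sum, sum_e, mul_one, hsx]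
    rw [h2, Finset.sum_smul]
    refine Finset.sum_eq_zero fun j _ => ?_
    by_cases hj : j = a
    · rw [hj, hn, zero_smul]
    · by_cases h0 : eB J a * s x t * eB J j = 0
      · rw [h0, zero_smul]
      · rw [mul_smul, h j hj (succ_of_ne J h0), smul_zero]
  obtain ⟨t, ht⟩ := hex
  obtain ⟨c, hc1, hc2⟩ := exists_right_inv J hd ht
  refine ⟨{ toFun := fun y => ⟨s y t * c, ?_⟩, map_add' := ?_, map_smul' := ?_ }, ?_⟩
  · change s y t * c * eB J a = s y t * c
    rw [mul_assoc, hc1]
  · intro y z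
    apply Subtype.ext
    change s (y + z) t * c = s y t * c + s z t * c
    rw [map_add, Finsupp.add_apply, add_mul]
  · intro b y
    apply Subtype.ext
    change s (b • y) t * c = b * (s y t * c)
    rw [map_smul, Finsupp.smul_apply, smul_eq_mul, mul_assoc]
  · change s x t * c = eB J a
    rw [← hsx, hc2]

section fin
variable {J}

theorem fin_hom (X Y : Type) [AddCommGroup X] [Module k X] [Module J.B X] [IsScalarTower k J.B X]
    [Module.Finite k X] [AddCommGroup Y] [Module k Y] [Module J.B Y] [IsScalarTower k J.B Y]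
    [Module.Finite k Y] : Module.Finite k (X →ₗ[J.B] Y) :=
  Module.Finite.of_injective (LinearMap.restrictScalarsₗ k J.B X Y k)
    (LinearMap.restrictScalars_injective k)

theorem fin_sub {X : Type} [AddCommGroup X] [Module k X] [Module J.B X] [IsScalarTower k J.B X]
    [Module.Finite k X] (W : Submodule J.B X) : Module.Finite k W :=
  Module.Finite.of_injective (W.subtype.restrictScalars k) Subtype.val_injective

theorem finrank_src {X X₁ X₂ : Type} [AddCommGroup X] [Module J.B X]
    [AddCommGroup X₁] [Module k X₁] [Module J.B X₁] [IsScalarTower k J.B X₁] [Module.Finite k X₁]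
    [AddCommGroup X₂] [Module k X₂] [Module J.B X₂] [IsScalarTower k J.B X₂] [Module.Finite k X₂]
    (e : X ≃ₗ[J.B] X₁ × X₂) (Y : Type) [AddCommGroup Y] [Module k Y] [Module J.B Y]
    [IsScalarTower k J.B Y] [Module.Finite k Y] :
    finrank k (X →ₗ[J.B] Y) = finrank k (X₁ →ₗ[J.B] Y) + finrank k (X₂ →ₗ[J.B] Y) := by
  have := fin_hom (J := J) X₁ Y
  have := fin_hom (J := J) X₂ Y
  rw [← Module.finrank_prod, (LinearMap.coprodEquiv k).finrank_eq]
  exact (LinearEquiv.congrLeft Y k e).finrank_eq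

/-- Composition with an isomorphism. -/
def post {X X' : Type} [AddCommGroup X] [Module k X] [Module J.B X] [IsScalarTower k J.B X]
    [AddCommGroup X'] [Module k X'] [Module J.B X'] [IsScalarTower k J.B X']
    (e : X ≃ₗ[J.B] X') (Y : Type) [AddCommGroup Y] [Module J.B Y] :
    (Y →ₗ[J.B] X) ≃ₗ[k] (Y →ₗ[J.B] X') where
  toFun f := e.toLinearMap ∘ₗ f
  invFun f := e.symm.toLinearMap ∘ₗ f
  map_add' f g := LinearMap.ext fun y => by simp
  map_smul' c f := LinearMap.ext fun y => e.toLinearMap.map_smul_of_tower c _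
  left_inv f := LinearMap.ext fun y => by simp
  right_inv f := LinearMap.ext fun y => by simp

theorem finrank_tgt {X X₁ X₂ : Type} [AddCommGroup X] [Module k X] [Module J.B X]
    [IsScalarTower k J.B X]
    [AddCommGroup X₁] [Module k X₁] [Module J.B X₁] [IsScalarTower k J.B X₁] [Module.Finite k X₁]
    [AddCommGroup X₂] [Module k X₂] [Module J.B X₂] [IsScalarTower k J.B X₂] [Module.Finite k X₂]
    (e : X ≃ₗ[J.B] X₁ × X₂) (Y : Type) [AddCommGroup Y] [Module k Y] [Module J.B Y]
    [IsScalarTower k J.B Y] [Module.Finite k Y] :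
    finrank k (Y →ₗ[J.B] X) = finrank k (Y →ₗ[J.B] X₁) + finrank k (Y →ₗ[J.B] X₂) := by
  have := fin_hom (J := J) Y X₁
  have := fin_hom (J := J) Y X₂
  rw [← Module.finrank_prod, (LinearMap.prodEquiv k).finrank_eq]
  exact (post e Y).finrank_eq

theorem finrank_lt {X X₁ X₂ : Type} [AddCommGroup X] [Module k X] [Module J.B X]
    [IsScalarTower k J.B X]
    [AddCommGroup X₁] [Module k X₁] [Module J.B X₁] [IsScalarTower k J.B X₁] [Module.Finite k X₁]
    [AddCommGroup X₂] [Module k X₂] [Module J.B X₂] [IsScalarTower k J.B X₂] [Module.Finite k X₂]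
    [Nontrivial X₂] (e : X ≃ₗ[J.B] X₁ × X₂) : finrank k X₁ < finrank k X := by
  have h1 : finrank k X = finrank k X₁ + finrank k X₂ := by
    rw [← Module.finrank_prod]
    exact (e.restrictScalars k).finrank_eq
  have h2 : 0 < finrank k X₂ := Module.finrank_pos
  omega

end fin

/-- The idempotent as a generator of its left ideal. -/
noncomputable def gn (i : ι) : Be J (eB J i) := ⟨eB J i, e_self J i⟩

theorem smul_gn {i : ι} (b : Be J (eB J i)) : b.1 • gn J i = b := Subtype.ext b.2

/-- Maps between the left ideals are the blocks of the algebra. -/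
noncomputable def homEquiv (i j : ι) :
    (Be J (eB J j) →ₗ[J.B] Be J (eB J i)) ≃ₗ[k] J.H i j where
  toFun f := ⟨(f (gn J j)).1.1, by
    have h1 : (f (gn J j)).1 * eB J i = (f (gn J j)).1 := (f (gn J j)).2
    have h2 : eB J j * (f (gn J j)).1 = (f (gn J j)).1 := by
      have : f (eB J j • gn J j) = f (gn J j) := congrArg f (smul_gn J (gn J j))
      rw [map_smul] at this
      exact congrArg Subtype.val this
    have := mem_H J i j (f (gn J j)).1
    rwa [h2, h1] at this⟩
  invFun h :=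
    { toFun := fun b => ⟨b.1 * ⟨h.1, h.2.1⟩, by
        change b.1 * ⟨h.1, h.2.1⟩ * eB J i = b.1 * ⟨h.1, h.2.1⟩
        rw [mul_assoc, right_of_eq J (H_eq J h.2)]⟩
      map_add' := fun a b => Subtype.ext (add_mul a.1 b.1 _)
      map_smul' := fun a b => Subtype.ext (mul_assoc a b.1 _) }
  map_add' f g := rfl
  map_smul' c f := rfl
  left_inv f := LinearMap.ext fun b => Subtype.ext (by
    change b.1 * (f (gn J j)).1 = (f b).1
    conv_rhs => rw [← smul_gn J b, map_smul]
    rfl)
  right_inv h := Subtype.ext (by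
    have := congrArg Subtype.val (left_of_eq J (H_eq J h.2))
    exact this)

theorem part_b [FiniteDimensional k F] [Fintype ι] (hJ : Dir J) (n : ℕ) :
    ∀ (X : Type) [AddCommGroup X] [Module k X] [Module J.B X] [IsScalarTower k J.B X]
      [Module.Projective J.B X] [Module.Finite k X], finrank k X = n → ∃ d, IsDim J X d := by
  classical
  induction n using Nat.strong_induction_on with
  | _ n ih =>
  intro X _ _ _ _ _ _ hn
  rcases subsingleton_or_nontrivial X with hX | hX
  · refine ⟨0, fun Y _ _ _ _ _ => ?_, fun j => ?_, fun x => ?_⟩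
    · simp [Module.finrank_zero_of_subsingleton]
    · simp [Module.finrank_zero_of_subsingleton]
    · rw [Subsingleton.elim x 0]
      exact Submodule.zero_mem _
  obtain ⟨rk, hrk⟩ := hJ.rk
  obtain ⟨x₀, hx₀⟩ := exists_ne (0 : X)
  have hne : (Finset.univ.filter fun a : ι => ∃ y : X, eB J a • y ≠ 0).Nonempty := by
    by_contra hn
    apply hx₀
    rw [← one_smul J.B x₀, ← sum_e, Finset.sum_smul]
    refine Finset.sum_eq_zero fun a _ => ?_
    by_contra h0
    exact hn ⟨a, Finset.mem_filter.2 ⟨Finset.mem_univ _, x₀, h0⟩⟩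
  obtain ⟨a, ha, hmax⟩ := Finset.exists_max_image _ rk hne
  obtain ⟨y₀, hy₀⟩ := (Finset.mem_filter.1 ha).2
  have hax : eB J a • eB J a • y₀ = eB J a • y₀ := by rw [← mul_smul, e_self]
  obtain ⟨r, hr⟩ := part_a J X a (hJ.div a) (eB J a • y₀) (fun j hj hs y => by
    by_contra h0
    have h1 := hmax j (Finset.mem_filter.2 ⟨Finset.mem_univ _, y, h0⟩)
    obtain ⟨b, hb, p, q, hp, hq, h⟩ := hs
    have h2 := hrk b hb q p h (by rw [hp, hq]; exact hj.symm)
    rw [hp, hq] at h2
    omega) hy₀ hax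
  set x := eB J a • y₀ with hxdef
  let σ : Be J (eB J a) →ₗ[J.B] X := (LinearMap.toSpanSingleton J.B X x) ∘ₗ (Be J (eB J a)).subtype
  have hσ : ∀ b, σ b = b.1 • x := fun b => rfl
  have hrσ : ∀ b, r (σ b) = b := fun b => Subtype.ext (by
    rw [hσ, map_smul]
    change b.1 * (r x).1 = b.1
    rw [hr]
    exact b.2)
  let π : X →ₗ[J.B] LinearMap.ker r := (LinearMap.id - σ ∘ₗ r).codRestrict _ fun y => by
    simp [hrσ]
  have hπ : ∀ y, (π y).1 = y - σ (r y) := fun y => rfl
  have hπu : ∀ u : LinearMap.ker r, π u.1 = u := fun u => Subtype.ext (by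
    rw [hπ, LinearMap.mem_ker.1 u.2, map_zero, sub_zero])
  let e : X ≃ₗ[J.B] LinearMap.ker r × Be J (eB J a) :=
    LinearEquiv.ofLinearMap (π.prod r) ((LinearMap.ker r).subtype.coprod σ)
      (LinearMap.ext fun u => Prod.ext (by
        change π (u.1.1 + σ u.2) = u.1
        rw [map_add, hπu]
        have : π (σ u.2) = 0 := Subtype.ext (by rw [hπ, hrσ, sub_self]; rfl)
        rw [this, add_zero]) (by
        change r (u.1.1 + σ u.2) = u.2
        rw [map_add, hrσ, LinearMap.mem_ker.1 u.1.2, zero_add]))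
      (LinearMap.ext fun y => by
        change (π y).1 + σ (r y) = y
        rw [hπ, sub_add_cancel])
  have : Module.Finite k (LinearMap.ker r) := fin_sub _
  have hfin : ∀ j, Module.Finite k (Be J (eB J j)) := fun j => fin_sub _
  have : Module.Projective J.B (LinearMap.ker r) :=
    Module.Projective.of_split (LinearMap.ker r).subtype π (LinearMap.ext hπu)
  have hlt : finrank k (LinearMap.ker r) < n := by
    have : Nontrivial (Be J (eB J a)) := ⟨gn J a, 0, fun h => hy₀ (by
      have h2 : eB J a = 0 := congrArg Subtype.val h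
      rw [hxdef, h2, zero_smul])⟩
    exact hn ▸ finrank_lt (J := J) (X₁ := LinearMap.ker r) (X₂ := Be J (eB J a)) e
  obtain ⟨d, hd⟩ := ih _ hlt (LinearMap.ker r) rfl
  have hsum : ∀ f : ι → ℕ, ∑ i, (d + Pi.single a 1 : ι → ℕ) i * f i = ∑ i, d i * f i + f a := by
    intro f
    simp [add_mul, Finset.sum_add_distrib, Pi.single_apply]
  refine ⟨d + Pi.single a 1, fun Y _ _ _ _ _ => ?_, fun j => ?_, fun y => ?_⟩
  · rw [hsum, ← hd.src Y]
    exact finrank_src (J := J) (X₁ := LinearMap.ker r) (X₂ := Be J (eB J a)) e Y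
  · rw [hsum, ← hd.tgt j, ← (homEquiv J a j).finrank_eq]
    exact finrank_tgt (J := J) (X₁ := LinearMap.ker r) (X₂ := Be J (eB J a)) e (Be J (eB J j))
  · have h1 : y = (π y).1 + (r y).1 • x := by rw [hπ, hσ, sub_add_cancel]
    rw [h1]
    refine Submodule.add_mem _ ?_ (Submodule.smul_mem _ _ (Submodule.subset_span ⟨a, by simp, hax⟩))
    have h2 := Submodule.apply_mem_span_image_of_mem_span (LinearMap.ker r).subtype (hd.gen (π y))
    refine Submodule.span_mono ?_ h2
    rintro _ ⟨u, ⟨i, hi, hu⟩, rfl⟩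
    refine ⟨i, ?_, congrArg Subtype.val hu⟩
    simp [hi]

end KPrAux

theorem kpr : KPr := by
  intro k F _ _ _ _ Pt ι Ω _ _ _ J hJ X _ _ _ _ _ _
  exact ⟨fun a x h hx hax => KPrAux.part_a J X a (hJ.div a) x h hx hax,
    KPrAux.part_b J hJ _ X rfl⟩

end Pool.Agent.MP_bd94e8_al.H6K
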