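import Pool.Agent.MP_bd94e8_al.H6K.Ra2

/-!
The induction step for the separation condition, as a statement.
-/

set_option autoImplicit false

namespace Pool.Agent.MP_bd94e8_al.H6K

open CategoryTheory Module Pool.Agent.MP_bd94e8_al.H89

/-- The projective triple of a source is good. -/
def KSep : Prop := ∀ (k F : Type) [Field k] [Field F] [Algebra k F] [FiniteDimensional k F]
  (Pt ι Ω : Type) [Fintype Pt] [DecidableEq Pt] [Fintype ι] [Fintype Ω] (J : Prob k F Pt ι Ω),
  Dir J → Sep J → ∀ (S : Set ι) (a : ι), Closed J S → a ∈ S → (∀ j ∈ S, j ≠ a → ¬ J.Succ j a) →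
  (∀ M : Tri J, IndS (S \ {a}) M → Good (IndS (S \ {a})) M) → Good (IndS S) (K6.Ra J a)

end Pool.Agent.MP_bd94e8_al.H6K
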