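import Pool.Agent.MP_bd94e8_al.H6K.Sep1
import Pool.Agent.MP_bd94e8_al.H6K.KSepDef
import Pool.Agent.MP_bd94e8_al.H6K.KDec
import Pool.Agent.MP_bd94e8_al.H6K.KPr

/-!
The projective triple of a source is good.
-/

set_option autoImplicit false
set_option linter.unusedSectionVars false
set_option linter.unusedVariables false

namespace Pool.Agent.MP_bd94e8_al.H6K

open CategoryTheory Module Pool.Agent.MP_bd94e8_al.H89 Tri

namespace K6

variable {k F : Type} [Field k] [Field F] [Algebra k F] [FiniteDimensional k F] {Pt ι Ω : Type}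
  [Fintype Pt] [DecidableEq Pt] {J : Prob k F Pt ι Ω} [Fintype Ω] [Fintype ι]

theorem exists_inv {M N : Tri J} (c : M ⟶ N) (hc : Function.Bijective (hv c)) :
    ∃ w : N.V →ₗ[F] M.V, (∀ v, w (hv c v) = v) ∧ ∀ v, hv c (w v) = v :=
  ⟨(LinearEquiv.ofBijective (hv c) hc).symm, (LinearEquiv.ofBijective (hv c) hc).symm_apply_apply,
    (LinearEquiv.ofBijective (hv c) hc).apply_symm_apply⟩

theorem closed_diff {S : Set ι} {a : ι} (hS : Closed J S) (src : ∀ j ∈ S, j ≠ a → ¬ J.Succ j a) :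
    Closed J (S \ {a}) := fun i hi j hij =>
  ⟨hS i hi.1 j hij, fun e : j = a => src i hi.1 hi.2 (e ▸ hij)⟩

/-- The part of a module that is killed by the idempotent of a source. -/
def rad {S : Set ι} {a : ι} (src : ∀ j ∈ S, j ≠ a → ¬ J.Succ j a) {M : Tri J} (hM : InS S M) :
    Submodule J.B M.X where
  carrier := {x | eB J a • x = 0}
  add_mem' := fun {x y} hx hy => by
    change eB J a • (x + y) = 0
    rw [smul_add, hx, hy, add_zero]
  zero_mem' := smul_zero _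
  smul_mem' := fun b x hx => by
    change eB J a • b • x = 0
    rw [← one_smul J.B x, ← sum_eB, Finset.sum_smul, Finset.smul_sum, Finset.smul_sum]
    refine Finset.sum_eq_zero fun j _ => ?_
    by_cases e : j = a
    · rw [e, hx, smul_zero, smul_zero]
    · by_cases hj : j ∈ S
      · have : eB J a * b * eB J j = 0 := by
          by_contra h
          exact src j hj e (succ_of_ne h)
        rw [← mul_smul, ← mul_smul, this, zero_smul]
      · rw [hM j hj, smul_zero, smul_zero]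

theorem exists_radcov {S : Set ι} {a : ι} (hS : Closed J S) (src : ∀ j ∈ S, j ≠ a → ¬ J.Succ j a)
    {M : Tri J} (hM : InS S M) : ∃ (L : Tri J) (c : L ⟶ M), InS (S \ {a}) L ∧
      Function.Bijective (hv c) ∧ (∀ x, eB J a • hx c x = 0) ∧
      ∀ y, eB J a • y = 0 → ∃ x, hx c x = y :=
  exists_cov (closed_diff hS src) M (rad src hM) fun j hj y hy => by
    by_cases e : j = a
    · rw [e]; exact hy
    · exact hM j (fun t => hj ⟨t, e⟩) y

theorem zero_of_ker (hJ : Dir J) {S : Set ι} {a : ι} (src : ∀ j ∈ S, j ≠ a → ¬ J.Succ j a)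
    {M Y : Tri J} (hM : IndS S M) {x : M.X} (hx0 : eB J a • x ≠ 0)
    (hk : ∀ y, eB J a • y = y → M.φ y = 0) (hY : ∀ y : Y.X, eB J a • y = 0) (f : M ⟶ Y) :
    f = 0 := by
  have h1 : eB J a • eB J a • x = eB J a • x := by rw [← mul_smul, eB_eB]
  obtain ⟨r, hr⟩ := (kpr k F Pt ι Ω J hJ M.X).1 a _
    (fun j hj hs y => hM.1 j (fun t => src j t hj hs) y) hx0 h1
  let b : M ⟶ M := mkHom
    (LinearMap.toSpanSingleton J.B M.X (eB J a • x) ∘ₗ (Be J (eB J a)).subtype ∘ₗ r) 0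
    (fun o v => by simp) fun y p => by
      change M.φ ((r y).1 • eB J a • x) p = 0
      rw [map_smul, hk _ h1, smul_zero]
      rfl
  have hb : ∀ y, hx b y = (r y).1 • eB J a • x := fun y => rfl
  rcases hM.2.2 b with h | h
  · rw [← cancel_epi b, Limits.comp_zero]
    refine hom_ext (fun y => ?_) fun v => map_zero (hv f)
    change hx f (hx b y) = 0
    rw [hb, map_smul, map_smul, hY, smul_zero]
  · refine (hx0 ((hx_bij (𝟙 M - b)).1 ?_)).elim
    rw [map_zero]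
    change eB J a • x - hx b _ = 0
    rw [hb, hr, h1, sub_self]

theorem lift_proj {M : Tri J} (π : M.V →ₗ[F] M.V) (hπ : Cmp M M π)
    (h : ∀ x, ∃ y, ∀ p, M.φ y p = π (M.φ x p)) : ∃ θ : M ⟶ M, hv θ = π := by
  obtain ⟨g, hg⟩ := Module.projective_lifting_property M.φ.rangeRestrict
    (LinearMap.codRestrict (LinearMap.range M.φ) (Lm.map J π ∘ₗ M.φ) fun x => by
      obtain ⟨y, hy⟩ := h x
      exact ⟨y, Lm.ext hy⟩) (LinearMap.surjective_rangeRestrict _)
  exact ⟨mkHom g π hπ fun x p =>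
    congrFun (congrArg Subtype.val (LinearMap.congr_fun hg x)) p, rfl⟩

theorem ker_add {M Y : Tri J} (hM : Loc M) (f : M ⟶ Y) (hV : ∃ v : M.V, v ≠ 0)
    (h : ∀ x, ∃ y z, hx f y = 0 ∧ M.φ z = 0 ∧ x = y + z) (x : M.X) : hx f x = 0 := by
  obtain ⟨σ, hσ⟩ := Module.projective_lifting_property
    ((LinearMap.ker (hx f)).subtype.coprod (LinearMap.ker M.φ).subtype) LinearMap.id fun x => by
      obtain ⟨y, z, hy, hz, e⟩ := h x
      exact ⟨(⟨y, hy⟩, ⟨z, hz⟩), e.symm⟩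
  let b : M ⟶ M := mkHom ((LinearMap.ker M.φ).subtype ∘ₗ LinearMap.snd _ _ _ ∘ₗ σ) 0
    (fun o v => by simp) fun y p => by
      change M.φ (σ y).2.1 p = 0
      rw [(σ y).2.2]
      rfl
  rcases hM.2 b with e | e
  · obtain ⟨v, hv0⟩ := hV
    exact (hv0 ((hv_bij b).1 (by rw [map_zero]; rfl))).elim
  · obtain ⟨y, rfl⟩ := (hx_bij (𝟙 M - b)).2 x
    have e1 : (σ y).1.1 + (σ y).2.1 = y := LinearMap.congr_fun hσ y
    change hx f (y - (σ y).2.1) = 0
    rw [sub_eq_of_eq_add e1.symm]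
    exact (σ y).1.2

variable {S : Set ι} {a : ι} {R : Tri J} {c : R ⟶ Ra J a}

theorem hit (hJ : Dir J) (hS : Closed J S) (src : ∀ j ∈ S, j ≠ a → ¬ J.Succ j a)
    (hc : Function.Bijective (hv c)) (hr : ∀ x, eB J a • hx c x = 0)
    (D : Dcp (IndS (S \ {a})) R) {M Y : Tri J} (hM : IndS S M) {x₀ : M.X} (hx0 : eB J a • x₀ ≠ 0)
    (hY : ∀ y : Y.X, eB J a • y = 0) (f : M ⟶ Y) (hf : f ≠ 0) :
    ∃ (M₁ : Tri J) (u : M₁ ⟶ M) (s : Fin D.n), IndS (S \ {a}) M₁ ∧ (∃ v : (D.Y s).V, v ≠ 0) ∧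
      u ≫ f ≠ 0 ∧ ∃ w : D.Y s ⟶ M₁, w ≠ 0 := by
  classical
  obtain ⟨M', c', hM', hc', hr', hs'⟩ := exists_radcov hS src hM.1
  obtain ⟨D'⟩ := (kdec k F Pt ι Ω J).2.2 _ M' hM'
  obtain ⟨w', hw, hw'⟩ := exists_inv c' hc'
  let Hit : Fin D'.n → Prop := fun t => ∃ s, (∃ v : (D.Y s).V, v ≠ 0) ∧ ∃ w : D.Y s ⟶ D'.Y t, w ≠ 0
  by_contra hcon
  have hz : ∀ t, Hit t → D'.inc t ≫ c' ≫ f = 0 := by
    rintro t ⟨s, hs, w, hw⟩
    by_contra e
    exact hcon ⟨D'.Y t, D'.inc t ≫ c', s, D'.mem t, hs, by rwa [Category.assoc], w, hw⟩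
  let eH : M' ⟶ M' := ∑ t ∈ Finset.univ.filter Hit, D'.prj t ≫ D'.inc t
  have eH1 : eH ≫ c' ≫ f = 0 := by
    rw [Preadditive.sum_comp]
    exact Finset.sum_eq_zero fun t ht => by
      rw [Category.assoc, hz t (Finset.mem_filter.1 ht).2, Limits.comp_zero]
  have eH2 : eH ≫ eH = eH := by
    conv_lhs => rw [Preadditive.sum_comp]
    refine Finset.sum_congr rfl fun t ht => ?_
    rw [Category.assoc, Preadditive.comp_sum, Finset.sum_eq_single t
      (fun t' _ e => by rw [← Category.assoc, D'.orth t t' e.symm, Limits.zero_comp])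
      (fun e => (e ht).elim), ← Category.assoc (D'.inc t), D'.self, Category.id_comp]
  let π : M.V →ₗ[F] M.V := hv c' ∘ₗ hv eH ∘ₗ w'
  have hπ : ∀ v, π (hv c' v) = hv c' (hv eH v) := fun v => by
    change hv c' (hv eH (w' (hv c' v))) = _
    rw [hw]
  have πc : Cmp M M π := fun o v => by
    rw [← hw' v, ← hv_cmp c', hπ, hπ, hv_cmp eH, hv_cmp c']
  have cl1 : ∀ x, eB J a • x = x → ∀ p, π (M.φ x p) = M.φ x p := by
    intro x e p
    obtain ⟨z, hz'⟩ := lift_cov c' hc' (c ≫ toM a M x) fun y => hs' _ (by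
      change eB J a • (hx c y : Be J (eB J a)).1 • x = 0
      have : eB J a * (hx c y : Be J (eB J a)).1 = 0 := congrArg Subtype.val (hr y)
      rw [← mul_smul, this, zero_smul])
    have e0 : ∀ t, ¬ Hit t → ∀ v, hv (D'.prj t) (hv z v) = 0 := fun t ht v => by
      change hv (z ≫ D'.prj t) v = 0
      rw [← Category.id_comp (z ≫ D'.prj t), ← D.sum, Preadditive.sum_comp, hv_sum,
        LinearMap.sum_apply]
      refine Finset.sum_eq_zero fun s _ => ?_
      by_cases hs : ∃ v : (D.Y s).V, v ≠ 0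
      · have : D.inc s ≫ z ≫ D'.prj t = 0 := by
          by_contra e'
          exact ht ⟨s, hs, _, e'⟩
        rw [Category.assoc, this, Limits.comp_zero]
        rfl
      · push Not at hs
        rw [Category.assoc, hv_comp, LinearMap.comp_apply, hs (hv (D.prj s) v), map_zero]
    have e1 : ∀ v, hv eH (hv z v) = hv z v := fun v => by
      have := LinearMap.congr_fun (congrArg hv D'.sum) (hv z v)
      rw [hv_id, LinearMap.id_apply] at this
      conv_rhs => rw [← this]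
      rw [hv_sum, hv_sum, LinearMap.sum_apply, LinearMap.sum_apply, Finset.sum_filter]
      refine Finset.sum_congr rfl fun t _ => ?_
      split_ifs with ht
      · rfl
      · rw [hv_comp, LinearMap.comp_apply, e0 t ht, map_zero]
    obtain ⟨v, hv0⟩ := hc.2 ((Ra J a).φ (gen J a) p)
    have e2 : M.φ x p = hv c' (hv z v) := by
      have h1 := hφ (toM a M x) (gen J a) p
      have h2 : hx (toM a M x) (gen J a) = x := e
      rw [h2, ← hv0] at h1
      exact h1.trans (LinearMap.congr_fun (congrArg hv hz') v).symm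
    rw [e2, hπ, e1]
  have ee : ∀ x : M.X, eB J a • eB J a • x = eB J a • x := fun x => by rw [← mul_smul, eB_eB]
  have dec : ∀ x : M.X, ∃ x', x = eB J a • x + hx c' x' := fun x => by
    obtain ⟨x', e⟩ := hs' (x - eB J a • x) (by rw [smul_sub, ee, sub_self])
    exact ⟨x', by rw [e]; abel⟩
  obtain ⟨θ, hθ⟩ := lift_proj π πc fun x => by
    obtain ⟨x', e⟩ := dec x
    refine ⟨eB J a • x + hx c' (hx eH x'), fun p => ?_⟩
    conv_rhs => rw [e]
    rw [map_add, map_add, Lm.add_apply, Lm.add_apply, map_add, cl1 _ (ee x), hφ, hφ, hφ, hπ]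
  by_cases hV : ∃ v : M.V, v ≠ 0
  swap
  · push Not at hV
    exact hf (zero_of_ker hJ src hM hx0 (fun y _ => Lm.ext fun p => hV _) hY f)
  rcases hM.2.2 θ with h | h
  · have π1 : ∀ v, π v = v := fun v => by
      have := (hv_bij θ).1
      rw [hθ] at this
      apply this
      rw [← hw' v, hπ, hπ]
      exact congrArg (hv c') (LinearMap.congr_fun (congrArg hv eH2) _)
    refine hf (hom_ext (ker_add hM.2 f hV fun x => ?_) fun v => ?_)
    · obtain ⟨x', e⟩ := dec x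
      refine ⟨eB J a • x + hx c' (hx eH x'), hx c' x' - hx c' (hx eH x'), ?_, Lm.ext fun p => ?_,
        by conv_lhs => rw [e]
           abel⟩
      · rw [map_add, map_smul, hY, zero_add]
        exact LinearMap.congr_fun (congrArg hx eH1) x'
      · rw [map_sub, Lm.sub_apply, hφ, hφ, hφ, ← hπ, π1, sub_self]
        rfl
    · rw [← π1 v, ← hw' v, hπ]
      exact LinearMap.congr_fun (congrArg hv eH1) _
  · refine hf (zero_of_ker hJ src hM hx0 (fun y e => Lm.ext fun p => (hv_bij (𝟙 M - θ)).1 ?_) hY f)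
    rw [hv_sub, hθ, LinearMap.sub_apply, cl1 y e, Lm.zero_apply, map_zero]
    exact sub_self _

theorem back (hsep : Sep J) (hS : Closed J S) (src : ∀ j ∈ S, j ≠ a → ¬ J.Succ j a)
    (hc : Function.Bijective (hv c)) (hr : ∀ x, eB J a • hx c x = 0)
    (hs : ∀ y, eB J a • y = 0 → ∃ x, hx c x = y) (D : Dcp (IndS (S \ {a})) R) {s t : Fin D.n}
    (h1 : ∃ v : (D.Y s).V, v ≠ 0) (h2 : ∃ v : (D.Y t).V, v ≠ 0)
    (hle : Le (IndS (S \ {a})) (D.Y s) (D.Y t)) : ∃ f : D.Y t ⟶ D.Y s, f ≠ 0 := by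
  obtain ⟨L, l, hl, hE⟩ := hsep a
  obtain ⟨w, hw, hw'⟩ := exists_inv c hc
  have hS' := closed_diff hS src
  obtain ⟨v, hv0⟩ := h1
  obtain ⟨o, ho⟩ : ∃ o, (D.Y s).ε o v ≠ 0 := by
    by_contra h
    push Not at h
    exact hv0 (by rw [← eps_sum _ v]; exact Finset.sum_eq_zero fun o _ => h o)
  have nr : ∀ i ∈ S \ {a}, ¬ Relation.ReflTransGen J.Succ i a := fun i hi h => by
    have : ∀ j, Relation.ReflTransGen J.Succ i j → j ∈ S \ {a} := fun j hj => by
      induction hj with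
      | refl => exact hi
      | tail _ e ih => exact hS' _ ih _ e
    exact (this a h).2 rfl
  let A : Set Ω := {o' | l o' = l o}
  let T : Set ι := {j | j ∈ S \ {a} ∧ ∃ p, J.vt p = j ∧ J.pk p ∈ A}
  have lab : Lab J (S \ {a}) T A := fun p =>
    ⟨fun ⟨e1, q, e2, e3⟩ => ⟨e1, (hl p q e2.symm (nr _ e1)).trans e3⟩,
      fun ⟨e1, e2⟩ => ⟨e1, p, rfl, e2⟩⟩
  have on1 : On T A (D.Y s) := (on_or_off lab hS' (D.mem s)).resolve_right fun e => ho (by
    have := e.2 ((D.Y s).ε o v)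
    rwa [εA_eps, if_pos (show o ∈ A from rfl)] at this)
  have on2 : On T A (D.Y t) := on_le lab hS' hle on1
  have idem : ∀ n, mat (cj c w (D.prj n ≫ D.inc n)) * mat (cj c w (D.prj n ≫ D.inc n)) =
      mat (cj c w (D.prj n ≫ D.inc n)) := fun n => by
    rw [← mat_comp]
    refine congrArg mat (LinearMap.ext fun r => ?_)
    change hv c (hv (D.inc n) (hv (D.prj n) (w (hv c (hv (D.inc n) (hv (D.prj n) (w r))))))) = _
    rw [hw]
    exact congrArg (fun z => hv c (hv (D.inc n) z))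
      (LinearMap.congr_fun (congrArg hv (D.self n)) _)
  have ne : ∀ n, (∃ v : (D.Y n).V, v ≠ 0) → mat (cj c w (D.prj n ≫ D.inc n)) ≠ 0 := by
    rintro n ⟨u, hu⟩
    refine mat_ne fun e => hu ?_
    have e1 : hv c (hv (D.inc n) (hv (D.prj n) (w (hv c (hv (D.inc n) u))))) = 0 :=
      LinearMap.congr_fun e (hv c (hv (D.inc n) u))
    have e2 : hv (D.prj n) (hv (D.inc n) u) = u := LinearMap.congr_fun (congrArg hv (D.self n)) u
    rw [hw, e2] at e1
    rw [← e2, hc.1 (e1.trans (map_zero _).symm), map_zero]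
  have sup : ∀ n, On T A (D.Y n) → ∀ q p, mat (cj c w (D.prj n ≫ D.inc n)) q p ≠ 0 →
      l (J.pk p) = l o := fun n hn q p e => by
    by_contra e'
    apply e
    have key : ∀ u : (D.Y n).V, (hv c (hv (D.inc n) u) : Va J a).1 p = 0 := fun u => by
      rw [← hn.2 u, cmp_εA (hv_cmp _), cmp_εA (hv_cmp _)]
      generalize hv c (hv (D.inc n) u) = r
      have h3 : ∀ r : (Ra J a).V, ((Ra J a).ε (J.pk p) r : Va J a).1 p = (r : Va J a).1 p :=
        fun r => if_pos rfl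
      rw [← h3, ← εA_cmp, εA_eps, if_neg (show J.pk p ∉ A from e')]
      rfl
    exact key _
  obtain ⟨h, hh, hne⟩ := hE _ _ (cj_endr hw hw' hs (D.prj t ≫ D.inc t))
    (cj_endr hw hw' hs (D.prj s ≫ D.inc s)) (idem t) (idem s) (ne t h2) (ne s ⟨v, hv0⟩)
    ⟨l o, fun q p e => e.elim (sup t on2 q p) (sup s on1 q p)⟩
  obtain ⟨θ, rfl⟩ := endr_lift hw hw' hr hs hh
  refine ⟨D.inc t ≫ θ ≫ D.prj s, fun e => hne ?_⟩
  rw [← mat_comp, ← mat_comp]
  ext q p
  change (hv c (hv (D.inc s) (hv (D.prj s) (w (hv c (hv θ (w (hv c (hv (D.inc t)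
    (hv (D.prj t) (w (rows J a (gen J a) q))))))))))) : Va J a).1 p = 0
  rw [hw, hw]
  have : ∀ u, hv (D.prj s) (hv θ (hv (D.inc t) u)) = 0 := fun u =>
    LinearMap.congr_fun (congrArg hv e) u
  rw [this, map_zero, map_zero]
  rfl

end K6

open K6 in
theorem ksep : KSep := by
  intro k F _ _ _ _ Pt ι Ω _ _ _ _ J hJ hsep S a hS ha src hG
  obtain ⟨R, c, hR, hc, hr, hs⟩ := exists_radcov hS src (Ra_in hS ha)
  obtain ⟨D⟩ := (kdec k F Pt ι Ω J).2.2 _ R hR
  have up : ∀ {M : Tri J}, IndS (S \ {a}) M → IndS S M := fun h =>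
    ⟨InS.mono Set.sdiff_subset h.1, h.2⟩
  have key : ∀ (t : Fin D.n), (∃ v : (D.Y t).V, v ≠ 0) → ∀ Y, IndS (S \ {a}) Y →
      Le (IndS (S \ {a})) Y (D.Y t) → ∀ M, IndS S M → ∀ f : M ⟶ Y, f ≠ 0 → ¬ IsIso f →
      InS (S \ {a}) M := by
    intro t ht Y hY hle M hM f hf hn j hj x
    by_cases e : j = a
    swap
    · exact hM.1 j (fun t => hj ⟨t, e⟩) x
    subst e
    by_contra hx0
    obtain ⟨M₁, u, s, h1, h2, h3, w, hw⟩ :=
      hit hJ hS src hc hr D hM hx0 (fun y => hY.1 j hj y) f hf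
    obtain ⟨g, hg⟩ := back hsep hS src hc hr hs D h2 ht
      (Relation.ReflTransGen.head ⟨D.mem s, h1, w, hw⟩
        (Relation.ReflTransGen.head ⟨h1, hY, _, h3⟩ hle))
    by_cases hi : IsIso (u ≫ f)
    · have e : (inv (u ≫ f) ≫ u) ≫ f = 𝟙 Y := by rw [Category.assoc, IsIso.inv_hom_id]
      exact hn ⟨⟨_, iso_of_retr hY.2 hM.2 _ _ e, e⟩⟩
    · exact no_cycle (hG M₁ h1).2 Y ⟨h1, hY, _, h3, hi⟩
        ((hle.tail ⟨D.mem t, D.mem s, g, hg⟩).tail ⟨D.mem s, h1, w, hw⟩)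
  have acc : ∀ (t : Fin D.n), (∃ v : (D.Y t).V, v ≠ 0) → ∀ Y, Acc (Rel (IndS (S \ {a}))) Y →
      IndS (S \ {a}) Y → Le (IndS (S \ {a})) Y (D.Y t) → Acc (Rel (IndS S)) Y := by
    intro t ht Y hY
    induction hY with
    | intro Y _ ih =>
      intro h1 h2
      refine Acc.intro _ ?_
      rintro M ⟨hM, -, f, hf, hn⟩
      have hM' : IndS (S \ {a}) M := ⟨key t ht Y h1 h2 M hM f hf hn, hM.2⟩
      exact ih M ⟨hM', h1, f, hf, hn⟩ hM' (Relation.ReflTransGen.head ⟨hM', h1, f, hf⟩ h2)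
  refine ⟨⟨Ra_in hS ha, Ra_loc hJ⟩, Acc.intro _ ?_⟩
  rintro M ⟨hM, -, f, hf, hn⟩
  obtain ⟨f', rfl⟩ := lift_cov c hc f fun x => hs _ (by
    by_contra e
    refine hn (iso_right (Ra_loc hJ) hM.2 (toM a M x) f (Ra_iso hJ _ fun e' => e ?_))
    have := LinearMap.congr_fun (congrArg hx e') (gen J a)
    exact ((hx f).map_smul _ _).symm.trans this)
  obtain ⟨s, h1, h2⟩ := Dcp.exists_ne D f' c hf
  have ht : ∃ v : (D.Y s).V, v ≠ 0 := by
    by_contra h
    push Not at h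
    refine h2 (hom_ext (fun x => rows_inj _ fun q => ?_) fun v => by rw [h v, map_zero, map_zero])
    exact (hφ (D.inc s ≫ c) x q).trans (by rw [h ((D.Y s).φ x q), map_zero]; rfl)
  exact (good_of_hom hM ⟨up (D.mem s), acc s ht _ (hG _ (D.mem s)).2 (D.mem s)
    Relation.ReflTransGen.refl⟩ _ h1).2

end Pool.Agent.MP_bd94e8_al.H6K
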