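import Pool.Agent.MP_bd94e8_al.H6K.Tri

/-!
The steps of the knitting theorem as separate statements.
-/

set_option autoImplicit false
set_option linter.unusedSectionVars false

namespace Pool.Agent.MP_bd94e8_al.H6K

open CategoryTheory Module Pool.Agent.MP_bd94e8_al.H89

section defs
variable {k F : Type} [Field k] [Field F] [Algebra k F] {Pt ι Ω : Type} [Fintype Pt]
  [DecidableEq Pt] [Fintype Ω]

/-- The dimensions of the peak spaces. -/
noncomputable def dimv {J : Prob k F Pt ι Ω} (M : Tri J) (o : Ω) : ℕ :=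
  finrank F (LinearMap.range (M.ε o))

/-- The negative part of the Tits form. -/
noncomputable def qm (J : Prob k F Pt ι Ω) (d : ι → ℕ) (v : Ω → ℕ) : ℕ :=
  (∑ p, d (J.vt p) * v (J.pk p)) * finrank k F

/-- The positive part of the Tits form. -/
noncomputable def qp [Fintype ι] (J : Prob k F Pt ι Ω) (d : ι → ℕ) (v : Ω → ℕ) : ℕ :=
  (∑ o, v o ^ 2) * finrank k F + ∑ i, ∑ j, d i * d j * finrank k (J.H i j)

end defs

/-- The abstract knitting theorem. -/
def KAbs : Prop := ∀ (k : Type) [Field k] (C : Type 1) [Category.{0} C] [Preadditive C]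
  [Linear k C] (B : ExtB k C) (I : C → Prop) (c : ℕ) (D : Type) (dv : C → D), Knit B I c dv →
  ∀ X, I X → Good I X ∧ finrank k (X ⟶ X) ≤ c ∧ ∀ δ : B.E X X, δ = 0

/-- Finiteness and decompositions of triples. -/
def KDec : Prop := ∀ (k F : Type) [Field k] [Field F] [Algebra k F] [FiniteDimensional k F]
  (Pt ι Ω : Type) [Fintype Pt] [DecidableEq Pt] [Fintype Ω] (J : Prob k F Pt ι Ω),
  (∀ M N : Tri J, Module.Finite k (M ⟶ N)) ∧ (∀ M N : Tri J, Module.Finite k ((Tri.ext J).E M N)) ∧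
  ∀ (S : Set ι) (M : Tri J), InS S M → Nonempty (Dcp (IndS S) M)

/-- Every extension of triples is realized. -/
def KConf : Prop := ∀ (k F : Type) [Field k] [Field F] [Algebra k F]
  (Pt ι Ω : Type) [Fintype Pt] [DecidableEq Pt] [Fintype Ω] (J : Prob k F Pt ι Ω) (Z X : Tri J)
  (δ : (Tri.ext J).E Z X), ∃ (W : Tri J) (i : X ⟶ W) (p : W ⟶ Z), Conf (Tri.ext J) δ i p ∧
    ∀ S : Set ι, InS S Z → InS S X → InS S W

/-- Projective modules over the algebra of a directed problem. -/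
def KPr : Prop := ∀ (k F : Type) [Field k] [Field F] [Algebra k F] [FiniteDimensional k F]
  (Pt ι Ω : Type) [Fintype Pt] [DecidableEq Pt] [Fintype ι] (J : Prob k F Pt ι Ω), Dir J →
  ∀ (X : Type) [AddCommGroup X] [Module k X] [Module J.B X] [IsScalarTower k J.B X]
    [Module.Projective J.B X] [Module.Finite k X],
    (∀ (a : ι) (x : X), (∀ j, j ≠ a → J.Succ j a → ∀ y : X, eB J j • y = 0) → x ≠ 0 →
      eB J a • x = x → ∃ r : X →ₗ[J.B] Be J (eB J a), (r x).1 = eB J a) ∧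
    ∃ d, IsDim J X d

/-- The Euler form. -/
def KEul : Prop := ∀ (k F : Type) [Field k] [Field F] [Algebra k F] [FiniteDimensional k F]
  (Pt ι Ω : Type) [Fintype Pt] [DecidableEq Pt] [Fintype ι] [Fintype Ω] (J : Prob k F Pt ι Ω)
  (M N : Tri J) (d d' : ι → ℕ), IsDim J M.X d → IsDim J N.X d' →
    finrank k (M ⟶ N) + qm J d (dimv N) = finrank k ((Tri.ext J).E M N) +
      ((∑ o, dimv M o * dimv N o) * finrank k F + ∑ i, ∑ j, d i * d' j * finrank k (J.H j i))

/-- One object detects all extensions into a given object. -/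
def KGen : Prop := ∀ (k F : Type) [Field k] [Field F] [Algebra k F] [FiniteDimensional k F]
  (Pt ι Ω : Type) [Fintype Pt] [DecidableEq Pt] [Fintype ι] [Fintype Ω] (J : Prob k F Pt ι Ω)
  (S : Set ι), Closed J S → ∀ X : Tri J, ∃ Z₀ : Tri J, InS S Z₀ ∧ ∀ M : Tri J, InS S M →
    ∀ η : (Tri.ext J).E M X, η ≠ 0 → ∃ u : Z₀ ⟶ M, (Tri.ext J).pull X u η ≠ 0

/-- A weakly positive form has finitely many vectors of bounded value. -/
def KDro : Prop := ∀ (k F : Type) [Field k] [Field F] [Algebra k F]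
  (Pt ι Ω : Type) [Fintype Pt] [DecidableEq Pt] [Fintype ι] [Fintype Ω] (J : Prob k F Pt ι Ω),
  J.WP → ∀ c : ℕ, {x : (ι → ℕ) × (Ω → ℕ) | qp J x.1 x.2 ≤ c + qm J x.1 x.2}.Finite

/-- From triples to objects. -/
def KBr : Prop := ∀ (k F : Type) [Field k] [Field F] [Algebra k F] [FiniteDimensional k F]
  (Pt ι Ω : Type) [Fintype Pt] [DecidableEq Pt] [Fintype ι] [Fintype Ω] (J : Prob k F Pt ι Ω)
  (c : ℕ), (∀ N : Tri J, Loc N → finrank k (N ⟶ N) ≤ c ∧ ∃ d, IsDim J N.X d ∧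
    qm J d (dimv N) + finrank k (N ⟶ N) = qp J d (dimv N)) →
  ({x : (ι → ℕ) × (Ω → ℕ) | qp J x.1 x.2 ≤ c + qm J x.1 x.2}.Finite → J.Bnd) ∧
  (c = finrank k F → (∀ (a : F), ∀ b ∈ J.B, a • b ∈ J.B) → ∀ (V : Type) [AddCommGroup V]
    [Module F V] [FiniteDimensional F V] (M : Obj J V), M.Indec → Nice M)

end Pool.Agent.MP_bd94e8_al.H6K
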