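import Pool.Agent.MP_bd94e8_al.H6K.KSpec

/-!
Local objects, idempotents of vertices, the projective triples and covers.
-/

set_option autoImplicit false
set_option linter.unusedSectionVars false
set_option linter.unusedVariables false

namespace Pool.Agent.MP_bd94e8_al.H6K.K6

open CategoryTheory Module Pool.Agent.MP_bd94e8_al.H89 Tri

section abs
variable {C : Type 1} [Category.{0} C] [Preadditive C]

theorem idem_cases {X : C} (hX : Loc X) {e : X ⟶ X} (he : e ≫ e = e) : e = 0 ∨ e = 𝟙 X := by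
  rcases hX.2 e with h | h
  · right
    rw [← cancel_epi e, he, Category.comp_id]
  · left
    rw [← cancel_epi (𝟙 X - e), Preadditive.sub_comp, he, Category.id_comp, sub_self,
      Limits.comp_zero]

theorem iso_of_retr {X Y : C} (hX : Loc X) (hY : Loc Y) (f : X ⟶ Y) (g : Y ⟶ X)
    (h : f ≫ g = 𝟙 X) : g ≫ f = 𝟙 Y := by
  rcases idem_cases hY (e := g ≫ f) (by rw [Category.assoc, ← Category.assoc f, h,
    Category.id_comp]) with e | e
  · refine (hX.1 ?_).elim
    calc 𝟙 X = (f ≫ g) ≫ f ≫ g := by rw [h, Category.comp_id]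
      _ = f ≫ (g ≫ f) ≫ g := by simp only [Category.assoc]
      _ = 0 := by rw [e, Limits.zero_comp, Limits.comp_zero]
  · exact e

theorem iso_right {X Y : C} (hX : Loc X) (hY : Loc Y) (g : X ⟶ Y) (f : Y ⟶ X)
    (h : IsIso (g ≫ f)) : IsIso f := by
  have e : (inv (g ≫ f) ≫ g) ≫ f = 𝟙 X := by rw [Category.assoc, IsIso.inv_hom_id]
  exact ⟨⟨_, iso_of_retr hX hY _ _ e, e⟩⟩

theorem acc_iso {I : C → Prop} {X N : C} (hX : Good I X) (f : N ⟶ X) [IsIso f] :
    Acc (Rel I) N := by
  refine Acc.intro _ fun M hM => hX.2.inv ?_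
  obtain ⟨h1, -, g, hg, hn⟩ := hM
  refine ⟨h1, hX.1, g ≫ f, fun e => hg ?_, fun e => hn (IsIso.of_isIso_comp_right g f)⟩
  rw [← cancel_mono f, e, Limits.zero_comp]

theorem good_of_hom {I : C → Prop} {X N : C} (hN : I N) (hX : Good I X) (f : N ⟶ X)
    (hf : f ≠ 0) : Good I N := by
  by_cases h : IsIso f
  · exact ⟨hN, acc_iso hX f⟩
  · exact ⟨hN, hX.2.inv ⟨hN, hX.1, f, hf, h⟩⟩

/-- Chains of nonzero maps. -/
def Le (I : C → Prop) : C → C → Prop :=
  Relation.ReflTransGen fun A B => I A ∧ I B ∧ ∃ f : A ⟶ B, f ≠ 0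

theorem Le.cases {I : C → Prop} {Y Z : C} (h : Le I Y Z) :
    Nonempty (Y ≅ Z) ∨ ∃ W, Rel I W Z ∧ Le I Y W := by
  induction h with
  | refl => exact Or.inl ⟨Iso.refl _⟩
  | @tail A Z hA hZ ih =>
    obtain ⟨h1, h2, f, hf⟩ := hZ
    by_cases hi : IsIso f
    · rcases ih with ⟨⟨e⟩⟩ | ⟨W, ⟨w1, -, g, hg, hn⟩, hW⟩
      · exact Or.inl ⟨e ≪≫ asIso f⟩
      · refine Or.inr ⟨W, ⟨w1, h2, g ≫ f, fun e => hg ?_,
          fun e => hn (IsIso.of_isIso_comp_right g f)⟩, hW⟩
        rw [← cancel_mono f, e, Limits.zero_comp]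
    · exact Or.inr ⟨A, ⟨h1, h2, f, hf, hi⟩, hA⟩

theorem no_cycle {I : C → Prop} {X : C} (hX : Acc (Rel I) X) :
    ∀ Y, Rel I X Y → Le I Y X → False := by
  induction hX with
  | intro X _ ih =>
    intro Y hXY hY
    obtain ⟨h1, h2, f, hf, hn⟩ := hXY
    rcases hY.cases with ⟨⟨e⟩⟩ | ⟨W, hW, hYW⟩
    · have hr : Rel I X X := by
        refine ⟨h1, h1, f ≫ e.hom, fun h => hf ?_, fun h => hn (IsIso.of_isIso_comp_right f e.hom)⟩
        rw [← cancel_mono e.hom, h, Limits.zero_comp]
      exact ih X hr X hr Relation.ReflTransGen.refl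
    · exact ih W hW X hW (Relation.ReflTransGen.head ⟨h1, h2, f, hf⟩ hYW)

theorem Dcp.exists_ne {I : C → Prop} {M L N : C} (D : Dcp I M) (f : L ⟶ M) (g : M ⟶ N)
    (h : f ≫ g ≠ 0) : ∃ s, f ≫ D.prj s ≠ 0 ∧ D.inc s ≫ g ≠ 0 := by
  by_contra hc
  push Not at hc
  apply h
  rw [← Category.id_comp g, ← D.sum, Preadditive.sum_comp, Preadditive.comp_sum]
  refine Finset.sum_eq_zero fun s _ => ?_
  by_cases e : f ≫ D.prj s = 0
  · rw [Category.assoc, ← Category.assoc f, e, Limits.zero_comp]
  · rw [Category.assoc, hc s e, Limits.comp_zero, Limits.comp_zero]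

end abs

variable {k F : Type} [Field k] [Field F] [Algebra k F] {Pt ι Ω : Type} [Fintype Pt]
  [DecidableEq Pt] {J : Prob k F Pt ι Ω}

section idem

open Classical in
theorem e_diag (J : Prob k F Pt ι Ω) (i : ι) :
    J.e i = Matrix.diagonal fun p => if J.vt p = i then (1 : F) else 0 := by
  ext q p
  by_cases h : J.vt p = i
  · rw [J.e_pos q h, Matrix.one_apply, Matrix.diagonal_apply]
    split_ifs with h1 h2
    · rfl
    · exact (h2 (h1 ▸ h)).elim
    · rfl
  · rw [J.e_neg q h, Matrix.diagonal_apply]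
    split_ifs with h1 h2
    · exact (h (h1 ▸ h2)).elim
    · rfl
    · rfl

open Classical in
theorem mul_e (b : Matrix Pt Pt F) (i : ι) (q p : Pt) :
    (b * J.e i) q p = if J.vt p = i then b q p else 0 := by
  rw [e_diag, Matrix.mul_diagonal]; split_ifs <;> simp

open Classical in
theorem e_mul (b : Matrix Pt Pt F) (i : ι) (q p : Pt) :
    (J.e i * b) q p = if J.vt q = i then b q p else 0 := by
  rw [e_diag, Matrix.diagonal_mul]; split_ifs <;> simp

theorem e_e (i : ι) : J.e i * J.e i = J.e i := by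
  ext q p
  rw [mul_e]
  split_ifs with h
  · rfl
  · exact (J.e_neg q h).symm

theorem eB_eB (i : ι) : eB J i * eB J i = eB J i := Subtype.ext (e_e i)

theorem mem_H {i j : ι} {b : Matrix Pt Pt F} (hb : b ∈ J.B) (h1 : J.e j * b = b)
    (h2 : b * J.e i = b) : b ∈ J.H i j := by
  refine ⟨hb, fun q p h => ⟨?_, ?_⟩⟩
  · by_contra e
    rw [← h2, mul_e, if_neg e] at h
    exact h rfl
  · by_contra e
    rw [← h1, e_mul, if_neg e] at h
    exact h rfl

theorem In.e_mul {i j : ι} {b : Matrix Pt Pt F} (hb : J.In i j b) : J.e j * b = b := by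
  ext q p
  rw [K6.e_mul]
  split_ifs with h
  · rfl
  · by_contra e
    exact h (hb q p (Ne.symm e)).2

theorem In.mul_e {i j : ι} {b : Matrix Pt Pt F} (hb : J.In i j b) : b * J.e i = b := by
  ext q p
  rw [K6.mul_e]
  split_ifs with h
  · rfl
  · by_contra e
    exact h (hb q p (Ne.symm e)).1

theorem e_ne (hJ : Dir J) (a : ι) : J.e a ≠ 0 := by
  obtain ⟨p, hp⟩ := hJ.surj a
  intro h
  have := congrFun (congrFun h p) p
  rw [J.e_pos p hp] at this
  simp at this

theorem div2 (hJ : Dir J) {a : ι} {b : Matrix Pt Pt F} (hb : b ∈ J.H a a) (h0 : b ≠ 0) :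
    ∃ b' ∈ J.H a a, b' * b = J.e a ∧ b * b' = J.e a := by
  obtain ⟨b', hb', e1⟩ := hJ.div a b hb h0
  have h1 : b' ≠ 0 := fun h => e_ne hJ a (by rw [← e1, h, zero_mul])
  obtain ⟨b'', hb'', e2⟩ := hJ.div a b' hb' h1
  refine ⟨b', hb', e1, ?_⟩
  have : b'' = b := by
    rw [← In.mul_e hb''.2, ← e1, ← mul_assoc, e2, In.e_mul hb.2]
  rw [← this, e2]

theorem succ_of_ne {i j : ι} {b : J.B} (h : eB J j * b * eB J i ≠ 0) : J.Succ i j := by
  by_contra hs
  apply h
  apply Subtype.ext
  ext q p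
  change (J.e j * b.1 * J.e i) q p = 0
  rw [mul_e, e_mul]
  split_ifs with h1 h2
  · by_contra e
    exact hs ⟨b.1, b.2, p, q, h1, h2, e⟩
  · rfl
  · rfl

variable [Fintype ι]

open Classical in
/-- The idempotent of a set of vertices. -/
noncomputable def eS (J : Prob k F Pt ι Ω) (T : Set ι) : J.B :=
  ∑ j ∈ Finset.univ.filter (· ∈ T), eB J j

open Classical in
theorem eS_diag (T : Set ι) :
    (eS J T).1 = Matrix.diagonal fun p => if J.vt p ∈ T then (1 : F) else 0 := by
  ext q p
  rw [eS, AddSubmonoidClass.coe_finsetSum, Matrix.sum_apply, Matrix.diagonal_apply]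
  simp only [eB, e_diag, Matrix.diagonal_apply]
  split_ifs with h1 h2
  · rw [Finset.sum_eq_single (J.vt q) (fun j _ hj => if_neg hj.symm) (by simp [h2]), if_pos rfl]
  · exact Finset.sum_eq_zero fun j hj => if_neg fun e : J.vt q = j =>
      h2 (by rw [e]; exact (Finset.mem_filter.1 hj).2)
  · simp

theorem eS_univ : eS J Set.univ = 1 := by
  apply Subtype.ext
  rw [eS_diag]
  simp

theorem sum_eB : ∑ j, eB J j = 1 := by
  rw [← eS_univ, eS]
  simp

theorem eS_smul {Y : Type} [AddCommGroup Y] [Module J.B Y] {S : Set ι}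
    (h : ∀ j, j ∉ S → ∀ y : Y, eB J j • y = 0) (y : Y) : eS J S • y = y := by
  classical
  conv_rhs => rw [← one_smul J.B y, ← sum_eB, Finset.sum_smul]
  rw [eS, Finset.sum_smul, Finset.sum_filter]
  refine Finset.sum_congr rfl fun j _ => ?_
  split_ifs with e
  · rfl
  · exact (h j e y).symm

theorem eS_eS (T : Set ι) : eS J T * eS J T = eS J T := by
  apply Subtype.ext
  rw [MulMemClass.coe_mul, eS_diag, Matrix.diagonal_mul_diagonal]
  congr 1
  funext p
  split_ifs <;> simp

theorem eB_mul_eS {S : Set ι} (hS : Closed J S) {j : ι} (hj : j ∉ S) (b : J.B) :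
    eB J j * b * eS J S = 0 := by
  classical
  rw [eS, Finset.mul_sum]
  refine Finset.sum_eq_zero fun i hi => ?_
  by_contra h
  exact hj (hS i (Finset.mem_filter.1 hi).2 j (succ_of_ne h))

end idem

section be

theorem Be_proj {c : J.B} (hc : c * c = c) : Module.Projective J.B (Be J c) :=
  Module.Projective.of_split (Be J c).subtype
    (LinearMap.codRestrict (Be J c) (LinearMap.toSpanSingleton J.B J.B c) fun b => by
      change b * c * c = b * c
      rw [mul_assoc, hc])
    (LinearMap.ext fun b => Subtype.ext b.2)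

instance [FiniteDimensional k F] : Module.Finite k J.B :=
  Module.Finite.of_injective J.B.val.toLinearMap Subtype.val_injective

instance [FiniteDimensional k F] (c : J.B) : Module.Finite k (Be J c) :=
  Module.Finite.of_injective ((Be J c).subtype.restrictScalars k) Subtype.val_injective

/-- The generator of `B e_a`. -/
noncomputable def gen (J : Prob k F Pt ι Ω) (a : ι) : Be J (eB J a) := ⟨eB J a, eB_eB a⟩

theorem smul_gen {a : ι} (b : Be J (eB J a)) : b.1 • gen J a = b := Subtype.ext b.2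

/-- Rows supported on a vertex. -/
def Va (J : Prob k F Pt ι Ω) (a : ι) : Submodule F (Pt → F) where
  carrier := {x | ∀ p, J.vt p ≠ a → x p = 0}
  add_mem' := fun {x y} hx hy p h => by simp [hx p h, hy p h]
  zero_mem' := fun p h => rfl
  smul_mem' := fun c x hx p h => by simp [hx p h]

open Classical in
/-- The peak projections of rows. -/
noncomputable def pm (J : Prob k F Pt ι Ω) (a : ι) (o : Ω) : Va J a →ₗ[F] Va J a where
  toFun x := ⟨fun p => if J.pk p = o then x.1 p else 0, fun p h => by simp [x.2 p h]⟩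
  map_add' x y := Subtype.ext (funext fun p => by
    by_cases h : J.pk p = o <;> simp [h])
  map_smul' c x := Subtype.ext (funext fun p => by
    by_cases h : J.pk p = o <;> simp [h])

open Classical in
theorem pm_apply (a : ι) (o : Ω) (x : Va J a) (p : Pt) :
    (pm J a o x).1 p = if J.pk p = o then x.1 p else 0 := rfl

/-- The rows of a matrix. -/
def rows (J : Prob k F Pt ι Ω) (a : ι) : Be J (eB J a) →ₗ[J.B] Lm J (Va J a) where
  toFun b := fun q => ⟨fun p => b.1.1 q p, fun p h => by
    have : b.1.1 * J.e a = b.1.1 := congrArg Subtype.val b.2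
    change b.1.1 q p = 0
    rw [← this, mul_e, if_neg h]⟩
  map_add' x y := rfl
  map_smul' c x := Lm.ext fun q => Subtype.ext (funext fun p => by
    rw [RingHom.id_apply, Lm.smul_apply, AddSubmonoidClass.coe_finsetSum, Finset.sum_apply]
    rfl)

variable [Fintype Ω] [FiniteDimensional k F]

/-- The projective triple of a vertex. -/
noncomputable def Ra (J : Prob k F Pt ι Ω) (a : ι) : Tri J where
  X := Be J (eB J a)
  xp := Be_proj (eB_eB a)
  V := Va J a
  ε := pm J a
  orth o o' h := LinearMap.ext fun x => Subtype.ext (funext fun p => by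
    rw [LinearMap.comp_apply, pm_apply, pm_apply]
    split_ifs with h1 h2
    · exact (h (h1.symm.trans h2)).elim
    · rfl
    · rfl)
  sum := LinearMap.ext fun x => Subtype.ext (funext fun p => by
    rw [LinearMap.sum_apply, AddSubmonoidClass.coe_finsetSum, Finset.sum_apply]
    simp only [pm_apply]
    rw [Finset.sum_eq_single (J.pk p) (fun o _ ho => if_neg ho.symm) (by simp), if_pos rfl]
    rfl)
  φ := rows J a
  peak b q := Subtype.ext (funext fun p => by
    rw [pm_apply]
    split_ifs with h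
    · rfl
    · by_contra e
      exact h (J.peak _ b.1.2 q p (Ne.symm e)).symm)

end be

end Pool.Agent.MP_bd94e8_al.H6K.K6
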