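import Pool.Agent.MP_bd94e8_al.H6K.Ra

/-!
The universal property of the projective triples, triples with zero module, covers.
-/

set_option autoImplicit false
set_option linter.unusedSectionVars false
set_option linter.unusedVariables false

namespace Pool.Agent.MP_bd94e8_al.H6K.K6

open CategoryTheory Module Pool.Agent.MP_bd94e8_al.H89 Tri

variable {k F : Type} [Field k] [Field F] [Algebra k F] {Pt ι Ω : Type} [Fintype Pt]
  [DecidableEq Pt] {J : Prob k F Pt ι Ω} [Fintype Ω]

section basic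
variable {L M N : Tri J}

theorem eps_sum (M : Tri J) (v : M.V) : ∑ o, M.ε o v = v := by
  have := LinearMap.congr_fun M.sum v
  rwa [LinearMap.sum_apply] at this

theorem eps_orth (M : Tri J) {o o' : Ω} (h : o ≠ o') (v : M.V) : M.ε o (M.ε o' v) = 0 :=
  LinearMap.congr_fun (M.orth o o' h) v

theorem eps_eps (M : Tri J) (o : Ω) (v : M.V) : M.ε o (M.ε o v) = M.ε o v := by
  conv_rhs => rw [← eps_sum M v, map_sum]
  rw [Finset.sum_eq_single o (fun o' _ h => eps_orth M h.symm v) (by simp)]

theorem hx_bij (f : M ⟶ N) [IsIso f] : Function.Bijective (hx f) :=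
  Function.bijective_iff_has_inverse.2 ⟨hx (inv f),
    fun x => LinearMap.congr_fun (congrArg hx (IsIso.hom_inv_id f)) x,
    fun x => LinearMap.congr_fun (congrArg hx (IsIso.inv_hom_id f)) x⟩

theorem hv_bij (f : M ⟶ N) [IsIso f] : Function.Bijective (hv f) :=
  Function.bijective_iff_has_inverse.2 ⟨hv (inv f),
    fun x => LinearMap.congr_fun (congrArg hv (IsIso.hom_inv_id f)) x,
    fun x => LinearMap.congr_fun (congrArg hv (IsIso.inv_hom_id f)) x⟩

theorem InS.mono {S S' : Set ι} (h : S ⊆ S') (hM : InS S M) : InS S' M :=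
  fun j hj x => hM j (fun e => hj (h e)) x

/-- Averaging over the peaks. -/
noncomputable def avg (M N : Tri J) (g : M.V →ₗ[F] N.V) : M.V →ₗ[F] N.V :=
  ∑ o, N.ε o ∘ₗ g ∘ₗ M.ε o

theorem avg_apply (g : M.V →ₗ[F] N.V) (v : M.V) : avg M N g v = ∑ o, N.ε o (g (M.ε o v)) := by
  simp [avg, LinearMap.sum_apply]

theorem avg_cmp (g : M.V →ₗ[F] N.V) : Cmp M N (avg M N g) := by
  intro o v
  rw [avg_apply, avg_apply, map_sum,
    Finset.sum_eq_single o (fun o' _ h => by rw [eps_orth M h, map_zero, map_zero]) (by simp),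
    Finset.sum_eq_single o (fun o' _ h => eps_orth N h.symm _) (by simp), eps_eps, eps_eps]

theorem good_peak {I : Tri J → Prop} (hI : ∀ M, I M → Loc M) {K : Tri J} (hK : I K)
    (h0 : ∀ x : K.X, x = 0) : Good I K := by
  refine ⟨hK, Acc.intro _ ?_⟩
  rintro M ⟨hM, -, f, hf, hn⟩
  exfalso
  obtain ⟨s, hs⟩ := (hv f).rangeRestrict.exists_rightInverse_of_surjective
    (LinearMap.range_rangeRestrict _)
  obtain ⟨t, ht⟩ := (LinearMap.range (hv f)).subtype.exists_leftInverse_of_injective
    (Submodule.ker_subtype _)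
  have key : ∀ v, hv f (s (t (hv f v))) = hv f v := fun v => by
    have h1 := LinearMap.congr_fun ht ⟨hv f v, v, rfl⟩
    have h2 := LinearMap.congr_fun hs ⟨hv f v, v, rfl⟩
    simp only [LinearMap.comp_apply, Submodule.subtype_apply, LinearMap.id_apply] at h1 h2
    rw [h1]
    exact congrArg Subtype.val h2
  let g : K ⟶ M := mkHom 0 (avg K M (s ∘ₗ t)) (avg_cmp _) fun x p => by
    rw [h0 x]; simp [Lm.zero_apply]
  rcases (hI K hK).2 (g ≫ f) with h | h
  · exact hn (iso_right (hI K hK) (hI M hM) g f h)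
  · refine hf (hom_ext (fun x => h0 _) fun v => (hv_bij (𝟙 K - g ≫ f)).1 ?_)
    have : hv f (avg K M (s ∘ₗ t) (hv f v)) = hv f v := by
      rw [avg_apply, map_sum]
      conv_rhs => rw [← eps_sum K (hv f v)]
      refine Finset.sum_congr rfl fun o _ => ?_
      rw [hv_cmp f, ← hv_cmp f o v, LinearMap.comp_apply, key, hv_cmp f, eps_eps]
    simp [g, this]

theorem end_peak [FiniteDimensional k F] {K : Tri J} (hK : Loc K) (h0 : ∀ x : K.X, x = 0) :
    finrank k (K ⟶ K) ≤ finrank k F := by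
  obtain ⟨w, hw⟩ : ∃ w : K.V, w ≠ 0 := by
    by_contra h
    push Not at h
    exact hK.1 (hom_ext (fun x => h0 _) fun v => h _)
  obtain ⟨o, ho⟩ : ∃ o, K.ε o w ≠ 0 := by
    by_contra h
    push Not at h
    exact hw (by rw [← eps_sum K w]; exact Finset.sum_eq_zero fun o _ => h o)
  obtain ⟨l, hl⟩ := Module.Projective.exists_dual_eq_one F ho
  let e : K ⟶ K := mkHom 0 (avg K K (l.smulRight (K.ε o w))) (avg_cmp _) fun x p => by
    rw [h0 x]; simp [Lm.zero_apply]
  have he : ∀ v, hv e v = l (K.ε o v) • K.ε o w := fun v => by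
    change avg K K _ v = _
    rw [avg_apply, Finset.sum_eq_single o (fun o' _ h => by simp [eps_orth K h]) (by simp)]
    simp [eps_eps]
  have hsurj : ∀ v : K.V, ∃ a : F, v = a • K.ε o w := by
    rcases hK.2 e with h | h
    · intro v
      obtain ⟨u, rfl⟩ := (hv_bij e).2 v
      exact ⟨_, he u⟩
    · refine (ho ((hv_bij (𝟙 K - e)).1 ?_)).elim
      simp [he, eps_eps, hl]
  let θ : (K ⟶ K) →ₗ[k] F :=
    { toFun := fun g => l (hv g (K.ε o w))
      map_add' := fun g g' => by simp
      map_smul' := fun c g => by simp }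
  refine LinearMap.finrank_le_finrank_of_injective (f := θ) ?_
  rw [injective_iff_map_eq_zero]
  intro g hg
  refine hom_ext (fun x => h0 _) fun v => ?_
  obtain ⟨a, rfl⟩ := hsurj v
  obtain ⟨b, hb⟩ := hsurj (hv g (K.ε o w))
  have : b = 0 := by
    change l (hv g (K.ε o w)) = 0 at hg
    rwa [hb, map_smul, hl, smul_eq_mul, mul_one] at hg
  simp [hb, this]

/-- Replace the module of a triple. -/
def cov (M : Tri J) (X : Type) [AddCommGroup X] [Module k X] [Module J.B X]
    [IsScalarTower k J.B X] [Module.Projective J.B X] [Module.Finite k X] (c : X →ₗ[J.B] M.X) :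
    Tri J where
  X := X
  V := M.V
  ε := M.ε
  orth := M.orth
  sum := M.sum
  φ := M.φ ∘ₗ c
  peak x p := M.peak _ p

theorem exists_cov0 (M : Tri J) (X : Type) [AddCommGroup X] [Module k X] [Module J.B X]
    [IsScalarTower k J.B X] [Module.Projective J.B X] [Module.Finite k X] (c : X →ₗ[J.B] M.X)
    (S : Set ι) (hS : ∀ j, j ∉ S → ∀ x : X, eB J j • x = 0) :
    ∃ (L : Tri J) (f : L ⟶ M), InS S L ∧ Function.Bijective (hv f) ∧ (∀ x, ∃ y, hx f x = c y) ∧
      ∀ y, ∃ x, hx f x = c y :=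
  ⟨cov M X c, mkHom (M := cov M X c) (N := M) c LinearMap.id (fun _ _ => rfl) fun _ _ => rfl, hS,
    Function.bijective_id, fun x => ⟨x, rfl⟩, fun x => ⟨x, rfl⟩⟩

theorem lift_cov (c : L ⟶ M) (hc : Function.Bijective (hv c)) (f : N ⟶ M)
    (hf : ∀ x, ∃ y, hx c y = hx f x) : ∃ f' : N ⟶ L, f' ≫ c = f := by
  obtain ⟨h, hh⟩ := Module.projective_lifting_property (hx c).rangeRestrict
    (LinearMap.codRestrict (LinearMap.range (hx c)) (hx f) hf) (LinearMap.surjective_rangeRestrict _)
  have e1 : ∀ x, hx c (h x) = hx f x := fun x => congrArg Subtype.val (LinearMap.congr_fun hh x)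
  let w := (LinearEquiv.ofBijective (hv c) hc).symm
  have e2 : ∀ v, hv c (w v) = v := fun v => (LinearEquiv.ofBijective (hv c) hc).apply_symm_apply v
  refine ⟨mkHom h (w.toLinearMap ∘ₗ hv f) (fun o v => hc.1 ?_) fun x p => hc.1 ?_,
    hom_ext e1 fun v => e2 _⟩
  · simp [e2, hv_cmp c o, hv_cmp f o]
  · simp [e2, ← hφ, e1]

theorem exists_cov [Fintype ι] [FiniteDimensional k F] {S : Set ι} (hS : Closed J S) (M : Tri J)
    (Y : Submodule J.B M.X) (hY : ∀ j, j ∉ S → ∀ y ∈ Y, eB J j • y = 0) :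
    ∃ (L : Tri J) (c : L ⟶ M), InS S L ∧ Function.Bijective (hv c) ∧ (∀ x, hx c x ∈ Y) ∧
      ∀ y ∈ Y, ∃ x, hx c x = y := by
  have : Module.Finite k Y :=
    Module.Finite.of_injective (Y.subtype.restrictScalars k) Subtype.val_injective
  have : Module.Finite J.B Y := Module.Finite.of_restrictScalars_finite k J.B Y
  obtain ⟨n, y, hy⟩ := Module.Finite.exists_fin (R := J.B) (M := Y)
  have := Be_proj (eS_eS (J := J) S)
  have : Module.Projective J.B (Fin n → Be J (eS J S)) := Module.Projective.of_equiv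
    (DFinsupp.linearEquivFunOnFintype (R := J.B) (M := fun _ : Fin n => Be J (eS J S)))
  let c : (Fin n → Be J (eS J S)) →ₗ[J.B] M.X :=
    { toFun := fun b => ∑ s, (b s).1 • (y s).1
      map_add' := fun a b => by simp [add_smul, Finset.sum_add_distrib]
      map_smul' := fun a b => by simp [Finset.smul_sum, mul_smul] }
  obtain ⟨L, f, h1, h2, h3, h4⟩ := exists_cov0 M (Fin n → Be J (eS J S)) c S fun j hj x => by
    funext s
    apply Subtype.ext
    change eB J j * (x s).1 = 0
    have : (x s).1 * eS J S = (x s).1 := (x s).2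
    rw [← this, ← mul_assoc, eB_mul_eS hS hj]
  refine ⟨L, f, h1, h2, fun x => ?_, fun z hz => ?_⟩
  · obtain ⟨b, hb⟩ := h3 x
    rw [hb]
    change ∑ s, (b s).1 • (y s).1 ∈ Y
    exact Y.sum_mem fun s _ => Y.smul_mem _ (y s).2
  · have : (⟨z, hz⟩ : Y) ∈ Submodule.span J.B (Set.range y) := hy ▸ Submodule.mem_top
    obtain ⟨b, hb⟩ := (Submodule.mem_span_range_iff_exists_fun J.B).1 this
    obtain ⟨x, hx'⟩ := h4 fun s => ⟨b s * eS J S, by
      change b s * eS J S * eS J S = _
      rw [mul_assoc, eS_eS]⟩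
    refine ⟨x, hx'.trans ?_⟩
    change ∑ s, (b s * eS J S) • (y s).1 = z
    have e := congrArg Subtype.val hb
    rw [AddSubmonoidClass.coe_finsetSum] at e
    rw [← show _ = z from e]
    refine Finset.sum_congr rfl fun s _ => ?_
    rw [mul_smul]
    have := eS_smul (J := J) (Y := Y) (S := S) (fun j hj z => Subtype.ext (hY j hj z.1 z.2)) (y s)
    exact congrArg (fun u => b s • u) (congrArg Subtype.val this)

end basic

section ra
variable [FiniteDimensional k F] {a : ι}

theorem row_expand (r : Va J a) : r = ∑ q, r.1 q • rows J a (gen J a) q := by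
  apply Subtype.ext
  funext p
  rw [AddSubmonoidClass.coe_finsetSum, Finset.sum_apply]
  change r.1 p = ∑ q, r.1 q * J.e a q p
  rw [Finset.sum_eq_single p (fun q _ h => by rw [J.e_off a h, mul_zero]) (by simp)]
  by_cases h : J.vt p = a
  · rw [J.e_pos p h]; simp
  · rw [r.2 p h, zero_mul]

/-- Linear combinations of a family with the coefficients of a row. -/
noncomputable def comb (a : ι) {V : Type} [AddCommGroup V] [Module F V] (u : Lm J V) :
    Va J a →ₗ[F] V where
  toFun r := ∑ p, r.1 p • u p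
  map_add' r s := by simp [add_smul, Finset.sum_add_distrib]
  map_smul' c r := by simp [Finset.smul_sum, mul_smul]

/-- The morphism from the projective triple given by an element. -/
noncomputable def toM (a : ι) (M : Tri J) (x : M.X) : Ra J a ⟶ M :=
  mkHom ((LinearMap.toSpanSingleton J.B M.X x) ∘ₗ (Be J (eB J a)).subtype)
    (comb a (M.φ x))
    (fun o r => by
      change ∑ p, (pm J a o r).1 p • M.φ x p = M.ε o (∑ p, r.1 p • M.φ x p)
      rw [map_sum]
      refine Finset.sum_congr rfl fun p _ => ?_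
      rw [pm_apply, map_smul]
      split_ifs with h
      · rw [← h, M.peak]
      · rw [← M.peak x p, eps_orth M (Ne.symm h), zero_smul, smul_zero])
    (fun b q => by
      change M.φ (b.1 • x) q = _
      rw [map_smul]
      rfl)

theorem hx_toM (M : Tri J) (x : M.X) (b : Be J (eB J a)) : hx (toM a M x) b = b.1 • x := rfl

theorem Ra_ext {M : Tri J} {f g : Ra J a ⟶ M} (h : hx f (gen J a) = hx g (gen J a)) : f = g := by
  refine hom_ext (fun b : Be J (eB J a) => ?_) fun r : Va J a => ?_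
  · rw [← smul_gen b]
    exact ((hx f).map_smul _ _).trans (h ▸ ((hx g).map_smul _ _).symm)
  · rw [row_expand r]
    refine (map_sum (hv f) _ _).trans (Eq.trans ?_ (map_sum (hv g) _ _).symm)
    refine Finset.sum_congr rfl fun q _ => ?_
    refine ((hv f).map_smul _ _).trans (Eq.trans ?_ ((hv g).map_smul _ _).symm)
    exact congrArg _ ((hφ f (gen J a) q).symm.trans (h ▸ hφ g (gen J a) q))

theorem e_hx_gen {M : Tri J} (f : Ra J a ⟶ M) : eB J a • hx f (gen J a) = hx f (gen J a) :=
  ((hx f).map_smul _ _).symm.trans (congrArg _ (smul_gen (gen J a)))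

theorem end_mem (f : Ra J a ⟶ Ra J a) : (hx f (gen J a) : Be J (eB J a)).1.1 ∈ J.H a a :=
  mem_H (Subtype.property _) (congrArg (fun z : Be J (eB J a) => z.1.1) (e_hx_gen f))
    (congrArg Subtype.val (hx f (gen J a) : Be J (eB J a)).2)

theorem gen_ne (hJ : Dir J) : gen J a ≠ 0 := fun h =>
  e_ne hJ a (congrArg (fun z : Be J (eB J a) => z.1.1) h)

theorem Ra_iso (hJ : Dir J) (f : Ra J a ⟶ Ra J a) (hf : f ≠ 0) : IsIso f := by
  have h0 : (hx f (gen J a) : Be J (eB J a)).1.1 ≠ 0 := fun h =>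
    hf (Ra_ext (Subtype.ext (Subtype.ext h)))
  obtain ⟨b, hb, e1, e2⟩ := div2 hJ (end_mem f) h0
  let β : Be J (eB J a) := ⟨⟨b, hb.1⟩, Subtype.ext (In.mul_e hb.2)⟩
  refine ⟨⟨toM a (Ra J a) β, Ra_ext (Subtype.ext (Subtype.ext e2)), Ra_ext ?_⟩⟩
  have h1 : eB J a • β = β := Subtype.ext (Subtype.ext (In.e_mul hb.2))
  change hx f (eB J a • β) = gen J a
  rw [h1, ← smul_gen β]
  exact ((hx f).map_smul _ _).trans (Subtype.ext (Subtype.ext e1))

theorem Ra_loc (hJ : Dir J) : Loc (Ra J a) := by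
  refine ⟨fun h => gen_ne hJ (LinearMap.congr_fun (congrArg hx h) (gen J a)), fun f => ?_⟩
  by_cases h : f = 0
  · right
    rw [h, sub_zero]
    infer_instance
  · exact Or.inl (Ra_iso hJ f h)

theorem Ra_end : finrank k (Ra J a ⟶ Ra J a) ≤ finrank k (J.H a a) := by
  let θ : (Ra J a ⟶ Ra J a) →ₗ[k] J.H a a :=
    { toFun := fun f => ⟨_, end_mem f⟩
      map_add' := fun _ _ => rfl
      map_smul' := fun _ _ => rfl }
  exact LinearMap.finrank_le_finrank_of_injective (f := θ) fun f g h =>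
    Ra_ext (Subtype.ext (Subtype.ext (congrArg (fun z : J.H a a => z.1) h)))

theorem Ra_in {S : Set ι} (hS : Closed J S) (ha : a ∈ S) : InS S (Ra J a) := by
  intro j hj (b : Be J (eB J a))
  apply Subtype.ext
  change eB J j * b.1 = 0
  have : b.1 * eB J a = b.1 := b.2
  by_contra h
  rw [← this, ← mul_assoc] at h
  exact hj (hS a ha j (succ_of_ne h))

theorem rows_inj (b : Be J (eB J a)) (h : ∀ q, rows J a b q = 0) : b = 0 := by
  apply Subtype.ext
  apply Subtype.ext
  ext q p
  exact congrFun (congrArg Subtype.val (h q)) p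

end ra

end Pool.Agent.MP_bd94e8_al.H6K.K6
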