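import Pool.Agent.MP_bd94e8_al.H6K.Ra2

/-!
Labels of indecomposable triples, and endomorphisms of the cover of a radical.
-/

set_option autoImplicit false
set_option linter.unusedSectionVars false
set_option linter.unusedVariables false

namespace Pool.Agent.MP_bd94e8_al.H6K.K6

open CategoryTheory Module Pool.Agent.MP_bd94e8_al.H89 Tri

variable {k F : Type} [Field k] [Field F] [Algebra k F] {Pt ι Ω : Type} [Fintype Pt]
  [DecidableEq Pt] {J : Prob k F Pt ι Ω} [Fintype Ω] [Fintype ι]

section label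
variable {M N : Tri J}

open Classical in
/-- The projection onto a set of peaks. -/
noncomputable def εA (M : Tri J) (A : Set Ω) : M.V →ₗ[F] M.V :=
  ∑ o ∈ Finset.univ.filter (· ∈ A), M.ε o

open Classical in
theorem εA_eps (A : Set Ω) (o : Ω) (v : M.V) :
    εA M A (M.ε o v) = if o ∈ A then M.ε o v else 0 := by
  rw [εA, LinearMap.sum_apply]
  split_ifs with h
  · rw [Finset.sum_eq_single o (fun o' _ e => eps_orth M e v) (by simp [h]), eps_eps]
  · exact Finset.sum_eq_zero fun o' e => eps_orth M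
      (fun e' : o' = o => h (by rw [← e']; exact (Finset.mem_filter.1 e).2)) v

theorem cmp_εA {g : M.V →ₗ[F] N.V} (hg : Cmp M N g) (A : Set Ω) (v : M.V) :
    g (εA M A v) = εA N A (g v) := by
  rw [εA, εA, LinearMap.sum_apply, LinearMap.sum_apply, map_sum]
  exact Finset.sum_congr rfl fun o _ => hg o v

theorem eps_cmp (M : Tri J) (o : Ω) : Cmp M M (M.ε o) := fun o' v => by
  by_cases h : o = o'
  · rw [h]
  · rw [eps_orth M h, eps_orth M (Ne.symm h)]

theorem εA_cmp (M : Tri J) (A : Set Ω) : Cmp M M (εA M A) := fun o v =>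
  (cmp_εA (eps_cmp M o) A v).symm

theorem εA_εA (A : Set Ω) (v : M.V) : εA M A (εA M A v) = εA M A v := by
  classical
  rw [← eps_sum M v]
  simp only [map_sum]
  refine Finset.sum_congr rfl fun o _ => ?_
  rw [εA_eps]
  split_ifs with h
  · rw [εA_eps, if_pos h]
  · rw [map_zero]

open Classical in
theorem eS_act (T : Set ι) {V : Type} [AddCommGroup V] [Module F V] (u : Lm J V) (p : Pt) :
    (eS J T • u) p = if J.vt p ∈ T then u p else 0 := by
  rw [Lm.smul_apply, eS_diag, Finset.sum_eq_single p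
    (fun q _ h => by rw [Matrix.diagonal_apply_ne _ h.symm, zero_smul]) (by simp),
    Matrix.diagonal_apply_eq]
  split_ifs <;> simp

/-- A set of vertices and a set of peaks that match inside `S`. -/
def Lab (J : Prob k F Pt ι Ω) (S T : Set ι) (A : Set Ω) : Prop :=
  ∀ p, J.vt p ∈ T ↔ J.vt p ∈ S ∧ J.pk p ∈ A

theorem Lab.comm {S T : Set ι} {A : Set Ω} (h : Lab J S T A) (hS : Closed J S) (b : J.B) :
    eS J T * b * eS J S = b * eS J T := by
  apply Subtype.ext
  ext q p
  simp only [MulMemClass.coe_mul, eS_diag, Matrix.mul_diagonal, Matrix.diagonal_mul]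
  by_cases e : b.1 q p = 0
  · simp [e]
  · have e1 := J.peak _ b.2 q p e
    by_cases hp : J.vt p ∈ S
    · have hq : J.vt q ∈ S := hS _ hp _ ⟨b.1, b.2, p, q, rfl, rfl, e⟩
      have : J.vt q ∈ T ↔ J.vt p ∈ T := by rw [h, h, e1]; simp [hp, hq]
      by_cases ht : J.vt p ∈ T <;> simp [hp, ht, this]
    · have : J.vt p ∉ T := fun t => hp ((h p).1 t).1
      simp [hp, this]

/-- The triple lives on the label. -/
def On (T : Set ι) (A : Set Ω) (M : Tri J) : Prop :=
  (∀ x : M.X, eS J T • x = x) ∧ ∀ v, εA M A v = v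

/-- The triple lives outside the label. -/
def Off (T : Set ι) (A : Set Ω) (M : Tri J) : Prop :=
  (∀ x : M.X, eS J T • x = 0) ∧ ∀ v, εA M A v = 0

theorem on_or_off {S T : Set ι} {A : Set Ω} (h : Lab J S T A) (hS : Closed J S) (hM : IndS S M) :
    On T A M ∨ Off T A M := by
  let hX : M.X →ₗ[J.B] M.X :=
    { toFun := fun x => eS J T • x
      map_add' := fun x y => smul_add _ _ _
      map_smul' := fun b x => by
        rw [RingHom.id_apply, ← mul_smul b, ← h.comm hS, mul_smul, mul_smul, eS_smul hM.1] }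
  let θ : M ⟶ M := mkHom hX (εA M A) (εA_cmp M A) fun x p => by
    change M.φ (eS J T • x) p = _
    rw [map_smul, eS_act, ← M.peak x p, εA_eps, M.peak]
    by_cases hp : J.vt p ∈ S
    · have : J.vt p ∈ T ↔ J.pk p ∈ A := by rw [h]; simp [hp]
      by_cases ht : J.pk p ∈ A <;> simp [ht, this]
    · have : M.φ x p = 0 := by rw [← eS_smul hM.1 x, map_smul, eS_act, if_neg hp]
      simp [this]
  have hθ : θ ≫ θ = θ := hom_ext (fun x => by
    change eS J T • eS J T • x = eS J T • x
    rw [← mul_smul, eS_eS]) fun v => εA_εA A v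
  rcases idem_cases hM.2 hθ with e | e
  · exact Or.inr ⟨fun x => LinearMap.congr_fun (congrArg hx e) x,
      fun v => LinearMap.congr_fun (congrArg hv e) v⟩
  · exact Or.inl ⟨fun x => LinearMap.congr_fun (congrArg hx e) x,
      fun v => LinearMap.congr_fun (congrArg hv e) v⟩

theorem on_off {T : Set ι} {A : Set Ω} (hM : On T A M) (hN : Off T A N) (f : M ⟶ N) : f = 0 :=
  hom_ext (fun x => by rw [← hM.1 x, map_smul, hN.1]; rfl)
    fun v => by rw [← hM.2 v, cmp_εA (hv_cmp f), hN.2]; rfl

theorem on_le {S T : Set ι} {A : Set Ω} (h : Lab J S T A) (hS : Closed J S)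
    (hMN : Le (IndS S) M N) (hM : On T A M) : On T A N := by
  induction hMN with
  | refl => exact hM
  | tail _ hZ ih =>
    obtain ⟨-, h2, f, hf⟩ := hZ
    exact (on_or_off h hS h2).resolve_right fun e => hf (on_off ih e f)

end label

section endr
variable [FiniteDimensional k F] {a : ι}

/-- The matrix of an endomorphism of the rows. -/
noncomputable def mat (g : Va J a →ₗ[F] Va J a) : Matrix Pt Pt F :=
  Matrix.of fun q p => (g (rows J a (gen J a) q)).1 p

theorem mat_vec (g : Va J a →ₗ[F] Va J a) (r : Va J a) (p : Pt) :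
    (g r).1 p = ∑ q, r.1 q * mat g q p := by
  conv_lhs => rw [row_expand r, map_sum, AddSubmonoidClass.coe_finsetSum, Finset.sum_apply]
  refine Finset.sum_congr rfl fun q _ => ?_
  rw [map_smul]
  rfl

theorem mat_comp (g g' : Va J a →ₗ[F] Va J a) : mat (g' ∘ₗ g) = mat g * mat g' := by
  ext q p
  exact mat_vec g' _ p

theorem mat_ne {g : Va J a →ₗ[F] Va J a} (h : g ≠ 0) : mat g ≠ 0 := fun e =>
  h (LinearMap.ext fun r => Subtype.ext (funext fun p => by rw [mat_vec, e]; simp))

theorem mat_in (g : Va J a →ₗ[F] Va J a) : J.In a a (mat g) := by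
  intro q p h
  constructor
  · by_contra e
    exact h ((g _).2 p e)
  · by_contra e
    apply h
    have : rows J a (gen J a) q = 0 := Subtype.ext (funext fun p' => by
      change J.e a q p' = 0
      by_cases e' : q = p'
      · exact J.e_neg q (e' ▸ e)
      · exact J.e_off a e')
    change (g (rows J a (gen J a) q)).1 p = 0
    rw [this, map_zero]
    rfl

theorem mat_pk {g : Va J a →ₗ[F] Va J a} (hg : Cmp (Ra J a) (Ra J a) g) (q p : Pt)
    (h : mat g q p ≠ 0) : J.pk q = J.pk p := by
  by_contra e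
  apply h
  have h1 : pm J a (J.pk q) (rows J a (gen J a) q) = rows J a (gen J a) q :=
    (Ra J a).peak (gen J a) q
  have h2 : g (pm J a (J.pk q) (rows J a (gen J a) q)) =
    pm J a (J.pk q) (g (rows J a (gen J a) q)) := hg (J.pk q) (rows J a (gen J a) q)
  change (g (rows J a (gen J a) q)).1 p = 0
  rw [← h1, h2, pm_apply, if_neg (Ne.symm e)]

theorem mat_rows (g : Va J a →ₗ[F] Va J a) (b : Be J (eB J a)) (q p : Pt) :
    (b.1.1 * mat g) q p = (g (rows J a b q)).1 p := (mat_vec g (rows J a b q) p).symm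

/-- Right multiplication of rows by a matrix. -/
noncomputable def vm (a : ι) (h : Matrix Pt Pt F) (hh : J.In a a h) : Va J a →ₗ[F] Va J a where
  toFun r := ⟨fun p => ∑ q, r.1 q * h q p, fun p e => Finset.sum_eq_zero fun q _ => by
    by_cases e' : h q p = 0
    · rw [e', mul_zero]
    · exact (e (hh q p e').1).elim⟩
  map_add' r s := Subtype.ext (funext fun p => by simp [add_mul, Finset.sum_add_distrib])
  map_smul' c r := Subtype.ext (funext fun p => by simp [Finset.mul_sum, mul_assoc])

theorem mat_vm (h : Matrix Pt Pt F) (hh : J.In a a h) : mat (vm a h hh) = h := by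
  ext q p
  exact congrFun (congrFun (In.e_mul hh) q) p

theorem vm_cmp {h : Matrix Pt Pt F} (hh : EndR J a h) : Cmp (Ra J a) (Ra J a) (vm a h hh.1) := by
  intro o (r : Va J a)
  apply Subtype.ext
  funext p
  change ∑ q, (pm J a o r).1 q * h q p = (pm J a o (vm a h hh.1 r)).1 p
  rw [pm_apply]
  split_ifs with e
  · refine Finset.sum_congr rfl fun q _ => ?_
    by_cases e' : h q p = 0
    · rw [e', mul_zero, mul_zero]
    · rw [pm_apply, if_pos ((hh.2.1 q p e').trans e)]
  · refine Finset.sum_eq_zero fun q _ => ?_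
    by_cases e' : h q p = 0
    · rw [e', mul_zero]
    · rw [pm_apply, if_neg (fun t => e ((hh.2.1 q p e').symm.trans t)), zero_mul]

theorem endr_mem {h : Matrix Pt Pt F} (hh : EndR J a h) (y : Be J (eB J a))
    (hy : eB J a • y = 0) : y.1.1 * h ∈ J.B := by
  have e1 : y.1.1 = ∑ j, J.e j * y.1.1 := by
    rw [← Finset.sum_mul]
    have := congrArg Subtype.val (sum_eB (J := J))
    rw [AddSubmonoidClass.coe_finsetSum] at this
    rw [show ∑ j, J.e j = 1 from this, one_mul]
  rw [e1, Finset.sum_mul]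
  refine J.B.sum_mem fun j _ => ?_
  by_cases e : j = a
  · have : J.e a * y.1.1 = 0 := congrArg (fun z : Be J (eB J a) => z.1.1) hy
    rw [e, this, zero_mul]
    exact J.B.zero_mem
  · refine hh.2.2 j e _ (mem_H (J.B.mul_mem (J.e_mem j) y.1.2) (by rw [← mul_assoc, e_e]) ?_)
    have : y.1.1 * J.e a = y.1.1 := congrArg Subtype.val y.2
    rw [mul_assoc, this]

variable {R : Tri J} (c : R ⟶ Ra J a) (w : Va J a →ₗ[F] R.V)

/-- The endomorphism of the rows induced by an endomorphism of the cover. -/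
noncomputable def cj (θ : R ⟶ R) : Va J a →ₗ[F] Va J a := hv c ∘ₗ hv θ ∘ₗ w

variable {c w}

theorem cj_endr (hw : ∀ v, w (hv c v) = v) (hw' : ∀ r : Va J a, hv c (w r) = r)
    (hs : ∀ y : Be J (eB J a), eB J a • y = 0 → ∃ x, hx c x = y) (θ : R ⟶ R) :
    EndR J a (mat (cj c w θ)) := by
  refine ⟨mat_in _, mat_pk fun o r => ?_, fun j hj b hb => ?_⟩
  · change hv c (hv θ (w ((Ra J a).ε o r))) = (Ra J a).ε o (hv c (hv θ (w r)))
    rw [← hw' r, ← hv_cmp c, hw, hw, hv_cmp θ, hv_cmp c]
  · let y : Be J (eB J a) := ⟨⟨b, hb.1⟩, Subtype.ext (In.mul_e hb.2)⟩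
    obtain ⟨x, e⟩ := hs y (Subtype.ext (Subtype.ext (by
      change J.e a * b = 0
      ext q p
      rw [e_mul]
      split_ifs with t
      · by_contra t'
        exact hj ((hb.2 q p t').2.symm.trans t)
      · rfl)))
    have : b * mat (cj c w θ) = (hx c (hx θ x) : Be J (eB J a)).1.1 := by
      ext q p
      refine (mat_rows _ y q p).trans ?_
      have e1 : rows J a y q = hv c (R.φ x q) := by rw [← e]; exact hφ c x q
      have e2 : rows J a (hx c (hx θ x)) q = hv c (R.φ (hx θ x) q) := hφ c _ q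
      change (hv c (hv θ (w (rows J a y q))) : Va J a).1 p = (rows J a (hx c (hx θ x)) q).1 p
      rw [e1, e2, hw, hφ]
    rw [this]
    exact Subtype.property _

theorem endr_lift (hw : ∀ v, w (hv c v) = v) (hw' : ∀ r : Va J a, hv c (w r) = r)
    (hr : ∀ x, eB J a • hx c x = 0)
    (hs : ∀ y : Be J (eB J a), eB J a • y = 0 → ∃ x, hx c x = y) {h : Matrix Pt Pt F}
    (hh : EndR J a h) : ∃ θ : R ⟶ R, mat (cj c w θ) = h := by
  let ρ : R.X →ₗ[J.B] Be J (eB J a) :=
    { toFun := fun x => ⟨⟨(hx c x : Be J (eB J a)).1.1 * h, endr_mem hh _ (hr x)⟩,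
        Subtype.ext (by
          change (hx c x : Be J (eB J a)).1.1 * h * J.e a = (hx c x : Be J (eB J a)).1.1 * h
          rw [mul_assoc, In.mul_e hh.1])⟩
      map_add' := fun x y => Subtype.ext (Subtype.ext (by
        change (hx c (x + y) : Be J (eB J a)).1.1 * h = _ * h + _ * h
        rw [map_add, ← add_mul]
        rfl))
      map_smul' := fun b x => Subtype.ext (Subtype.ext (by
        change (hx c (b • x) : Be J (eB J a)).1.1 * h = b.1 * (_ * h)
        rw [map_smul, ← mul_assoc]
        rfl)) }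
  let f : R ⟶ Ra J a := mkHom (N := Ra J a) ρ (vm a h hh.1 ∘ₗ hv c)
    (fun o v => by
      change vm a h hh.1 (hv c (R.ε o v)) = _
      rw [hv_cmp c]
      exact vm_cmp hh o _)
    fun x q => by
      change _ = vm a h hh.1 (hv c (R.φ x q))
      rw [← hφ]
      rfl
  obtain ⟨θ, hθ⟩ := lift_cov c (Function.bijective_iff_has_inverse.2 ⟨w, hw, hw'⟩) f fun x =>
    hs _ (Subtype.ext (Subtype.ext (by
      have : J.e a * (hx c x : Be J (eB J a)).1.1 = 0 :=
        congrArg (fun z : Be J (eB J a) => z.1.1) (hr x)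
      change J.e a * ((hx c x : Be J (eB J a)).1.1 * h) = 0
      rw [← mul_assoc, this, zero_mul])))
  refine ⟨θ, (congrArg mat (LinearMap.ext fun r => ?_)).trans (mat_vm h hh.1)⟩
  have := LinearMap.congr_fun (congrArg hv hθ) (w r)
  exact this.trans (congrArg (vm a h hh.1) (hw' r))

end endr

end Pool.Agent.MP_bd94e8_al.H6K.K6
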