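import Pool.Agent.MP_bd94e8_al.H89.Spec
import Pool.Agent.MP_bd94e8_al.H6K.Abs

/-!
The category of triples `(X, V, φ)` of a problem and its bimodule of extensions.
-/

set_option autoImplicit false
set_option linter.unusedSectionVars false
set_option linter.unusedVariables false

namespace Pool.Agent.MP_bd94e8_al.H6K

open CategoryTheory Module Pool.Agent.MP_bd94e8_al.H89

variable {k F : Type} [Field k] [Field F] [Algebra k F] {Pt ι Ω : Type} [Fintype Pt]
  [DecidableEq Pt]

/-- Families of vectors as a module over the algebra of the problem. -/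
def Lm (_J : Prob k F Pt ι Ω) (V : Type) : Type := Pt → V

section lm
variable (J : Prob k F Pt ι Ω) (V V' : Type) [AddCommGroup V] [Module F V] [AddCommGroup V']
  [Module F V']

instance : AddCommGroup (Lm J V) := inferInstanceAs (AddCommGroup (Pt → V))

instance [Module k V] : Module k (Lm J V) := inferInstanceAs (Module k (Pt → V))

instance : SMul J.B (Lm J V) := ⟨fun b u => act b.1 u⟩

variable {J V V'}

theorem Lm.ext {u w : Lm J V} (h : ∀ p, u p = w p) : u = w := funext h

theorem Lm.smul_apply (b : J.B) (u : Lm J V) (q : Pt) : (b • u) q = ∑ p, b.1 q p • u p := rfl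

theorem Lm.smul_eq (b : J.B) (u : Lm J V) : b • u = act b.1 u := rfl

theorem Lm.add_apply (u w : Lm J V) (p : Pt) : (u + w) p = u p + w p := rfl

theorem Lm.sub_apply (u w : Lm J V) (p : Pt) : (u - w) p = u p - w p := rfl

theorem Lm.neg_apply (u : Lm J V) (p : Pt) : (-u) p = -u p := rfl

theorem Lm.zero_apply (p : Pt) : (0 : Lm J V) p = 0 := rfl

theorem Lm.ksmul_apply [Module k V] (c : k) (u : Lm J V) (p : Pt) : (c • u) p = c • u p := rfl

theorem Lm.sum_apply {σ : Type} (s : Finset σ) (u : σ → Lm J V) (p : Pt) :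
    (∑ t ∈ s, u t) p = ∑ t ∈ s, u t p := Finset.sum_apply p s u

instance : Module J.B (Lm J V) where
  one_smul u := Lm.ext fun q => by simp [Lm.smul_apply, Matrix.one_apply]
  mul_smul a b u := Lm.ext fun q => by
    simp only [Lm.smul_apply, MulMemClass.coe_mul, Matrix.mul_apply, Finset.smul_sum,
      Finset.sum_smul, mul_smul]
    rw [Finset.sum_comm]
  smul_zero b := Lm.ext fun q => by simp [Lm.smul_apply, Lm.zero_apply]
  smul_add b u w := Lm.ext fun q => by
    simp [Lm.smul_apply, Lm.add_apply, Finset.sum_add_distrib]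
  add_smul a b u := Lm.ext fun q => by
    simp [Lm.smul_apply, Lm.add_apply, add_smul, Finset.sum_add_distrib]
  zero_smul u := Lm.ext fun q => by simp [Lm.smul_apply, Lm.zero_apply]

instance [Module k V] [IsScalarTower k F V] : IsScalarTower k J.B (Lm J V) where
  smul_assoc c b u := Lm.ext fun q => by
    simp [Lm.smul_apply, Lm.ksmul_apply, Finset.smul_sum]

/-- The map of families induced by a linear map. -/
def Lm.map (J : Prob k F Pt ι Ω) (g : V →ₗ[F] V') : Lm J V →ₗ[J.B] Lm J V' where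
  toFun u := fun p => g (u p)
  map_add' u w := Lm.ext fun p => by simp [Lm.add_apply]
  map_smul' b u := Lm.ext fun p => by simp [Lm.smul_apply]

theorem Lm.map_apply (g : V →ₗ[F] V') (u : Lm J V) (p : Pt) : Lm.map J g u p = g (u p) := rfl

end lm

variable [Fintype Ω]

/-- A finitely generated projective module, a space with peaks and a map between them. -/
structure Tri (J : Prob k F Pt ι Ω) : Type 1 where
  X : Type
  [xa : AddCommGroup X]
  [xk : Module k X]
  [xb : Module J.B X]
  [xt : IsScalarTower k J.B X]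
  [xp : Module.Projective J.B X]
  [xf : Module.Finite k X]
  V : Type
  [va : AddCommGroup V]
  [vk : Module k V]
  [vf : Module F V]
  [vs : IsScalarTower k F V]
  [vd : Module.Finite F V]
  ε : Ω → V →ₗ[F] V
  orth : ∀ o o', o ≠ o' → ε o ∘ₗ ε o' = 0
  sum : ∑ o, ε o = LinearMap.id
  φ : X →ₗ[J.B] Lm J V
  peak : ∀ x p, ε (J.pk p) (φ x p) = φ x p

attribute [instance] Tri.xa Tri.xk Tri.xb Tri.xt Tri.xp Tri.xf Tri.va Tri.vk Tri.vf Tri.vs Tri.vd

namespace Tri
variable {J : Prob k F Pt ι Ω}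

/-- Linear maps that commute with the peak projections. -/
def Cmp (M N : Tri J) (g : M.V →ₗ[F] N.V) : Prop := ∀ o v, g (M.ε o v) = N.ε o (g v)

/-- Morphisms of triples. -/
def hom (M N : Tri J) : Submodule k ((M.X →ₗ[J.B] N.X) × (M.V →ₗ[F] N.V)) where
  carrier := {f | Cmp M N f.2 ∧ ∀ x p, N.φ (f.1 x) p = f.2 (M.φ x p)}
  add_mem' := fun {a b} ha hb => ⟨fun o v => by simp [ha.1 o v, hb.1 o v], fun x p => by
    simp [Lm.add_apply, ha.2 x p, hb.2 x p]⟩
  zero_mem' := ⟨fun o v => by simp, fun x p => by simp [Lm.zero_apply]⟩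
  smul_mem' := fun c a ha => ⟨fun o v => by simp [ha.1 o v], fun x p => by
    simp [Lm.ksmul_apply, ha.2 x p]⟩

instance : Category.{0} (Tri J) where
  Hom M N := hom M N
  id M := ⟨(LinearMap.id, LinearMap.id), fun _ _ => rfl, fun _ _ => rfl⟩
  comp f g := ⟨(g.1.1 ∘ₗ f.1.1, g.1.2 ∘ₗ f.1.2), fun o v => by
    simp [f.2.1 o v, g.2.1 o], fun x p => by simp [f.2.2 x p, g.2.2 _ p]⟩
  id_comp _ := rfl
  comp_id _ := rfl
  assoc _ _ _ := rfl

variable {L M N : Tri J}

/-- The module component of a morphism. -/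
def hx (f : M ⟶ N) : M.X →ₗ[J.B] N.X := f.1.1

/-- The space component of a morphism. -/
def hv (f : M ⟶ N) : M.V →ₗ[F] N.V := f.1.2

/-- The morphism with the given components. -/
def mkHom (h : M.X →ₗ[J.B] N.X) (g : M.V →ₗ[F] N.V) (hg : Cmp M N g)
    (hφ : ∀ x p, N.φ (h x) p = g (M.φ x p)) : M ⟶ N := ⟨(h, g), hg, hφ⟩

@[simp] theorem hx_mkHom (h : M.X →ₗ[J.B] N.X) (g : M.V →ₗ[F] N.V) (hg : Cmp M N g)
    (hφ : ∀ x p, N.φ (h x) p = g (M.φ x p)) : hx (mkHom h g hg hφ) = h := rfl

@[simp] theorem hv_mkHom (h : M.X →ₗ[J.B] N.X) (g : M.V →ₗ[F] N.V) (hg : Cmp M N g)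
    (hφ : ∀ x p, N.φ (h x) p = g (M.φ x p)) : hv (mkHom h g hg hφ) = g := rfl

theorem hv_cmp (f : M ⟶ N) : Cmp M N (hv f) := f.2.1

theorem hφ (f : M ⟶ N) (x : M.X) (p : Pt) : N.φ (hx f x) p = hv f (M.φ x p) := f.2.2 x p

theorem hom_ext {f g : M ⟶ N} (h1 : ∀ x, hx f x = hx g x) (h2 : ∀ v, hv f v = hv g v) : f = g :=
  Subtype.ext (Prod.ext (LinearMap.ext h1) (LinearMap.ext h2))

@[simp] theorem hx_id (M : Tri J) : hx (𝟙 M) = LinearMap.id := rfl

@[simp] theorem hv_id (M : Tri J) : hv (𝟙 M) = LinearMap.id := rfl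

@[simp] theorem hx_comp (f : L ⟶ M) (g : M ⟶ N) : hx (f ≫ g) = hx g ∘ₗ hx f := rfl

@[simp] theorem hv_comp (f : L ⟶ M) (g : M ⟶ N) : hv (f ≫ g) = hv g ∘ₗ hv f := rfl

instance : Preadditive (Tri J) where
  homGroup M N := inferInstanceAs (AddCommGroup (hom M N))
  add_comp _ _ _ f f' g := hom_ext (fun x => map_add (hx g) _ _) fun v => map_add (hv g) _ _
  comp_add _ _ _ f g g' := hom_ext (fun _ => rfl) fun _ => rfl

instance : Linear k (Tri J) where
  homModule M N := inferInstanceAs (Module k (hom M N))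
  smul_comp _ _ _ c f g := hom_ext (fun x => (hx g).map_smul_of_tower c _)
    fun v => (hv g).map_smul_of_tower c _
  comp_smul _ _ _ f c g := hom_ext (fun _ => rfl) fun _ => rfl

@[simp] theorem hx_zero : hx (0 : M ⟶ N) = 0 := rfl

@[simp] theorem hv_zero : hv (0 : M ⟶ N) = 0 := rfl

@[simp] theorem hx_add (f g : M ⟶ N) : hx (f + g) = hx f + hx g := rfl

@[simp] theorem hv_add (f g : M ⟶ N) : hv (f + g) = hv f + hv g := rfl

@[simp] theorem hx_sub (f g : M ⟶ N) : hx (f - g) = hx f - hx g := rfl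

@[simp] theorem hv_sub (f g : M ⟶ N) : hv (f - g) = hv f - hv g := rfl

@[simp] theorem hx_neg (f : M ⟶ N) : hx (-f) = -hx f := rfl

@[simp] theorem hv_neg (f : M ⟶ N) : hv (-f) = -hv f := rfl

@[simp] theorem hx_smul (c : k) (f : M ⟶ N) : hx (c • f) = c • hx f := rfl

@[simp] theorem hv_smul (c : k) (f : M ⟶ N) : hv (c • f) = c • hv f := rfl

theorem hx_sum {σ : Type} (s : Finset σ) (f : σ → (M ⟶ N)) :
    hx (∑ t ∈ s, f t) = ∑ t ∈ s, hx (f t) := by
  classical
  induction s using Finset.induction_on with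
  | empty => simp
  | insert a s ha ih => simp [Finset.sum_insert ha, ih]

theorem hv_sum {σ : Type} (s : Finset σ) (f : σ → (M ⟶ N)) :
    hv (∑ t ∈ s, f t) = ∑ t ∈ s, hv (f t) := by
  classical
  induction s using Finset.induction_on with
  | empty => simp
  | insert a s ha ih => simp [Finset.sum_insert ha, ih]

/-- Peak compatible maps from the module of `M` to the families of vectors of `N`. -/
def der (M N : Tri J) : Submodule k (M.X →ₗ[J.B] Lm J N.V) where
  carrier := {δ | ∀ x p, N.ε (J.pk p) (δ x p) = δ x p}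
  add_mem' := fun {a b} ha hb x p => by simp [Lm.add_apply, ha x p, hb x p]
  zero_mem' := fun x p => by simp [Lm.zero_apply]
  smul_mem' := fun c a ha x p => by simp [Lm.ksmul_apply, ha x p]

/-- The inner elements. -/
def inn (M N : Tri J) : Submodule k (der M N) where
  carrier := {δ | ∃ (h : M.X →ₗ[J.B] N.X) (g : M.V →ₗ[F] N.V), Cmp M N g ∧
    ∀ x p, δ.1 x p = N.φ (h x) p - g (M.φ x p)}
  add_mem' := by
    rintro a b ⟨h, g, hg, e⟩ ⟨h', g', hg', e'⟩
    refine ⟨h + h', g + g', fun o v => by simp [hg o v, hg' o v], fun x p => ?_⟩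
    simp only [Submodule.coe_add, LinearMap.add_apply, Lm.add_apply, e, e', map_add]
    abel
  zero_mem' := ⟨0, 0, fun o v => by simp, fun x p => by simp [Lm.zero_apply]⟩
  smul_mem' := by
    rintro c a ⟨h, g, hg, e⟩
    refine ⟨c • h, c • g, fun o v => by simp [hg o v], fun x p => ?_⟩
    simp [Lm.ksmul_apply, e, smul_sub]

/-- Composition with the module component of a morphism. -/
def dpull (f : L ⟶ M) (N : Tri J) : der M N →ₗ[k] der L N where
  toFun δ := ⟨δ.1 ∘ₗ hx f, fun x p => δ.2 _ p⟩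
  map_add' _ _ := rfl
  map_smul' _ _ := rfl

/-- Composition with the space component of a morphism. -/
def dpush (L : Tri J) (f : M ⟶ N) : der L M →ₗ[k] der L N where
  toFun δ := ⟨Lm.map J (hv f) ∘ₗ δ.1, fun x p => by
    change N.ε _ (hv f (δ.1 x p)) = hv f (δ.1 x p)
    rw [← hv_cmp f, δ.2 x p]⟩
  map_add' a b := Subtype.ext (LinearMap.ext fun x => map_add (Lm.map J (hv f)) _ _)
  map_smul' c a := Subtype.ext (LinearMap.ext fun x => (Lm.map J (hv f)).map_smul_of_tower c _)

theorem dpull_apply (f : L ⟶ M) (N : Tri J) (δ : der M N) (x : L.X) :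
    (dpull f N δ).1 x = δ.1 (hx f x) := rfl

theorem dpush_apply (L : Tri J) (f : M ⟶ N) (δ : der L M) (x : L.X) (p : Pt) :
    (dpush L f δ).1 x p = hv f (δ.1 x p) := rfl

theorem dpull_le (f : L ⟶ M) (N : Tri J) : inn M N ≤ (inn L N).comap (dpull f N) := by
  rintro δ ⟨h, g, hg, e⟩
  refine ⟨h ∘ₗ hx f, g ∘ₗ hv f, fun o v => by simp [hv_cmp f o v, hg o], fun x p => ?_⟩
  simp [dpull_apply, e, hφ]

theorem dpush_le (L : Tri J) (f : M ⟶ N) : inn L M ≤ (inn L N).comap (dpush L f) := by
  rintro δ ⟨h, g, hg, e⟩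
  refine ⟨hx f ∘ₗ h, hv f ∘ₗ g, fun o v => by simp [hg o v, hv_cmp f o], fun x p => ?_⟩
  simp [dpush_apply, e, hφ]

/-- The map induced on classes. -/
noncomputable def epull (f : L ⟶ M) (N : Tri J) : (der M N ⧸ inn M N) →ₗ[k] (der L N ⧸ inn L N) :=
  Submodule.mapQ _ _ (dpull f N) (dpull_le f N)

/-- The map induced on classes. -/
noncomputable def epush (L : Tri J) (f : M ⟶ N) : (der L M ⧸ inn L M) →ₗ[k] (der L N ⧸ inn L N) :=
  Submodule.mapQ _ _ (dpush L f) (dpush_le L f)

theorem epull_mk (f : L ⟶ M) (N : Tri J) (δ : der M N) :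
    epull f N (Submodule.Quotient.mk δ) = Submodule.Quotient.mk (dpull f N δ) :=
  Submodule.mapQ_apply _ _ _ _

theorem epush_mk (L : Tri J) (f : M ⟶ N) (δ : der L M) :
    epush L f (Submodule.Quotient.mk δ) = Submodule.Quotient.mk (dpush L f δ) :=
  Submodule.mapQ_apply _ _ _ _

theorem der_ext {δ δ' : der M N} (h : ∀ x p, δ.1 x p = δ'.1 x p) : δ = δ' :=
  Subtype.ext (LinearMap.ext fun x => Lm.ext (h x))

/-- The right action as a bilinear map. -/
noncomputable def pullL (L M N : Tri J) :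
    (L ⟶ M) →ₗ[k] (der M N ⧸ inn M N) →ₗ[k] (der L N ⧸ inn L N) where
  toFun f := epull f N
  map_add' f g := LinearMap.ext fun η => by
    obtain ⟨δ, rfl⟩ := Submodule.Quotient.mk_surjective _ η
    rw [LinearMap.add_apply, epull_mk, epull_mk, epull_mk, ← Submodule.Quotient.mk_add]
    exact congrArg _ (der_ext fun x p => by simp [dpull_apply, Lm.add_apply])
  map_smul' c f := LinearMap.ext fun η => by
    obtain ⟨δ, rfl⟩ := Submodule.Quotient.mk_surjective _ η
    rw [LinearMap.smul_apply, epull_mk, epull_mk, ← Submodule.Quotient.mk_smul]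
    exact congrArg _ (der_ext fun x p => by simp [dpull_apply, Lm.ksmul_apply])

/-- The left action as a bilinear map. -/
noncomputable def pushL (L M N : Tri J) :
    (M ⟶ N) →ₗ[k] (der L M ⧸ inn L M) →ₗ[k] (der L N ⧸ inn L N) where
  toFun f := epush L f
  map_add' f g := LinearMap.ext fun η => by
    obtain ⟨δ, rfl⟩ := Submodule.Quotient.mk_surjective _ η
    rw [LinearMap.add_apply, epush_mk, epush_mk, epush_mk, ← Submodule.Quotient.mk_add]
    exact congrArg _ (der_ext fun x p => by simp [dpush_apply, Lm.add_apply])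
  map_smul' c f := LinearMap.ext fun η => by
    obtain ⟨δ, rfl⟩ := Submodule.Quotient.mk_surjective _ η
    rw [LinearMap.smul_apply, epush_mk, epush_mk, ← Submodule.Quotient.mk_smul]
    exact congrArg _ (der_ext fun x p => by simp [dpush_apply, Lm.ksmul_apply])

theorem pullL_mk (f : L ⟶ M) (δ : der M N) :
    pullL L M N f (Submodule.Quotient.mk δ) = Submodule.Quotient.mk (dpull f N δ) :=
  epull_mk f N δ

theorem pushL_mk (f : M ⟶ N) (δ : der L M) :
    pushL L M N f (Submodule.Quotient.mk δ) = Submodule.Quotient.mk (dpush L f δ) :=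
  epush_mk L f δ

theorem dpull_id (δ : der M N) : dpull (𝟙 M) N δ = δ := der_ext fun x p => rfl

theorem dpush_id (δ : der M N) : dpush M (𝟙 N) δ = δ := der_ext fun x p => rfl

theorem dpull_comp {K : Tri J} (f : K ⟶ L) (g : L ⟶ M) (δ : der M N) :
    dpull (f ≫ g) N δ = dpull f N (dpull g N δ) := der_ext fun x p => rfl

theorem dpush_comp {K : Tri J} (f : L ⟶ M) (g : M ⟶ N) (δ : der K L) :
    dpush K (f ≫ g) δ = dpush K g (dpush K f δ) := der_ext fun x p => rfl

/-- The bimodule of extensions of triples. -/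
noncomputable def ext (J : Prob k F Pt ι Ω) : ExtB k (Tri J) where
  E M N := der M N ⧸ inn M N
  acg _ _ := inferInstance
  mod _ _ := inferInstance
  pull N := pullL _ _ N
  push L := pushL L _ _
  pull_id Z X η := by
    obtain ⟨δ, rfl⟩ := Submodule.Quotient.mk_surjective _ η
    rw [pullL_mk, dpull_id]
  pull_comp X f g η := by
    obtain ⟨δ, rfl⟩ := Submodule.Quotient.mk_surjective _ η
    rw [pullL_mk, pullL_mk, pullL_mk, dpull_comp]
  push_id Z X η := by
    obtain ⟨δ, rfl⟩ := Submodule.Quotient.mk_surjective _ η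
    rw [pushL_mk, dpush_id]
  push_comp Z _ _ _ f g η := by
    obtain ⟨δ, rfl⟩ := Submodule.Quotient.mk_surjective _ η
    rw [pushL_mk, pushL_mk, pushL_mk, dpush_comp]

/-- The class of an element. -/
noncomputable def cls (δ : der M N) : (ext J).E M N := Submodule.Quotient.mk δ

theorem cls_surj (η : (ext J).E M N) : ∃ δ : der M N, cls δ = η :=
  Submodule.Quotient.mk_surjective _ η

theorem cls_eq_zero (δ : der M N) : cls δ = 0 ↔ δ ∈ inn M N := Submodule.Quotient.mk_eq_zero _

theorem cls_eq (δ δ' : der M N) : cls δ = cls δ' ↔ δ - δ' ∈ inn M N := Submodule.Quotient.eq _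

theorem mem_inn (δ : der M N) : δ ∈ inn M N ↔ ∃ (h : M.X →ₗ[J.B] N.X) (g : M.V →ₗ[F] N.V),
    Cmp M N g ∧ ∀ x p, δ.1 x p = N.φ (h x) p - g (M.φ x p) := Iff.rfl

theorem pull_cls (f : L ⟶ M) (δ : der M N) : (ext J).pull N f (cls δ) = cls (dpull f N δ) :=
  pullL_mk f δ

theorem push_cls (f : M ⟶ N) (δ : der L M) : (ext J).push L f (cls δ) = cls (dpush L f δ) :=
  pushL_mk f δ

end Tri

/-- The idempotent of a vertex as an element of the algebra. -/
noncomputable def eB (J : Prob k F Pt ι Ω) (i : ι) : J.B := ⟨J.e i, J.e_mem i⟩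

/-- The module of the triple is killed by the idempotents of the vertices outside `S`. -/
def InS {J : Prob k F Pt ι Ω} (S : Set ι) (M : Tri J) : Prop :=
  ∀ j, j ∉ S → ∀ x : M.X, eB J j • x = 0

/-- Indecomposable triples supported in `S`. -/
def IndS {J : Prob k F Pt ι Ω} (S : Set ι) (M : Tri J) : Prop := InS S M ∧ Loc M

/-- Sets of vertices closed under successors. -/
def Closed (J : Prob k F Pt ι Ω) (S : Set ι) : Prop := ∀ i ∈ S, ∀ j, J.Succ i j → j ∈ S

/-- The left ideal generated by an idempotent. -/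
def Be (J : Prob k F Pt ι Ω) (c : J.B) : Submodule J.B J.B where
  carrier := {b | b * c = b}
  add_mem' := fun {a b} ha hb => by
    change (a + b) * c = a + b
    rw [add_mul, ha, hb]
  zero_mem' := zero_mul c
  smul_mem' := fun a b hb => by
    change a * b * c = a * b
    rw [mul_assoc, hb]

/-- The module `X` is a direct sum of `d i` copies of the modules `B e_i`, numerically. -/
structure IsDim (J : Prob k F Pt ι Ω) [Fintype ι] (X : Type) [AddCommGroup X] [Module k X]
    [Module J.B X] [IsScalarTower k J.B X] (d : ι → ℕ) : Prop where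
  src : ∀ (Y : Type) [AddCommGroup Y] [Module k Y] [Module J.B Y] [IsScalarTower k J.B Y]
    [Module.Finite k Y],
    finrank k (X →ₗ[J.B] Y) = ∑ i, d i * finrank k (Be J (eB J i) →ₗ[J.B] Y)
  tgt : ∀ j, finrank k (Be J (eB J j) →ₗ[J.B] X) = ∑ i, d i * finrank k (J.H i j)
  gen : ∀ x : X, x ∈ Submodule.span J.B {y : X | ∃ i, d i ≠ 0 ∧ eB J i • y = y}

end Pool.Agent.MP_bd94e8_al.H6K
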